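import Mathlib

/-!
The normalised central binomial coefficient `lam h = C(2h,h)/4^h`.
-/

namespace Pool.Agent.Helper14.ZeroSum

/-- `lam h = C(2h,h)/4^h`. -/
noncomputable def lam (h : ℕ) : ℝ := (Nat.centralBinom h : ℝ) / 4 ^ h

theorem lam_pos (h : ℕ) : 0 < lam h := by
  unfold lam
  have := Nat.centralBinom_pos h
  positivity

@[simp] theorem lam_zero : lam 0 = 1 := by simp [lam]

@[simp] theorem lam_one : lam 1 = 1 / 2 := by
  norm_num [lam, Nat.centralBinom, Nat.choose]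

theorem lam_succ (h : ℕ) : lam (h + 1) * (2 * h + 2) = lam h * (2 * h + 1) := by
  have h1 := Nat.succ_mul_centralBinom_succ h
  have h2 : ((h : ℝ) + 1) * (Nat.centralBinom (h + 1) : ℝ) =
      2 * (2 * h + 1) * (Nat.centralBinom h : ℝ) := by exact_mod_cast h1
  unfold lam
  rw [pow_succ]
  field_simp
  linear_combination (2 : ℝ) * h2

theorem lam_succ' (h : ℕ) : lam (h + 1) = lam h * ((2 * h + 1) / (2 * h + 2)) := by
  have := lam_succ h
  have h2 : (2 * (h : ℝ) + 2) ≠ 0 := by positivity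
  field_simp
  linarith

theorem lam_antitone : Antitone lam := by
  apply antitone_nat_of_succ_le
  intro h
  rw [lam_succ']
  have h1 : (2 * (h : ℝ) + 1) / (2 * h + 2) ≤ 1 := by
    rw [div_le_one (by positivity)]; linarith
  calc lam h * ((2 * h + 1) / (2 * h + 2)) ≤ lam h * 1 :=
        mul_le_mul_of_nonneg_left h1 (lam_pos h).le
    _ = lam h := mul_one _

/-- `lam α * lam β ≤ (1/2) lam (α + β - 1)` for `α, β ≥ 1`. -/
theorem lam_mul_le (α β : ℕ) : lam (α + 1) * lam (β + 1) ≤ 1 / 2 * lam (α + β + 1) := by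
  induction β with
  | zero =>
    rw [Nat.zero_add, lam_one, Nat.add_zero]
    linarith
  | succ β ih =>
    rw [lam_succ' (β + 1), show α + (β + 1) + 1 = (α + β + 1) + 1 by ring, lam_succ' (α + β + 1)]
    have h1 : (2 * ((β + 1 : ℕ) : ℝ) + 1) / (2 * ((β + 1 : ℕ) : ℝ) + 2) ≤
        (2 * ((α + β + 1 : ℕ) : ℝ) + 1) / (2 * ((α + β + 1 : ℕ) : ℝ) + 2) := by
      rw [div_le_div_iff₀ (by positivity) (by positivity)]
      push_cast
      nlinarith [(Nat.cast_nonneg α : (0 : ℝ) ≤ α), (Nat.cast_nonneg β : (0 : ℝ) ≤ β)]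
    have h2 : 0 ≤ (2 * ((β + 1 : ℕ) : ℝ) + 1) / (2 * ((β + 1 : ℕ) : ℝ) + 2) := by positivity
    have h3 : 0 < lam (α + 1) * lam (β + 1) := mul_pos (lam_pos _) (lam_pos _)
    calc lam (α + 1) * (lam (β + 1) *
          ((2 * ((β + 1 : ℕ) : ℝ) + 1) / (2 * ((β + 1 : ℕ) : ℝ) + 2)))
        = (lam (α + 1) * lam (β + 1)) *
          ((2 * ((β + 1 : ℕ) : ℝ) + 1) / (2 * ((β + 1 : ℕ) : ℝ) + 2)) := by ring
      _ ≤ (1 / 2 * lam (α + β + 1)) *
          ((2 * ((α + β + 1 : ℕ) : ℝ) + 1) / (2 * ((α + β + 1 : ℕ) : ℝ) + 2)) :=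
          mul_le_mul ih h1 h2 (by have := lam_pos (α + β + 1); positivity)
      _ = _ := by ring

theorem lam_sq_mono : Monotone (fun h : ℕ => (h : ℝ) * lam h ^ 2) := by
  apply monotone_nat_of_le_succ
  intro h
  have h0 := lam_pos h
  have h1 := lam_succ' h
  change (h : ℝ) * lam h ^ 2 ≤ ((h + 1 : ℕ) : ℝ) * lam (h + 1) ^ 2
  rw [h1]
  push_cast
  have h2 : ((h : ℝ) + 1) * (lam h * ((2 * h + 1) / (2 * h + 2))) ^ 2 =
      lam h ^ 2 * ((2 * h + 1) ^ 2 / (4 * (h + 1))) := by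
    field_simp
    ring
  rw [h2]
  have h3 : (h : ℝ) ≤ (2 * h + 1) ^ 2 / (4 * (h + 1)) := by
    rw [le_div_iff₀ (by positivity)]
    nlinarith
  have h4 : 0 ≤ lam h ^ 2 := by positivity
  nlinarith

theorem half_lam_le (h : ℕ) : 1 / 2 * lam h ≤ lam (4 * h) := by
  rcases Nat.eq_zero_or_pos h with rfl | hpos
  · simp; norm_num
  · have h1 := lam_sq_mono (show h ≤ 4 * h by omega)
    simp only at h1
    push_cast at h1
    have h2 : (0 : ℝ) < h := by exact_mod_cast hpos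
    have h3 : lam h ^ 2 ≤ (2 * lam (4 * h)) ^ 2 := by
      have : (h : ℝ) * lam h ^ 2 ≤ h * (2 * lam (4 * h)) ^ 2 := by
        calc (h : ℝ) * lam h ^ 2 ≤ 4 * h * lam (4 * h) ^ 2 := h1
          _ = h * (2 * lam (4 * h)) ^ 2 := by ring
      exact le_of_mul_le_mul_left this h2
    have h4 : lam h ≤ 2 * lam (4 * h) :=
      le_of_sq_le_sq h3 (by have := lam_pos (4 * h); positivity)
    linarith

/-- the middle binomial coefficient in terms of `lam`. -/
theorem middle_eq_lam (m : ℕ) : (m.choose (m / 2) : ℝ) = 2 ^ m * lam ((m + 1) / 2) := by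
  rcases Nat.even_or_odd' m with ⟨q, hq | hq⟩
  · have e1 : m / 2 = q := by omega
    have e2 : (m + 1) / 2 = q := by omega
    rw [e1, e2, hq, lam, Nat.centralBinom_eq_two_mul_choose, pow_mul]
    norm_num
    field_simp
  · have e1 : m / 2 = q := by omega
    have e2 : (m + 1) / 2 = q + 1 := by omega
    rw [e1, e2, hq, lam, Nat.centralBinom_eq_two_mul_choose]
    have h1 : (2 * (q + 1)).choose (q + 1) = 2 * (2 * q + 1).choose q := by
      rw [show 2 * (q + 1) = (2 * q + 1) + 1 by ring, Nat.choose_succ_succ, Nat.choose_symm_half]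
      ring
    rw [h1, pow_succ, pow_mul, pow_succ]
    push_cast
    field_simp
    norm_num
    ring

theorem choose_le_lam (m i : ℕ) : (m.choose i : ℝ) ≤ 2 ^ m * lam ((m + 1) / 2) := by
  rw [← middle_eq_lam]
  exact_mod_cast Nat.choose_le_middle i m

end Pool.Agent.Helper14.ZeroSum
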