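import Mathlib

/-!
The function `S m j`: the sum of the `j` largest binomial coefficients `C(m, k)`.
Defined here by recursion.
-/

namespace Pool.Agent.Helper14.ZeroSum

/-- `S m j` is the sum of the `j` largest binomial coefficients of row `m`, defined by the
recursion `S (m+1) j = S m (j+1) + S m (j-1)`. -/
def S : ℕ → ℕ → ℕ
  | 0, 0 => 0
  | 0, (_ + 1) => 1
  | (_ + 1), 0 => 0
  | (m + 1), (j + 1) => S m (j + 2) + S m j

@[simp] theorem S_zero_zero : S 0 0 = 0 := by simp [S]

@[simp] theorem S_zero_succ (j : ℕ) : S 0 (j + 1) = 1 := by simp [S]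

@[simp] theorem S_zero_right (m : ℕ) : S m 0 = 0 := by cases m <;> simp [S]

theorem S_succ_succ (m j : ℕ) : S (m + 1) (j + 1) = S m (j + 2) + S m j := by simp [S]

/-- second differences are nonpositive, and `S m` is monotone. -/
theorem S_mono_concave (m : ℕ) :
    (∀ j, S m j ≤ S m (j + 1)) ∧ (∀ j, S m (j + 2) + S m j ≤ 2 * S m (j + 1)) := by
  induction m with
  | zero =>
    constructor
    · intro j; cases j <;> simp
    · intro j; cases j <;> simp
  | succ m ih =>
    obtain ⟨ih1, ih2⟩ := ih
    constructor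
    · intro j
      cases j with
      | zero => simp
      | succ j =>
        rw [S_succ_succ, S_succ_succ]
        exact Nat.add_le_add (ih1 _) (ih1 _)
    · intro j
      cases j with
      | zero =>
        rw [S_succ_succ, S_zero_right, S_succ_succ, S_zero_right]
        have := ih2 1
        simp only [Nat.zero_add] at this ⊢
        omega
      | succ j =>
        rw [S_succ_succ, S_succ_succ, S_succ_succ]
        have h1 := ih2 (j + 2)
        have h2 := ih2 j
        ring_nf at h1 h2 ⊢
        omega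

theorem S_mono (m : ℕ) : Monotone (S m) := monotone_nat_of_le_succ (S_mono_concave m).1

theorem S_concave (m j : ℕ) : S m (j + 2) + S m j ≤ 2 * S m (j + 1) := (S_mono_concave m).2 j

/-- spreading two points `i ≤ j` apart decreases the sum. -/
theorem S_spread_step (m i j : ℕ) (hij : i ≤ j) :
    S m (j + 2) + S m i ≤ S m (j + 1) + S m (i + 1) := by
  induction j, hij using Nat.le_induction with
  | base =>
    have := S_concave m i
    omega
  | succ j hj ih =>
    have := S_concave m (j + 1)
    ring_nf at this ih ⊢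
    omega

theorem S_spread (m j : ℕ) {s t : ℕ} (hts : t ≤ s) (hsj : s ≤ j) :
    S m (j + s) + S m (j - s) ≤ S m (j + t) + S m (j - t) := by
  induction s, hts using Nat.le_induction with
  | base => rfl
  | succ s hs ih =>
    have h1 := ih (by omega)
    rcases Nat.exists_eq_add_of_le hsj with ⟨i, hi⟩
    have e1 : j - (s + 1) = i := by omega
    have e2 : j - s = i + 1 := by omega
    rw [e1]
    rw [e2] at h1
    rcases Nat.eq_zero_or_pos (j + s) with h0 | h0
    · omega
    · obtain ⟨q, hq⟩ : ∃ q, j + s = q + 1 := ⟨j + s - 1, by omega⟩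
      have e3 : j + (s + 1) = q + 2 := by omega
      have h2 := S_spread_step m i q (by omega)
      rw [e3]
      rw [hq] at h1
      omega

/-- `S (m+2) (j)` expansions for `j ≥ 2`. -/
theorem S_add_two (m j : ℕ) (hj : 2 ≤ j) :
    S (m + 2) j = S m (j + 2) + 2 * S m j + S m (j - 2) := by
  obtain ⟨i, rfl⟩ : ∃ i, j = i + 2 := ⟨j - 2, by omega⟩
  rw [show m + 2 = (m + 1) + 1 from rfl, show i + 2 = (i + 1) + 1 from rfl, S_succ_succ,
    show i + 1 + 2 = (i + 2) + 1 from rfl, S_succ_succ, S_succ_succ,
    show i + 1 + 1 - 2 = i by omega]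
  ring

theorem S_full (m j : ℕ) (h : m + 1 ≤ j) : S m j = 2 ^ m := by
  induction m generalizing j with
  | zero =>
    obtain ⟨i, rfl⟩ : ∃ i, j = i + 1 := ⟨j - 1, by omega⟩
    simp
  | succ m ih =>
    obtain ⟨i, rfl⟩ : ∃ i, j = i + 1 := ⟨j - 1, by omega⟩
    rw [S_succ_succ, ih _ (by omega), ih _ (by omega)]
    ring

theorem S_diag (m : ℕ) : S m m + 1 = 2 ^ m := by
  induction m with
  | zero => simp
  | succ m ih =>
    rw [S_succ_succ, S_full m (m + 2) (by omega)]
    rw [pow_succ]; omega

theorem S_diag' (m : ℕ) : S (m + 1) m + 2 = 2 ^ (m + 1) := by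
  induction m with
  | zero => simp
  | succ m ih =>
    rw [S_succ_succ, S_full (m + 1) (m + 2) (by omega)]
    rw [pow_succ _ (m + 1)]; omega

/-- closed form, integer version -/
theorem S_closed (m : ℕ) : ∀ j : ℕ, (S m j : ℤ) =
    ∑ k ∈ Finset.range (m + 1), (m.choose k : ℤ) * Int.sign ((j : ℤ) + m - 2 * k) := by
  -- the odd extension satisfies the recursion
  have hrec : ∀ (m : ℕ) (z : ℤ),
      ∑ k ∈ Finset.range (m + 1 + 1), ((m + 1).choose k : ℤ) * Int.sign (z + (m + 1 : ℕ) - 2 * k) =
      ∑ k ∈ Finset.range (m + 1), (m.choose k : ℤ) * Int.sign ((z + 1) + m - 2 * k) +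
      ∑ k ∈ Finset.range (m + 1), (m.choose k : ℤ) * Int.sign ((z - 1) + m - 2 * k) := by
    intro m z
    rw [Finset.sum_range_succ' _ (m + 1)]
    have h1 : ∀ k, ((m + 1).choose (k + 1) : ℤ) * Int.sign (z + (m + 1 : ℕ) - 2 * (k + 1 : ℕ)) =
        (m.choose k : ℤ) * Int.sign ((z - 1) + m - 2 * k) +
        (m.choose (k + 1) : ℤ) * Int.sign ((z + 1) + m - 2 * (k + 1 : ℕ)) := by
      intro k
      rw [Nat.choose_succ_succ]
      push_cast
      rw [show z + ((m : ℤ) + 1) - 2 * ((k : ℤ) + 1) = z - 1 + m - 2 * k by ring,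
        show z + 1 + (m : ℤ) - 2 * ((k : ℤ) + 1) = z - 1 + m - 2 * k by ring]
      ring
    rw [Finset.sum_congr rfl (fun k _ => h1 k), Finset.sum_add_distrib]
    have h2 : ∑ k ∈ Finset.range (m + 1),
        (m.choose (k + 1) : ℤ) * Int.sign ((z + 1) + m - 2 * (k + 1 : ℕ)) +
        ((m + 1).choose 0 : ℤ) * Int.sign (z + (m + 1 : ℕ) - 2 * (0 : ℕ)) =
        ∑ k ∈ Finset.range (m + 1), (m.choose k : ℤ) * Int.sign ((z + 1) + m - 2 * k) := by
      rw [Finset.sum_range_succ, Nat.choose_succ_self, Finset.sum_range_succ' _ m]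
      push_cast
      rw [Nat.choose_zero_right, Nat.choose_zero_right]
      rw [show z + ((m : ℤ) + 1) - 0 = z + 1 + m - 0 by ring]
      ring
    rw [← h2]
    ring
  have odd0 : ∀ m : ℕ, ∑ k ∈ Finset.range (m + 1), (m.choose k : ℤ) *
      Int.sign (((0 : ℕ) : ℤ) + m - 2 * k) = 0 := by
    intro m
    have h := Finset.sum_range_reflect
      (fun k => (m.choose k : ℤ) * Int.sign (((0 : ℕ) : ℤ) + m - 2 * k)) (m + 1)
    have h2 : ∑ j ∈ Finset.range (m + 1), (m.choose (m + 1 - 1 - j) : ℤ) *
        Int.sign (((0 : ℕ) : ℤ) + m - 2 * ((m + 1 - 1 - j : ℕ) : ℤ)) =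
        - ∑ k ∈ Finset.range (m + 1), (m.choose k : ℤ) *
          Int.sign (((0 : ℕ) : ℤ) + m - 2 * k) := by
      rw [← Finset.sum_neg_distrib]
      apply Finset.sum_congr rfl
      intro k hk
      have hk' : k ≤ m := by
        have := Finset.mem_range.mp hk
        omega
      rw [show m + 1 - 1 - k = m - k by omega, Nat.choose_symm hk', ← mul_neg, ← Int.sign_neg]
      congr 2
      push_cast [Nat.cast_sub hk']
      ring
    rw [h2] at h
    linarith
  induction m with
  | zero =>
    intro j
    cases j with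
    | zero => simp
    | succ j =>
      rw [Nat.zero_add, Finset.range_one, Finset.sum_singleton, Int.sign_eq_one_of_pos]
      · simp
      · push_cast; omega
  | succ m ih =>
    intro j
    cases j with
    | zero => rw [S_zero_right]; exact (odd0 (m + 1)).symm
    | succ j =>
      rw [hrec, S_succ_succ]
      push_cast
      rw [ih, ih]
      push_cast
      ring_nf

theorem S_one (m : ℕ) : S m 1 = m.choose (m / 2) := by
  have h := S_closed m 1
  have hr := Finset.sum_range_reflect
      (fun k => (m.choose k : ℤ) * Int.sign (((1 : ℕ) : ℤ) + m - 2 * k)) (m + 1)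
  have h2 : ∑ j ∈ Finset.range (m + 1), (m.choose (m + 1 - 1 - j) : ℤ) *
        Int.sign (((1 : ℕ) : ℤ) + m - 2 * ((m + 1 - 1 - j : ℕ) : ℤ)) =
        ∑ k ∈ Finset.range (m + 1), (m.choose k : ℤ) *
          Int.sign (1 - m + 2 * k) := by
    apply Finset.sum_congr rfl
    intro k hk
    have hk' : k ≤ m := by
      have := Finset.mem_range.mp hk
      omega
    rw [show m + 1 - 1 - k = m - k by omega, Nat.choose_symm hk']
    congr 2
    push_cast [Nat.cast_sub hk']
    ring
  rw [h2] at hr
  have h3 : (2 * (S m 1) : ℤ) = ∑ k ∈ Finset.range (m + 1), (m.choose k : ℤ) *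
      (Int.sign (1 + m - 2 * k) + Int.sign (1 - m + 2 * k)) := by
    rw [two_mul]
    conv_lhs => rw [h]
    conv_lhs =>
      congr
      · skip
      · rw [← hr]
    rw [← Finset.sum_add_distrib]
    apply Finset.sum_congr rfl
    intro k _
    push_cast
    ring
  rcases Nat.even_or_odd' m with ⟨q, hq | hq⟩
  · have h4 : ∀ k ∈ Finset.range (m + 1), k ≠ q → (m.choose k : ℤ) *
      (Int.sign (1 + m - 2 * k) + Int.sign (1 - m + 2 * k)) = 0 := by
      intro k _ hkq
      rcases lt_or_gt_of_ne hkq with hlt | hgt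
      · rw [Int.sign_eq_one_of_pos (by omega), Int.sign_eq_neg_one_of_neg (by omega)]
        simp
      · rw [Int.sign_eq_neg_one_of_neg (by omega), Int.sign_eq_one_of_pos (by omega)]
        simp
    rw [Finset.sum_eq_single q h4 (by
      intro hq'; exfalso; apply hq'; rw [Finset.mem_range]; omega)] at h3
    rw [Int.sign_eq_one_of_pos (by omega), Int.sign_eq_one_of_pos (by omega)] at h3
    have : m / 2 = q := by omega
    rw [this]
    have h5 : (2 * (S m 1) : ℤ) = 2 * (m.choose q : ℤ) := by rw [h3]; ring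
    exact_mod_cast (mul_left_cancel₀ (by norm_num) h5)
  · have h4 : ∀ k ∈ Finset.range (m + 1), k ∉ ({q, q + 1} : Finset ℕ) → (m.choose k : ℤ) *
      (Int.sign (1 + m - 2 * k) + Int.sign (1 - m + 2 * k)) = 0 := by
      intro k _ hkq
      simp only [Finset.mem_insert, Finset.mem_singleton, not_or] at hkq
      rcases lt_or_gt_of_ne hkq.1 with hlt | hgt
      · rw [Int.sign_eq_one_of_pos (by omega), Int.sign_eq_neg_one_of_neg (by omega)]
        simp
      · have : q + 1 < k := by omega
        rw [Int.sign_eq_neg_one_of_neg (by omega), Int.sign_eq_one_of_pos (by omega)]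
        simp
    have hsub : ({q, q + 1} : Finset ℕ) ⊆ Finset.range (m + 1) := by
      intro k hk
      simp only [Finset.mem_insert, Finset.mem_singleton] at hk
      rw [Finset.mem_range]; omega
    rw [← Finset.sum_subset hsub (fun k hk1 hk2 => h4 k hk1 hk2),
      Finset.sum_pair (by omega)] at h3
    rw [Int.sign_eq_one_of_pos (by omega), Int.sign_eq_zero_iff_zero.mpr (by omega),
      Int.sign_eq_zero_iff_zero.mpr (by push_cast; omega),
      Int.sign_eq_one_of_pos (by push_cast; omega)] at h3
    have e1 : m / 2 = q := by omega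
    have e2 : m.choose (q + 1) = m.choose q := by
      rw [← Nat.choose_symm (show q ≤ m by omega)]
      congr 1; omega
    rw [e1]
    rw [e2] at h3
    have h5 : (2 * (S m 1) : ℤ) = 2 * (m.choose q : ℤ) := by rw [h3]; ring
    exact_mod_cast (mul_left_cancel₀ (by norm_num) h5)

end Pool.Agent.Helper14.ZeroSum
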