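import Mathlib
import Pool.Agent.Helper14.ZeroSum.SFun
import Pool.Agent.Helper14.ZeroSum.Central

/-!
The grid inequality: for a finite set `Γ` of grid points with weights `C(a,i) C(b,l)`,
`2^(a+b-2) w(Γ) ≤ S (2(a+b)-2) |Γ|`.
-/

namespace Pool.Agent.Helper14.ZeroSum

open Finset

/-- binomial coefficients with integer lower index -/
def zc : ℕ → ℤ → ℕ
  | 0, k => if k = 0 then 1 else 0
  | (n + 1), k => zc n k + zc n (k - 1)

theorem zc_succ (n : ℕ) (k : ℤ) : zc (n + 1) k = zc n k + zc n (k - 1) := by simp [zc]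

theorem zc_neg (n : ℕ) (k : ℤ) (hk : k < 0) : zc n k = 0 := by
  induction n generalizing k with
  | zero => simp [zc, hk.ne]
  | succ n ih => rw [zc_succ, ih k hk, ih (k - 1) (by omega)]

theorem zc_nat (n k : ℕ) : zc n (k : ℤ) = n.choose k := by
  induction n generalizing k with
  | zero =>
    cases k with
    | zero => simp [zc]
    | succ k => simp [zc]; omega
  | succ n ih =>
    cases k with
    | zero => rw [zc_succ, ih, zc_neg n _ (by simp)]; simp
    | succ k =>
      rw [zc_succ, ih, Nat.choose_succ_succ]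
      have : ((k + 1 : ℕ) : ℤ) - 1 = (k : ℕ) := by push_cast; ring
      rw [this, ih]; ring

theorem zc_le_middle (n : ℕ) (k : ℤ) : zc n k ≤ n.choose (n / 2) := by
  rcases lt_or_ge k 0 with h | h
  · rw [zc_neg n k h]; exact Nat.zero_le _
  · obtain ⟨q, rfl⟩ := Int.eq_ofNat_of_zero_le h
    rw [zc_nat]
    exact Nat.choose_le_middle q n

/-- weight of a grid point -/
def gw (a b : ℕ) (p : ℤ × ℤ) : ℕ := zc a p.1 * zc b p.2

theorem gw_swap (a b : ℕ) (p : ℤ × ℤ) : gw a b p.swap = gw b a p := by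
  simp [gw, mul_comm]

/-- the grid inequality as a predicate -/
def GridBound (a b : ℕ) (Γ : Finset (ℤ × ℤ)) : Prop :=
  2 ^ (a + b) * ∑ p ∈ Γ, gw (a + 1) (b + 1) p ≤ S (2 * (a + b) + 2) Γ.card

theorem gridBound_swap {a b : ℕ} {Γ : Finset (ℤ × ℤ)}
    (h : GridBound a b (Γ.map (Equiv.prodComm ℤ ℤ).toEmbedding)) : GridBound b a Γ := by
  unfold GridBound at h ⊢
  rw [Finset.sum_map, Finset.card_map] at h
  rw [add_comm b a]
  refine le_trans (le_of_eq ?_) h
  congr 1
  apply Finset.sum_congr rfl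
  intro p _
  change gw (b + 1) (a + 1) p = gw (a + 1) (b + 1) p.swap
  rw [gw_swap]

theorem gridBound_col {a b : ℕ} (h : ∀ Γ, GridBound a b Γ) (Γ : Finset (ℤ × ℤ))
    (h2 : ∃ p ∈ Γ, ∃ q ∈ Γ, p.1 ≠ q.1) : GridBound a (b + 1) Γ := by
  obtain ⟨p, hp, q, hq, hpq⟩ := h2
  set Γ' : Finset (ℤ × ℤ) := Γ.image (fun x => (x.1, x.2 - 1)) with hΓ'
  have hinj : Function.Injective (fun x : ℤ × ℤ => (x.1, x.2 - 1)) := by
    rintro ⟨x1, x2⟩ ⟨y1, y2⟩ hxy
    simp only [Prod.mk.injEq, sub_left_inj] at hxy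
    rw [hxy.1, hxy.2]
  have hcard' : Γ'.card = Γ.card := Finset.card_image_of_injective _ hinj
  -- each column gives a new point
  have hcol : ∀ p ∈ Γ, ∃ x ∈ Γ' \ Γ, x.1 = p.1 := by
    intro p hp
    obtain ⟨m, hm, hmin⟩ := Finset.exists_min_image (Γ.filter (fun x => x.1 = p.1))
      (fun x => x.2) ⟨p, by simp [hp]⟩
    rw [Finset.mem_filter] at hm
    refine ⟨(m.1, m.2 - 1), ?_, hm.2⟩
    rw [Finset.mem_sdiff]
    refine ⟨Finset.mem_image_of_mem _ hm.1, fun hmem => ?_⟩
    have := hmin (m.1, m.2 - 1) (by rw [Finset.mem_filter]; exact ⟨hmem, hm.2⟩)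
    simp only at this
    omega
  have hnew : 2 ≤ (Γ' \ Γ).card := by
    obtain ⟨x, hx, hx1⟩ := hcol p hp
    obtain ⟨y, hy, hy1⟩ := hcol q hq
    have hxy : x ≠ y := by
      rintro rfl
      exact hpq (hx1.symm.trans hy1)
    rw [← Nat.lt_iff_add_one_le, Finset.one_lt_card]
    exact ⟨x, hx, y, hy, hxy⟩
  have hun : (Γ ∪ Γ').card = Γ.card + (Γ' \ Γ).card := by
    rw [← Finset.union_sdiff_self_eq_union]
    exact Finset.card_union_of_disjoint Finset.disjoint_sdiff
  have huni : (Γ ∪ Γ').card + (Γ ∩ Γ').card = Γ.card + Γ'.card :=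
    Finset.card_union_add_card_inter _ _
  have hsum : ∑ x ∈ Γ, gw (a + 1) (b + 1 + 1) x =
      ∑ x ∈ Γ ∪ Γ', gw (a + 1) (b + 1) x + ∑ x ∈ Γ ∩ Γ', gw (a + 1) (b + 1) x := by
    rw [Finset.sum_union_inter, hΓ', Finset.sum_image (fun x _ y _ hxy => hinj hxy),
      ← Finset.sum_add_distrib]
    apply Finset.sum_congr rfl
    intro x _
    simp only [gw]
    rw [zc_succ (b + 1)]
    ring
  have hU := h (Γ ∪ Γ')
  have hI := h (Γ ∩ Γ')
  unfold GridBound at hU hI ⊢
  have hj : 2 ≤ Γ.card := by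
    have : (Γ' \ Γ).card ≤ Γ'.card := Finset.card_le_card Finset.sdiff_subset
    omega
  set M := 2 * (a + b) + 2 with hM
  set s := (Γ' \ Γ).card with hs
  have hsj : s ≤ Γ.card := by
    have : (Γ' \ Γ).card ≤ Γ'.card := Finset.card_le_card Finset.sdiff_subset
    omega
  have e1 : (Γ ∪ Γ').card = Γ.card + s := hun
  have e2 : (Γ ∩ Γ').card = Γ.card - s := by omega
  rw [e1] at hU
  rw [e2] at hI
  have hs1 := S_spread M Γ.card hnew hsj
  have hs2 := S_spread M Γ.card (show 0 ≤ 2 by omega) hj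
  rw [show 2 * (a + (b + 1)) + 2 = M + 2 by omega, S_add_two M Γ.card hj, hsum,
    show a + (b + 1) = (a + b) + 1 by ring, pow_succ]
  simp only [Nat.add_zero, Nat.sub_zero] at hs2
  calc 2 ^ (a + b) * 2 * (∑ x ∈ Γ ∪ Γ', gw (a + 1) (b + 1) x +
        ∑ x ∈ Γ ∩ Γ', gw (a + 1) (b + 1) x)
      = 2 * (2 ^ (a + b) * ∑ x ∈ Γ ∪ Γ', gw (a + 1) (b + 1) x +
        2 ^ (a + b) * ∑ x ∈ Γ ∩ Γ', gw (a + 1) (b + 1) x) := by ring
    _ ≤ 2 * (S M (Γ.card + s) + S M (Γ.card - s)) := by
        apply Nat.mul_le_mul_left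
        exact Nat.add_le_add hU hI
    _ ≤ _ := by omega

theorem gridBound_one (a b : ℕ) (p : ℤ × ℤ) :
    2 ^ (a + b) * gw (a + 1) (b + 1) p ≤ S (2 * (a + b) + 2) 1 := by
  rw [S_one]
  have h1 : (zc (a + 1) p.1 : ℝ) ≤ 2 ^ (a + 1) * lam ((a + 2) / 2) := by
    rw [← middle_eq_lam]
    exact_mod_cast zc_le_middle (a + 1) p.1
  have h2 : (zc (b + 1) p.2 : ℝ) ≤ 2 ^ (b + 1) * lam ((b + 2) / 2) := by
    rw [← middle_eq_lam]
    exact_mod_cast zc_le_middle (b + 1) p.2
  obtain ⟨α, hα⟩ : ∃ α, (a + 2) / 2 = α + 1 := ⟨(a + 2) / 2 - 1, by omega⟩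
  obtain ⟨β, hβ⟩ : ∃ β, (b + 2) / 2 = β + 1 := ⟨(b + 2) / 2 - 1, by omega⟩
  rw [hα] at h1
  rw [hβ] at h2
  have h3 : lam (α + 1) * lam (β + 1) ≤ lam (a + b + 1) := by
    calc lam (α + 1) * lam (β + 1) ≤ 1 / 2 * lam (α + β + 1) := lam_mul_le α β
      _ ≤ lam (4 * (α + β + 1)) := half_lam_le _
      _ ≤ lam (a + b + 1) := lam_antitone (by omega)
  have h4 : ((2 ^ (a + b) * gw (a + 1) (b + 1) p : ℕ) : ℝ) ≤
      ((2 * (a + b) + 2).choose ((2 * (a + b) + 2) / 2) : ℕ) := by
    rw [middle_eq_lam, show (2 * (a + b) + 2 + 1) / 2 = a + b + 1 by omega]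
    unfold gw
    push_cast
    have hpos : (0 : ℝ) < 2 ^ (a + b) := by positivity
    calc (2 : ℝ) ^ (a + b) * (zc (a + 1) p.1 * zc (b + 1) p.2)
        ≤ 2 ^ (a + b) * ((2 ^ (a + 1) * lam (α + 1)) * (2 ^ (b + 1) * lam (β + 1))) := by
          apply mul_le_mul_of_nonneg_left _ hpos.le
          exact mul_le_mul h1 h2 (by positivity) (by have := lam_pos (α + 1); positivity)
      _ = 2 ^ (2 * (a + b) + 2) * (lam (α + 1) * lam (β + 1)) := by ring
      _ ≤ 2 ^ (2 * (a + b) + 2) * lam (a + b + 1) :=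
          mul_le_mul_of_nonneg_left h3 (by positivity)
  exact_mod_cast h4

theorem gridBound_base (Γ : Finset (ℤ × ℤ)) : GridBound 0 0 Γ := by
  unfold GridBound
  simp only [Nat.zero_add, Nat.mul_zero, pow_zero, one_mul]
  set Box : Finset (ℤ × ℤ) := ({0, 1} : Finset ℤ) ×ˢ ({0, 1} : Finset ℤ) with hBox
  have hz : ∀ k : ℤ, zc 1 k = if k ∈ ({0, 1} : Finset ℤ) then 1 else 0 := by
    intro k
    simp only [zc, Finset.mem_insert, Finset.mem_singleton]
    split_ifs <;> omega
  have hw : ∀ p ∈ Γ, gw 1 1 p = if p ∈ Box then 1 else 0 := by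
    intro p _
    unfold gw
    rw [hz, hz]
    have hmem : p ∈ Box ↔ (p.1 ∈ ({0, 1} : Finset ℤ) ∧ p.2 ∈ ({0, 1} : Finset ℤ)) := by
      rw [hBox, Finset.mem_product]
    by_cases h1 : p.1 ∈ ({0, 1} : Finset ℤ) <;> by_cases h2 : p.2 ∈ ({0, 1} : Finset ℤ)
    · rw [if_pos h1, if_pos h2, if_pos (hmem.mpr ⟨h1, h2⟩)]
    · rw [if_neg h2, if_neg (fun h => h2 (hmem.mp h).2)]; simp
    · rw [if_neg h1, if_neg (fun h => h1 (hmem.mp h).1)]; simp
    · rw [if_neg h1, if_neg (fun h => h1 (hmem.mp h).1)]; simp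
  rw [Finset.sum_congr rfl hw, Finset.sum_boole]
  have hc1 : (Γ.filter (fun p => p ∈ Box)).card ≤ Γ.card := Finset.card_filter_le _ _
  have hc2 : (Γ.filter (fun p => p ∈ Box)).card ≤ 4 := by
    calc (Γ.filter (fun p => p ∈ Box)).card ≤ Box.card := by
          apply Finset.card_le_card
          intro x hx
          exact (Finset.mem_filter.mp hx).2
      _ = 4 := by rw [hBox]; rfl
  have s1 : S 2 1 = 2 := by simp [S]
  have s2 : S 2 2 = 3 := by simp [S]
  have s3 : ∀ j, 3 ≤ j → S 2 j = 4 := fun j hj => by rw [S_full 2 j hj]; norm_num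
  simp only [Nat.cast_id]
  rcases Nat.lt_or_ge Γ.card 3 with h | h
  · interval_cases hc : Γ.card
    · simp at hc1 ⊢
      omega
    · rw [s1]; omega
    · rw [s2]; omega
  · rw [s3 _ h]; exact hc2

theorem grid_bound (n : ℕ) : ∀ a b : ℕ, a + b = n → ∀ Γ, GridBound a b Γ := by
  induction n with
  | zero =>
    intro a b hab Γ
    obtain ⟨rfl, rfl⟩ : a = 0 ∧ b = 0 := by omega
    exact gridBound_base Γ
  | succ n ih =>
    -- the case `b ≥ 1`
    have main : ∀ a b : ℕ, a + b = n → ∀ Γ, GridBound a (b + 1) Γ := by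
      intro a b hab Γ
      rcases Nat.lt_or_ge Γ.card 2 with hj | hj
      · interval_cases hc : Γ.card
        · rw [Finset.card_eq_zero] at hc
          subst hc
          simp [GridBound]
        · rw [Finset.card_eq_one] at hc
          obtain ⟨p, rfl⟩ := hc
          unfold GridBound
          rw [Finset.sum_singleton, Finset.card_singleton]
          exact gridBound_one a (b + 1) p
      · by_cases h2 : ∃ p ∈ Γ, ∃ q ∈ Γ, p.1 ≠ q.1
        · exact gridBound_col (ih a b hab) Γ h2
        · push Not at h2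
          obtain ⟨p, hp, q, hq, hpq⟩ := Finset.one_lt_card.mp (show 1 < Γ.card by omega)
          cases a with
          | succ a =>
            -- two rows
            have := gridBound_col (ih (b + 1) a (by omega))
              (Γ.map (Equiv.prodComm ℤ ℤ).toEmbedding) (by
                refine ⟨p.swap, ?_, q.swap, ?_, ?_⟩
                · exact Finset.mem_map_of_mem (Equiv.prodComm ℤ ℤ).toEmbedding hp
                · exact Finset.mem_map_of_mem (Equiv.prodComm ℤ ℤ).toEmbedding hq
                · intro h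
                  apply hpq
                  exact Prod.ext (h2 p hp q hq) h)
            exact gridBound_swap this
          | zero =>
            -- move `p` to the other column
            by_cases hp1 : p.1 = 0 ∨ p.1 = 1
            · set p' : ℤ × ℤ := (1 - p.1, p.2) with hp'
              have hz : zc 1 (1 - p.1) = zc 1 p.1 := by
                rcases hp1 with h | h <;> rw [h] <;> simp [zc]
              have hp'Γ : p' ∉ Γ.erase p := by
                intro h
                have := h2 p' (Finset.mem_of_mem_erase h) p hp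
                simp only [hp'] at this
                omega
              have hcard : (insert p' (Γ.erase p)).card = Γ.card := by
                rw [Finset.card_insert_of_notMem hp'Γ, Finset.card_erase_of_mem hp]
                omega
              have hsum : ∑ x ∈ insert p' (Γ.erase p), gw (0 + 1) (b + 1 + 1) x =
                  ∑ x ∈ Γ, gw (0 + 1) (b + 1 + 1) x := by
                rw [Finset.sum_insert hp'Γ, ← Finset.add_sum_erase Γ _ hp]
                congr 1
                simp only [gw, hp', Nat.zero_add]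
                rw [hz]
              have hg := gridBound_col (ih 0 b hab) (insert p' (Γ.erase p)) (by
                refine ⟨p', Finset.mem_insert_self _ _, q, Finset.mem_insert_of_mem
                  (Finset.mem_erase.mpr ⟨hpq.symm, hq⟩), ?_⟩
                have := h2 q hq p hp
                simp only [hp']
                omega)
              unfold GridBound at hg ⊢
              rw [hcard, hsum] at hg
              exact hg
            · push Not at hp1
              unfold GridBound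
              have : ∑ x ∈ Γ, gw (0 + 1) (b + 1 + 1) x = 0 := by
                apply Finset.sum_eq_zero
                intro x hx
                have hx1 := h2 x hx p hp
                simp only [gw, zc]
                rw [hx1, if_neg hp1.1, if_neg (by omega)]
                simp
              rw [this]
              simp
    intro a b hab Γ
    cases b with
    | succ b => exact main a b (by omega) Γ
    | zero =>
      obtain ⟨a', rfl⟩ : ∃ a', a = a' + 1 := ⟨a - 1, by omega⟩
      exact gridBound_swap (main 0 a' (by omega) _)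

end Pool.Agent.Helper14.ZeroSum
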