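import Mathlib

/-!
The fractional knapsack inequality.
-/

namespace Pool.Agent.Helper14.ZeroSum

open Finset

theorem knapsack {α : Type*} [DecidableEq α] (G : Finset α) (w t : α → ℝ)
    (hw : ∀ g ∈ G, 0 ≤ w g) (ht0 : ∀ g ∈ G, 0 ≤ t g) (ht1 : ∀ g ∈ G, t g ≤ 1) (j : ℕ)
    (hj : ∑ g ∈ G, t g ≤ j) :
    ∃ Γ ⊆ G, Γ.card ≤ j ∧ ∑ g ∈ G, t g * w g ≤ ∑ g ∈ Γ, w g := by
  by_cases hG : G.card ≤ j
  · refine ⟨G, Finset.Subset.refl _, hG, Finset.sum_le_sum fun g hg => ?_⟩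
    calc t g * w g ≤ 1 * w g := mul_le_mul_of_nonneg_right (ht1 g hg) (hw g hg)
      _ = w g := one_mul _
  push Not at hG
  rcases Nat.eq_zero_or_pos j with rfl | hjpos
  · refine ⟨∅, Finset.empty_subset _, by simp, ?_⟩
    have h0 : ∀ g ∈ G, t g = 0 := by
      have h1 : ∑ g ∈ G, t g = 0 := le_antisymm (by simpa using hj) (Finset.sum_nonneg ht0)
      exact (Finset.sum_eq_zero_iff_of_nonneg ht0).mp h1
    rw [Finset.sum_empty]
    apply le_of_eq
    apply Finset.sum_eq_zero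
    intro g hg
    rw [h0 g hg, zero_mul]
  have hne : (G.powersetCard j).Nonempty := Finset.powersetCard_nonempty.mpr hG.le
  obtain ⟨Γ, hΓ, hmax⟩ := Finset.exists_max_image (G.powersetCard j) (fun Γ => ∑ g ∈ Γ, w g) hne
  rw [Finset.mem_powersetCard] at hΓ
  obtain ⟨hsub, hcard⟩ := hΓ
  have hΓne : Γ.Nonempty := by
    rw [← Finset.card_pos, hcard]; exact hjpos
  obtain ⟨γ, hγ, hmin⟩ := Finset.exists_min_image Γ w hΓne
  have hout : ∀ δ ∈ G \ Γ, w δ ≤ w γ := by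
    intro δ hδ
    rw [Finset.mem_sdiff] at hδ
    have hδ' : δ ∉ Γ.erase γ := fun h => hδ.2 (Finset.mem_of_mem_erase h)
    have := hmax (insert δ (Γ.erase γ)) (by
      rw [Finset.mem_powersetCard]
      constructor
      · intro x hx
        rcases Finset.mem_insert.mp hx with rfl | hx
        · exact hδ.1
        · exact hsub (Finset.mem_of_mem_erase hx)
      · rw [Finset.card_insert_of_notMem hδ', Finset.card_erase_of_mem hγ, hcard]
        omega)
    rw [Finset.sum_insert hδ'] at this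
    have h2 := Finset.add_sum_erase Γ w hγ
    linarith
  refine ⟨Γ, hsub, hcard.le, ?_⟩
  have hsplit : ∀ f : α → ℝ, ∑ g ∈ G, f g = ∑ g ∈ G \ Γ, f g + ∑ g ∈ Γ, f g := by
    intro f
    exact (Finset.sum_sdiff hsub).symm
  rw [hsplit] at hj ⊢
  have hγ0 : 0 ≤ w γ := hw γ (hsub hγ)
  have h1 : ∑ g ∈ G \ Γ, t g * w g ≤ w γ * ∑ g ∈ G \ Γ, t g := by
    rw [Finset.mul_sum]
    apply Finset.sum_le_sum
    intro g hg
    rw [mul_comm]
    exact mul_le_mul_of_nonneg_right (hout g hg) (ht0 g (Finset.mem_sdiff.mp hg).1)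
  have h2 : ∑ g ∈ G \ Γ, t g ≤ ∑ g ∈ Γ, (1 - t g) := by
    rw [Finset.sum_sub_distrib, Finset.sum_const, hcard, nsmul_eq_mul, mul_one]
    linarith
  have h3 : w γ * ∑ g ∈ Γ, (1 - t g) ≤ ∑ g ∈ Γ, (1 - t g) * w g := by
    rw [Finset.mul_sum]
    apply Finset.sum_le_sum
    intro g hg
    rw [mul_comm]
    exact mul_le_mul_of_nonneg_left (hmin g hg) (by linarith [ht1 g (hsub hg)])
  have h4 : ∑ g ∈ Γ, (1 - t g) * w g + ∑ g ∈ Γ, t g * w g = ∑ g ∈ Γ, w g := by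
    rw [← Finset.sum_add_distrib]
    apply Finset.sum_congr rfl
    intro g _
    ring
  have h5 := mul_le_mul_of_nonneg_left h2 hγ0
  linarith

end Pool.Agent.Helper14.ZeroSum
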