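import Mathlib

/-!
A weighted LYM inequality, and the product form used for irreducible zero-sum families.
-/

namespace Pool.Agent.Helper14.ZeroSum

open Finset

/-- Weighted LYM inequality: if the sum of `F` over every chain of subsets of `Q` is at most `M`,
then the sum of `F U / C(|Q|,|U|)` is at most `M`. -/
theorem weighted_lym {ι : Type*} [DecidableEq ι] (F : Finset ι → ℝ) (n : ℕ) :
    ∀ (Q : Finset ι) (M : ℝ), Q.card = n →
    (∀ 𝒞 : Finset (Finset ι), (∀ U ∈ 𝒞, U ⊆ Q) → IsChain (· ⊆ ·) (𝒞 : Set (Finset ι)) →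
      ∑ U ∈ 𝒞, F U ≤ M) →
    ∑ U ∈ Q.powerset, F U / (n.choose U.card : ℝ) ≤ M := by
  induction n with
  | zero =>
    intro Q M hQ h
    rw [Finset.card_eq_zero] at hQ
    subst hQ
    simpa using h {∅} (by simp) (by simp)
  | succ b ih =>
    intro Q M hQ h
    -- the bound for each `Q.erase q`
    have hq : ∀ q ∈ Q, ∑ U ∈ (Q.erase q).powerset, F U / (b.choose U.card : ℝ) ≤ M - F Q := by
      intro q hq
      apply ih
      · rw [Finset.card_erase_of_mem hq, hQ]; rfl
      · intro 𝒞 h𝒞 hchain
        have hQn : Q ∉ 𝒞 := by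
          intro hmem
          have := h𝒞 Q hmem hq
          simp at this
        have := h (insert Q 𝒞) (by
          intro U hU
          rcases Finset.mem_insert.mp hU with rfl | hU
          · exact Finset.Subset.refl _
          · exact (h𝒞 U hU).trans (Finset.erase_subset _ _)) (by
          rw [Finset.coe_insert]
          apply hchain.insert
          intro U hU _
          right
          exact (h𝒞 U hU).trans (Finset.erase_subset _ _))
        rw [Finset.sum_insert hQn] at this
        linarith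
    have hsum : ∑ q ∈ Q, ∑ U ∈ (Q.erase q).powerset, F U / (b.choose U.card : ℝ) ≤
        (b + 1) * (M - F Q) := by
      calc _ ≤ ∑ _q ∈ Q, (M - F Q) := Finset.sum_le_sum hq
        _ = _ := by rw [Finset.sum_const, hQ, nsmul_eq_mul]; push_cast; ring
    have hdc : ∑ q ∈ Q, ∑ U ∈ (Q.erase q).powerset, F U / (b.choose U.card : ℝ) =
        ∑ U ∈ Q.powerset, ∑ _q ∈ Q \ U, F U / (b.choose U.card : ℝ) := by
      apply Finset.sum_comm'
      intro q U
      simp only [Finset.mem_powerset, Finset.mem_sdiff]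
      constructor
      · rintro ⟨hq, hU⟩
        refine ⟨⟨hq, fun hqU => ?_⟩, hU.trans (Finset.erase_subset _ _)⟩
        have := hU hqU
        simp at this
      · rintro ⟨⟨hq, hqU⟩, hU⟩
        refine ⟨hq, fun u hu => Finset.mem_erase.mpr ⟨?_, hU hu⟩⟩
        rintro rfl
        exact hqU hu
    have hterm : ∀ U ∈ Q.powerset, ∑ _q ∈ Q \ U, F U / (b.choose U.card : ℝ) =
        (b + 1) * (F U / ((b + 1).choose U.card : ℝ)) - if U = Q then (b + 1) * F Q else 0 := by
      intro U hU
      rw [Finset.mem_powerset] at hU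
      rw [Finset.sum_const, nsmul_eq_mul, Finset.card_sdiff_of_subset hU, hQ]
      by_cases hUQ : U = Q
      · subst hUQ
        rw [if_pos rfl, hQ]
        simp
      · rw [if_neg hUQ]
        have hlt : U.card < b + 1 := by
          rw [← hQ]
          exact Finset.card_lt_card (Finset.ssubset_iff_subset_ne.mpr ⟨hU, hUQ⟩)
        have h1 := Nat.choose_mul_succ_eq b U.card
        have h2 : (b.choose U.card : ℝ) * (b + 1) =
            ((b + 1).choose U.card : ℝ) * ((b + 1 - U.card : ℕ) : ℝ) := by exact_mod_cast h1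
        have h3 : (b.choose U.card : ℝ) ≠ 0 := by
          have := Nat.choose_pos (show U.card ≤ b by omega)
          positivity
        have h4 : ((b + 1).choose U.card : ℝ) ≠ 0 := by
          have := Nat.choose_pos (show U.card ≤ b + 1 by omega)
          positivity
        field_simp
        linear_combination (-(F U)) * h2
    rw [hdc, Finset.sum_congr rfl hterm, Finset.sum_sub_distrib, ← Finset.mul_sum,
      Finset.sum_ite_eq' Q.powerset Q (fun _ => ((b : ℝ) + 1) * F Q)] at hsum
    rw [if_pos (Finset.mem_powerset_self Q)] at hsum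
    have hb : (0 : ℝ) < b + 1 := by positivity
    have : ((b : ℝ) + 1) * ∑ U ∈ Q.powerset, F U / ((b + 1).choose U.card : ℝ) ≤
        ((b : ℝ) + 1) * M := by linarith
    exact le_of_mul_le_mul_left this hb

/-- Product LYM inequality: `A` is a relation between subsets of `P` and subsets of `Q` such that
for comparable `V, V'` and comparable `U, U'` at most one of the pairs is in `A`. -/
theorem double_lym {ι : Type*} [DecidableEq ι] (P Q : Finset ι)
    (A : Finset ι → Finset ι → Prop) [∀ V U, Decidable (A V U)]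
    (hA : ∀ V V' U U', V ⊆ P → V' ⊆ P → U ⊆ Q → U' ⊆ Q → A V U → A V' U' →
      (V ⊆ V' ∨ V' ⊆ V) → (U ⊆ U' ∨ U' ⊆ U) → V = V' ∧ U = U') :
    ∑ V ∈ P.powerset, ∑ U ∈ Q.powerset, (if A V U then (1 : ℝ) else 0) /
      ((P.card.choose V.card : ℝ) * (Q.card.choose U.card : ℝ)) ≤ 1 := by
  -- for chains in Q
  have h1 : ∀ 𝒞 : Finset (Finset ι), (∀ U ∈ 𝒞, U ⊆ Q) → IsChain (· ⊆ ·) (𝒞 : Set (Finset ι)) →
      ∑ U ∈ 𝒞, (∑ V ∈ P.powerset, (if A V U then (1 : ℝ) else 0) / (P.card.choose V.card : ℝ))
        ≤ 1 := by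
    intro 𝒞 h𝒞 hchain
    rw [Finset.sum_comm]
    have := weighted_lym (fun V => ∑ U ∈ 𝒞, (if A V U then (1 : ℝ) else 0)) P.card P 1 rfl (by
      intro 𝒟 h𝒟 hchain'
      rw [← Finset.sum_product', Finset.sum_boole]
      have : ((𝒟 ×ˢ 𝒞).filter (fun x => A x.1 x.2)).card ≤ 1 := by
        rw [Finset.card_le_one]
        rintro ⟨V, U⟩ hx ⟨V', U'⟩ hy
        simp only [Finset.mem_filter, Finset.mem_product] at hx hy
        obtain ⟨⟨hV, hU⟩, hVU⟩ := hx
        obtain ⟨⟨hV', hU'⟩, hVU'⟩ := hy
        have c1 : V ⊆ V' ∨ V' ⊆ V := by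
          by_cases hne : V = V'
          · left; rw [hne]
          · exact hchain' hV hV' hne
        have c2 : U ⊆ U' ∨ U' ⊆ U := by
          by_cases hne : U = U'
          · left; rw [hne]
          · exact hchain hU hU' hne
        have := hA V V' U U' (h𝒟 V hV) (h𝒟 V' hV') (h𝒞 U hU) (h𝒞 U' hU') hVU hVU' c1 c2
        rw [this.1, this.2]
      exact_mod_cast this)
    simpa only [Finset.sum_div] using this
  have h2 := weighted_lym
    (fun U => ∑ V ∈ P.powerset, (if A V U then (1 : ℝ) else 0) / (P.card.choose V.card : ℝ))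
    Q.card Q 1 rfl h1
  rw [Finset.sum_comm]
  refine le_trans (le_of_eq ?_) h2
  apply Finset.sum_congr rfl
  intro U _
  rw [Finset.sum_div]
  apply Finset.sum_congr rfl
  intro V _
  rw [div_div]

end Pool.Agent.Helper14.ZeroSum
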