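import Mathlib
import Pool.Agent.Helper14.ZeroSum.SFun
import Pool.Agent.Helper14.ZeroSum.Central
import Pool.Agent.Helper14.ZeroSum.Lym
import Pool.Agent.Helper14.ZeroSum.Knapsack
import Pool.Agent.Helper14.ZeroSum.Grid

/-!
Subset sums of an irreducible zero-sum family.
-/

namespace Pool.Agent.Helper14.ZeroSum

open Finset

variable {ι : Type*} [DecidableEq ι]

/-- number of subsets of `I` whose `y`-sum lies in `Λ` -/
noncomputable def cnt (y : ι → ℝ) (I : Finset ι) (Λ : Finset ℝ) : ℕ :=
  (I.powerset.filter (fun T => ∑ i ∈ T, y i ∈ Λ)).card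

theorem sum_powerset_union {M : Type*} [AddCommMonoid M] (P Q : Finset ι) (h : Disjoint P Q)
    (g : Finset ι → M) :
    ∑ T ∈ (P ∪ Q).powerset, g T = ∑ V ∈ P.powerset, ∑ U ∈ Q.powerset, g (V ∪ U) := by
  induction Q using Finset.induction_on generalizing g with
  | empty => simp
  | insert e Q he ih =>
    have hPQ : Disjoint P Q := Finset.disjoint_of_subset_right (Finset.subset_insert _ _) h
    have heP : e ∉ P := fun hmem => (Finset.disjoint_left.mp h) hmem (Finset.mem_insert_self _ _)
    have hePQ : e ∉ P ∪ Q := by simp [heP, he]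
    rw [Finset.union_insert, Finset.sum_powerset_insert hePQ, ih hPQ g,
      ih hPQ (fun T => g (insert e T)), ← Finset.sum_add_distrib]
    apply Finset.sum_congr rfl
    intro V _
    rw [Finset.sum_powerset_insert he]
    congr 1
    apply Finset.sum_congr rfl
    intro U _
    rw [Finset.union_insert]

theorem cnt_union (y : ι → ℝ) (P Q : Finset ι) (h : Disjoint P Q) (Λ : Finset ℝ) :
    cnt y (P ∪ Q) Λ = ∑ V ∈ P.powerset, ∑ U ∈ Q.powerset,
      (if ∑ i ∈ V, y i + ∑ i ∈ U, y i ∈ Λ then 1 else 0) := by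
  unfold cnt
  rw [Finset.card_filter, sum_powerset_union P Q h]
  apply Finset.sum_congr rfl
  intro V hV
  apply Finset.sum_congr rfl
  intro U hU
  rw [Finset.mem_powerset] at hV hU
  rw [Finset.sum_union (Finset.disjoint_of_subset_left hV (Finset.disjoint_of_subset_right hU h))]

/-- data of an irreducible zero-sum family with positive part `P` and negative part `Q`. -/
structure Irred (y : ι → ℝ) (P Q : Finset ι) : Prop where
  disj : Disjoint P Q
  pos : ∀ i ∈ P, 0 < y i
  neg : ∀ i ∈ Q, y i < 0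
  irr : ∀ T ⊆ P ∪ Q, ∑ i ∈ T, y i = 0 → T = ∅ ∨ T = P ∪ Q

theorem Irred.lym {y : ι → ℝ} {P Q : Finset ι} (h : Irred y P Q) (v : ℝ) (hv : v ≠ 0) :
    ∑ V ∈ P.powerset, ∑ U ∈ Q.powerset,
      (if ∑ i ∈ V, y i + ∑ i ∈ U, y i = v then (1 : ℝ) else 0) /
      ((P.card.choose V.card : ℝ) * (Q.card.choose U.card : ℝ)) ≤ 1 := by
  classical
  -- the key one-sided statement
  have key : ∀ V V' U U', V ⊆ P → V' ⊆ P → U ⊆ Q → U' ⊆ Q →
      ∑ i ∈ V, y i + ∑ i ∈ U, y i = v → ∑ i ∈ V', y i + ∑ i ∈ U', y i = v →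
      V ⊆ V' → (U ⊆ U' ∨ U' ⊆ U) → V = V' ∧ U = U' := by
    intro V V' U U' hV hV' hU hU' e1 e2 hVV' hUU'
    have d1 : ∑ i ∈ V' \ V, y i + ∑ i ∈ V, y i = ∑ i ∈ V', y i := Finset.sum_sdiff hVV'
    have p1 : V' \ V ⊆ P := Finset.sdiff_subset.trans hV'
    rcases hUU' with hUU' | hUU'
    · have d2 : ∑ i ∈ U' \ U, y i + ∑ i ∈ U, y i = ∑ i ∈ U', y i := Finset.sum_sdiff hUU'
      have p2 : U' \ U ⊆ Q := Finset.sdiff_subset.trans hU'
      have hdis : Disjoint (V' \ V) (U' \ U) :=
        Finset.disjoint_of_subset_left p1 (Finset.disjoint_of_subset_right p2 h.disj)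
      have hsum : ∑ i ∈ (V' \ V) ∪ (U' \ U), y i = 0 := by
        rw [Finset.sum_union hdis]; linarith
      rcases h.irr _ (Finset.union_subset_union p1 p2) hsum with h0 | h0
      · rw [Finset.union_eq_empty] at h0
        exact ⟨Finset.Subset.antisymm hVV' (Finset.sdiff_eq_empty_iff_subset.mp h0.1),
          Finset.Subset.antisymm hUU' (Finset.sdiff_eq_empty_iff_subset.mp h0.2)⟩
      · exfalso
        have hV0 : V = ∅ := by
          rw [Finset.eq_empty_iff_forall_notMem]
          intro x hx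
          have hxP : x ∈ P := hV hx
          have : x ∈ (V' \ V) ∪ (U' \ U) := by rw [h0]; exact Finset.mem_union_left _ hxP
          rcases Finset.mem_union.mp this with hx1 | hx1
          · exact (Finset.mem_sdiff.mp hx1).2 hx
          · exact (Finset.disjoint_left.mp h.disj) hxP (p2 hx1)
        have hU0 : U = ∅ := by
          rw [Finset.eq_empty_iff_forall_notMem]
          intro x hx
          have hxQ : x ∈ Q := hU hx
          have : x ∈ (V' \ V) ∪ (U' \ U) := by rw [h0]; exact Finset.mem_union_right _ hxQ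
          rcases Finset.mem_union.mp this with hx1 | hx1
          · exact (Finset.disjoint_left.mp h.disj) (p1 hx1) hxQ
          · exact (Finset.mem_sdiff.mp hx1).2 hx
        rw [hV0, hU0] at e1
        simp at e1
        exact hv e1.symm
    · have d2 : ∑ i ∈ U \ U', y i + ∑ i ∈ U', y i = ∑ i ∈ U, y i := Finset.sum_sdiff hUU'
      have p2 : U \ U' ⊆ Q := Finset.sdiff_subset.trans hU
      have n1 : 0 ≤ ∑ i ∈ V' \ V, y i := Finset.sum_nonneg fun i hi => (h.pos i (p1 hi)).le
      have n2 : ∑ i ∈ U \ U', y i ≤ 0 := Finset.sum_nonpos fun i hi => (h.neg i (p2 hi)).le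
      have z1 : ∑ i ∈ V' \ V, y i = 0 := by linarith
      have z2 : ∑ i ∈ U \ U', y i = 0 := by linarith
      constructor
      · apply Finset.Subset.antisymm hVV'
        rw [← Finset.sdiff_eq_empty_iff_subset, Finset.eq_empty_iff_forall_notMem]
        intro x hx
        have := (Finset.sum_eq_zero_iff_of_nonneg (fun i hi => (h.pos i (p1 hi)).le)).mp z1 x hx
        have := h.pos x (p1 hx)
        linarith
      · refine (Finset.Subset.antisymm hUU' ?_).symm
        rw [← Finset.sdiff_eq_empty_iff_subset, Finset.eq_empty_iff_forall_notMem]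
        intro x hx
        have := (Finset.sum_eq_zero_iff_of_nonpos (fun i hi => (h.neg i (p2 hi)).le)).mp z2 x hx
        have := h.neg x (p2 hx)
        linarith
  refine double_lym P Q (fun V U => ∑ i ∈ V, y i + ∑ i ∈ U, y i = v) ?_
  intro V V' U U' hV hV' hU hU' e1 e2 hVV' hUU'
  rcases hVV' with hVV' | hVV'
  · exact key V V' U U' hV hV' hU hU' e1 e2 hVV' hUU'
  · have := key V' V U' U hV' hV hU' hU e2 e1 hVV' hUU'.symm
    exact ⟨this.1.symm, this.2.symm⟩

theorem Irred.lym_multi {y : ι → ℝ} {P Q : Finset ι} (h : Irred y P Q) (Λ : Finset ℝ)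
    (hΛ : (0 : ℝ) ∉ Λ) :
    ∑ V ∈ P.powerset, ∑ U ∈ Q.powerset,
      (if ∑ i ∈ V, y i + ∑ i ∈ U, y i ∈ Λ then (1 : ℝ) else 0) /
      ((P.card.choose V.card : ℝ) * (Q.card.choose U.card : ℝ)) ≤ Λ.card := by
  have h1 : ∀ z : ℝ, (if z ∈ Λ then (1 : ℝ) else 0) = ∑ v ∈ Λ, (if z = v then (1 : ℝ) else 0) := by
    intro z
    rw [Finset.sum_ite_eq]
  calc _ = ∑ v ∈ Λ, ∑ V ∈ P.powerset, ∑ U ∈ Q.powerset,
      (if ∑ i ∈ V, y i + ∑ i ∈ U, y i = v then (1 : ℝ) else 0) /
      ((P.card.choose V.card : ℝ) * (Q.card.choose U.card : ℝ)) := by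
        rw [Finset.sum_comm' (s := Λ) (t := fun _ => P.powerset) (s' := fun _ => Λ)
          (t' := P.powerset) (by simp [and_comm])]
        apply Finset.sum_congr rfl
        intro V _
        rw [Finset.sum_comm' (s := Λ) (t := fun _ => Q.powerset) (s' := fun _ => Λ)
          (t' := Q.powerset) (by simp [and_comm])]
        apply Finset.sum_congr rfl
        intro U _
        rw [h1, Finset.sum_div]
    _ ≤ ∑ v ∈ Λ, (1 : ℝ) := by
        apply Finset.sum_le_sum
        intro v hv
        apply h.lym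
        rintro rfl
        exact hΛ hv
    _ = _ := by simp

/-- the grid of all points except the corners `(0,0)` and `(a,b)` -/
def grid (a b : ℕ) : Finset (ℕ × ℕ) :=
  (Finset.range (a + 1) ×ˢ Finset.range (b + 1)) \ {(0, 0), (a, b)}

/-- Structure theorem: there is a small set of grid points whose weight bounds the count. -/
theorem Irred.exists_grid {y : ι → ℝ} {P Q : Finset ι} (h : Irred y P Q)
    (hsum : ∑ i ∈ P ∪ Q, y i = 0) (Λ : Finset ℝ) (hΛ : (0 : ℝ) ∉ Λ) :
    ∃ Γ ⊆ grid P.card Q.card, Γ.card ≤ Λ.card ∧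
      cnt y (P ∪ Q) Λ ≤ ∑ p ∈ Γ, P.card.choose p.1 * Q.card.choose p.2 := by
  classical
  set a := P.card with ha
  set b := Q.card with hb
  -- the number of pairs with given cardinalities
  set N : ℕ × ℕ → ℕ := fun p => ∑ V ∈ P.powersetCard p.1, ∑ U ∈ Q.powersetCard p.2,
      (if ∑ i ∈ V, y i + ∑ i ∈ U, y i ∈ Λ then 1 else 0) with hN
  have hNle : ∀ p, N p ≤ a.choose p.1 * b.choose p.2 := by
    intro p
    calc N p ≤ ∑ V ∈ P.powersetCard p.1, ∑ U ∈ Q.powersetCard p.2, 1 := by
          apply Finset.sum_le_sum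
          intro V _
          apply Finset.sum_le_sum
          intro U _
          split_ifs <;> omega
      _ = _ := by simp [Finset.card_powersetCard, ha, hb]
  have hregroup : ∀ g : Finset ι → Finset ι → ℝ,
      ∑ V ∈ P.powerset, ∑ U ∈ Q.powerset, g V U =
      ∑ p ∈ Finset.range (a + 1) ×ˢ Finset.range (b + 1),
        ∑ V ∈ P.powersetCard p.1, ∑ U ∈ Q.powersetCard p.2, g V U := by
    intro g
    rw [Finset.sum_product, Finset.sum_powerset]
    apply Finset.sum_congr rfl
    intro i _
    symm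
    dsimp only
    rw [Finset.sum_comm (s := Finset.range (b + 1))]
    apply Finset.sum_congr rfl
    intro V _
    rw [Finset.sum_powerset]
  have h0 : N (0, 0) = 0 := by
    simp [hN, hΛ]
  have h1 : N (a, b) = 0 := by
    have : ∑ i ∈ P, y i + ∑ i ∈ Q, y i = 0 := by rw [← Finset.sum_union h.disj]; exact hsum
    simp only [hN, ha, hb, Finset.powersetCard_self, Finset.sum_singleton]
    rw [this, if_neg hΛ]
  have hreduce : ∀ f : ℕ × ℕ → ℝ, f (0, 0) = 0 → f (a, b) = 0 →
      ∑ p ∈ Finset.range (a + 1) ×ˢ Finset.range (b + 1), f p = ∑ p ∈ grid a b, f p := by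
    intro f f0 f1
    symm
    apply Finset.sum_subset Finset.sdiff_subset
    intro p _ hp2
    rw [Finset.mem_sdiff, not_and_not_right] at hp2
    have := hp2 (by assumption)
    simp only [Finset.mem_insert, Finset.mem_singleton] at this
    rcases this with rfl | rfl
    · exact f0
    · exact f1
  have hmem : ∀ p ∈ grid a b, p.1 ≤ a ∧ p.2 ≤ b := by
    intro p hp
    unfold grid at hp
    rw [Finset.mem_sdiff, Finset.mem_product, Finset.mem_range, Finset.mem_range] at hp
    omega
  have hcnt : (cnt y (P ∪ Q) Λ : ℝ) = ∑ p ∈ grid a b, (N p : ℝ) := by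
    rw [cnt_union y P Q h.disj, ← hreduce (fun p => (N p : ℝ)) (by simp [h0]) (by simp [h1])]
    push_cast
    rw [hregroup]
    apply Finset.sum_congr rfl
    intro p _
    simp only [hN]
    push_cast
    rfl
  have hlym := h.lym_multi Λ hΛ
  rw [hregroup] at hlym
  have hlym2 : ∑ p ∈ grid a b, (N p : ℝ) / ((a.choose p.1 : ℝ) * (b.choose p.2 : ℝ)) ≤ Λ.card := by
    rw [← hreduce (fun p => (N p : ℝ) / ((a.choose p.1 : ℝ) * (b.choose p.2 : ℝ)))
      (by simp [h0]) (by simp [h1])]
    refine le_trans (le_of_eq ?_) hlym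
    apply Finset.sum_congr rfl
    intro p _
    simp only [hN]
    push_cast
    rw [Finset.sum_div]
    apply Finset.sum_congr rfl
    intro V hV
    rw [Finset.sum_div]
    apply Finset.sum_congr rfl
    intro U hU
    rw [(Finset.mem_powersetCard.mp hV).2, (Finset.mem_powersetCard.mp hU).2]
  obtain ⟨Γ, hΓ, hcard, hle⟩ := knapsack (grid a b)
    (fun p => (a.choose p.1 : ℝ) * (b.choose p.2 : ℝ))
    (fun p => (N p : ℝ) / ((a.choose p.1 : ℝ) * (b.choose p.2 : ℝ)))
    (fun p _ => by positivity) (fun p _ => by positivity)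
    (fun p hp => by
      have h1 := Nat.choose_pos (hmem p hp).1
      have h2 := Nat.choose_pos (hmem p hp).2
      rw [div_le_one (by positivity)]
      exact_mod_cast hNle p) Λ.card hlym2
  refine ⟨Γ, hΓ, hcard, ?_⟩
  have hle2 : (cnt y (P ∪ Q) Λ : ℝ) ≤ ∑ p ∈ Γ, (a.choose p.1 : ℝ) * (b.choose p.2 : ℝ) := by
    rw [hcnt]
    refine le_trans (le_of_eq ?_) hle
    apply Finset.sum_congr rfl
    intro p hp
    have h1 := Nat.choose_pos (hmem p hp).1
    have h2 := Nat.choose_pos (hmem p hp).2
    field_simp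
  exact_mod_cast hle2

theorem grid_weight_bound (α β : ℕ) (Γ : Finset (ℕ × ℕ)) :
    2 ^ (α + β) * ∑ p ∈ Γ, (α + 1).choose p.1 * (β + 1).choose p.2 ≤
      S (2 * (α + β) + 2) Γ.card := by
  have h := grid_bound (α + β) α β rfl
    (Γ.map ⟨fun p : ℕ × ℕ => ((p.1 : ℤ), (p.2 : ℤ)), fun p q hpq => by
      simp only [Prod.mk.injEq, Nat.cast_inj] at hpq
      exact Prod.ext hpq.1 hpq.2⟩)
  unfold GridBound at h
  rw [Finset.sum_map, Finset.card_map] at h
  refine le_trans (le_of_eq ?_) h
  congr 1
  apply Finset.sum_congr rfl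
  intro p _
  change _ = zc (α + 1) ((p.1 : ℕ) : ℤ) * zc (β + 1) ((p.2 : ℕ) : ℤ)
  rw [zc_nat, zc_nat]

/-- The main bound for irreducible zero-sum families. -/
theorem Irred.bound {y : ι → ℝ} {P Q : Finset ι} (h : Irred y P Q)
    (hsum : ∑ i ∈ P ∪ Q, y i = 0) (α β : ℕ) (hα : P.card = α + 1) (hβ : Q.card = β + 1)
    (Λ : Finset ℝ) :
    2 ^ (α + β) * cnt y (P ∪ Q) Λ ≤ S (2 * (α + β) + 2) Λ.card := by
  classical
  by_cases hΛ : (0 : ℝ) ∈ Λ
  · -- split off the value zero
    have hne : (P ∪ Q) ≠ ∅ := by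
      intro h0
      rw [Finset.union_eq_empty] at h0
      rw [h0.1] at hα
      simp at hα
    have hcnt : cnt y (P ∪ Q) Λ = 2 + cnt y (P ∪ Q) (Λ.erase 0) := by
      unfold cnt
      have hpair : (2 : ℕ) = ({∅, P ∪ Q} : Finset (Finset ι)).card := by
        rw [Finset.card_pair hne.symm]
      rw [hpair, ← Finset.card_union_of_disjoint]
      · congr 1
        ext T
        simp only [Finset.mem_filter, Finset.mem_powerset, Finset.mem_union, Finset.mem_insert,
          Finset.mem_singleton, Finset.mem_erase]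
        constructor
        · rintro ⟨hT, hTΛ⟩
          by_cases hz : ∑ i ∈ T, y i = 0
          · left; exact h.irr T hT hz
          · right; exact ⟨hT, hz, hTΛ⟩
        · rintro ((rfl | rfl) | ⟨hT, _, hTΛ⟩)
          · simp [hΛ]
          · rw [hsum]; exact ⟨Finset.Subset.refl _, hΛ⟩
          · exact ⟨hT, hTΛ⟩
      · rw [Finset.disjoint_left]
        intro T hT hT2
        simp only [Finset.mem_insert, Finset.mem_singleton] at hT
        simp only [Finset.mem_filter, Finset.mem_erase] at hT2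
        rcases hT with rfl | rfl
        · exact hT2.2.1 (by simp)
        · exact hT2.2.1 hsum
    obtain ⟨Γ, hΓ, hcard, hle⟩ := h.exists_grid hsum (Λ.erase 0) (by simp)
    rw [hα, hβ] at hΓ hle
    rw [Finset.card_erase_of_mem hΛ] at hcard
    have hΛpos : 1 ≤ Λ.card := Finset.card_pos.mpr ⟨0, hΛ⟩
    rw [hcnt]
    by_cases hx : ∃ x ∈ grid (α + 1) (β + 1) \ Γ,
        2 ≤ (α + 1).choose x.1 * (β + 1).choose x.2
    · obtain ⟨x, hx, hx2⟩ := hx
      rw [Finset.mem_sdiff] at hx
      have hb := grid_weight_bound α β (insert x Γ)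
      rw [Finset.sum_insert hx.2, Finset.card_insert_of_notMem hx.2] at hb
      calc 2 ^ (α + β) * (2 + cnt y (P ∪ Q) (Λ.erase 0))
          ≤ 2 ^ (α + β) * ((α + 1).choose x.1 * (β + 1).choose x.2 +
            ∑ p ∈ Γ, (α + 1).choose p.1 * (β + 1).choose p.2) :=
            Nat.mul_le_mul_left _ (Nat.add_le_add hx2 hle)
        _ ≤ S (2 * (α + β) + 2) (Γ.card + 1) := hb
        _ ≤ S (2 * (α + β) + 2) Λ.card := S_mono _ (by omega)
    · push Not at hx
      -- the complement consists of corners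
      set X := grid (α + 1) (β + 1) \ Γ with hX
      have hXsub : X ⊆ {((0 : ℕ), β + 1), (α + 1, (0 : ℕ))} := by
        intro x hxX
        have hw := hx x hxX
        rw [hX, Finset.mem_sdiff] at hxX
        have hxg := hxX.1
        unfold grid at hxg
        rw [Finset.mem_sdiff, Finset.mem_product, Finset.mem_range, Finset.mem_range] at hxg
        obtain ⟨⟨hx1, hx2⟩, hx3⟩ := hxg
        have p1 := Nat.choose_pos (show x.1 ≤ α + 1 by omega)
        have p2 := Nat.choose_pos (show x.2 ≤ β + 1 by omega)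
        have q1 : (α + 1).choose x.1 = 1 := by nlinarith
        have q2 : (β + 1).choose x.2 = 1 := by nlinarith
        rw [Nat.choose_eq_one_iff] at q1 q2
        obtain ⟨x1, x2⟩ := x
        simp only [Finset.mem_insert, Finset.mem_singleton, Prod.mk.injEq] at hx3 q1 q2 ⊢
        omega
      have hXcard : X.card ≤ 2 := by
        calc X.card ≤ ({((0 : ℕ), β + 1), (α + 1, (0 : ℕ))} : Finset (ℕ × ℕ)).card :=
              Finset.card_le_card hXsub
          _ ≤ 2 := Finset.card_le_two
      have hXw : ∑ x ∈ X, (α + 1).choose x.1 * (β + 1).choose x.2 = X.card := by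
        rw [Finset.card_eq_sum_ones]
        apply Finset.sum_congr rfl
        intro x hxX
        have := hXsub hxX
        simp only [Finset.mem_insert, Finset.mem_singleton] at this
        rcases this with rfl | rfl <;> simp
      -- total weight
      have hcorner : ({(0, 0), (α + 1, β + 1)} : Finset (ℕ × ℕ)) ⊆
          Finset.range (α + 1 + 1) ×ˢ Finset.range (β + 1 + 1) := by
        intro x hx
        simp only [Finset.mem_insert, Finset.mem_singleton] at hx
        rcases hx with rfl | rfl <;> simp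
      have hcne : ((0 : ℕ), (0 : ℕ)) ≠ (α + 1, β + 1) := by simp
      have htot : ∑ x ∈ Finset.range (α + 1 + 1) ×ˢ Finset.range (β + 1 + 1),
          (α + 1).choose x.1 * (β + 1).choose x.2 = 2 ^ (α + 1) * 2 ^ (β + 1) := by
        rw [Finset.sum_product, ← Nat.sum_range_choose (α + 1), ← Nat.sum_range_choose (β + 1),
          Finset.sum_mul_sum]
      have hgw : ∑ x ∈ grid (α + 1) (β + 1), (α + 1).choose x.1 * (β + 1).choose x.2 + 2 =
          2 ^ (α + 1) * 2 ^ (β + 1) := by
        rw [← htot, ← Finset.sum_sdiff hcorner]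
        unfold grid
        congr 1
        rw [Finset.sum_pair hcne]
        simp
      have hgc : (grid (α + 1) (β + 1)).card + 2 = (α + 2) * (β + 2) := by
        unfold grid
        have := Finset.card_sdiff_add_card_eq_card hcorner
        rw [Finset.card_pair hcne] at this
        rw [this, Finset.card_product, Finset.card_range, Finset.card_range]
      have hsplitw : ∑ x ∈ X, (α + 1).choose x.1 * (β + 1).choose x.2 +
          ∑ x ∈ Γ, (α + 1).choose x.1 * (β + 1).choose x.2 =
          ∑ x ∈ grid (α + 1) (β + 1), (α + 1).choose x.1 * (β + 1).choose x.2 :=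
        Finset.sum_sdiff hΓ
      have hsplitc : X.card + Γ.card = (grid (α + 1) (β + 1)).card :=
        Finset.card_sdiff_add_card_eq_card hΓ
      rw [hXw] at hsplitw
      have hj : 2 * (α + β) + 3 ≤ Λ.card + X.card := by
        have : 2 * (α + β) + 4 ≤ (α + 2) * (β + 2) := by nlinarith
        omega
      have hSbig : S (2 * (α + β) + 2) Λ.card + X.card ≥ 2 ^ (2 * (α + β) + 2) := by
        interval_cases hXc : X.card
        · rw [S_full _ _ (by omega)]; omega
        · have h1 := S_diag (2 * (α + β) + 2)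
          have h2 := S_mono (2 * (α + β) + 2) (show 2 * (α + β) + 2 ≤ Λ.card by omega)
          omega
        · have h1 : S (2 * (α + β) + 2) (2 * (α + β) + 1) + 2 = 2 ^ (2 * (α + β) + 2) :=
            S_diag' (2 * (α + β) + 1)
          have h2 := S_mono (2 * (α + β) + 2) (show 2 * (α + β) + 1 ≤ Λ.card by omega)
          omega
      have hpow : 2 ^ (2 * (α + β) + 2) = 2 ^ (α + β) * (2 ^ (α + 1) * 2 ^ (β + 1)) := by ring
      have hone : 1 ≤ 2 ^ (α + β) := Nat.one_le_two_pow
      have hfin : 2 ^ (α + β) * (2 + cnt y (P ∪ Q) (Λ.erase 0)) + 2 ^ (α + β) * X.card ≤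
          2 ^ (2 * (α + β) + 2) := by
        rw [hpow, ← hgw, ← hsplitw, ← Nat.mul_add]
        apply Nat.mul_le_mul_left
        omega
      have : X.card ≤ 2 ^ (α + β) * X.card := Nat.le_mul_of_pos_left _ hone
      omega
  · obtain ⟨Γ, hΓ, hcard, hle⟩ := h.exists_grid hsum Λ hΛ
    rw [hα, hβ] at hle
    calc 2 ^ (α + β) * cnt y (P ∪ Q) Λ
        ≤ 2 ^ (α + β) * ∑ p ∈ Γ, (α + 1).choose p.1 * (β + 1).choose p.2 :=
          Nat.mul_le_mul_left _ hle
      _ ≤ S (2 * (α + β) + 2) Γ.card := grid_weight_bound α β Γ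
      _ ≤ S (2 * (α + β) + 2) Λ.card := S_mono _ hcard

/-- single value bound -/
theorem Irred.single {y : ι → ℝ} {P Q : Finset ι} (h : Irred y P Q)
    (hsum : ∑ i ∈ P ∪ Q, y i = 0) (hP : P.Nonempty) (hQ : Q.Nonempty) (h3 : 3 ≤ P.card + Q.card)
    (v : ℝ) :
    cnt y (P ∪ Q) {v} ≤ P.card.choose (P.card / 2) * Q.card.choose (Q.card / 2) := by
  classical
  by_cases hv : v = 0
  · subst hv
    have h1 : cnt y (P ∪ Q) {0} ≤ 2 := by
      unfold cnt
      calc _ ≤ ({∅, P ∪ Q} : Finset (Finset ι)).card := by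
            apply Finset.card_le_card
            intro T hT
            simp only [Finset.mem_filter, Finset.mem_powerset, Finset.mem_singleton] at hT
            have := h.irr T hT.1 hT.2
            simpa using this
        _ ≤ 2 := Finset.card_le_two
    have hP1 : 1 ≤ P.card := Finset.card_pos.mpr hP
    have hQ1 : 1 ≤ Q.card := Finset.card_pos.mpr hQ
    have hmid : ∀ m : ℕ, 1 ≤ m.choose (m / 2) := fun m => Nat.choose_pos (by omega)
    have hmid2 : ∀ m : ℕ, 2 ≤ m → 2 ≤ m.choose (m / 2) := by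
      intro m hm
      calc 2 ≤ m := hm
        _ = m.choose 1 := (Nat.choose_one_right m).symm
        _ ≤ _ := Nat.choose_le_middle 1 m
    rcases Nat.lt_or_ge P.card 2 with hlt | hge
    · have := hmid2 Q.card (by omega)
      have := hmid P.card
      nlinarith
    · have := hmid2 P.card hge
      have := hmid Q.card
      nlinarith
  · obtain ⟨Γ, _, hcard, hle⟩ := h.exists_grid hsum {v} (by simpa using fun h => hv h.symm)
    rw [Finset.card_singleton] at hcard
    refine hle.trans ?_
    rcases Nat.le_one_iff_eq_zero_or_eq_one.mp hcard with h0 | h0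
    · rw [Finset.card_eq_zero] at h0
      subst h0
      simp
    · rw [Finset.card_eq_one] at h0
      obtain ⟨p, rfl⟩ := h0
      rw [Finset.sum_singleton]
      exact Nat.mul_le_mul (Nat.choose_le_middle _ _) (Nat.choose_le_middle _ _)

end Pool.Agent.Helper14.ZeroSum
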