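import Mathlib
import Pool.Agent.Helper14.ZeroSum.Irred

/-!
Adding elements one at a time (Kleitman's argument).
-/

namespace Pool.Agent.Helper14.ZeroSum

open Finset

variable {ι : Type*} [DecidableEq ι]

theorem cnt_insert (y : ι → ℝ) (I : Finset ι) (e : ι) (he : e ∉ I) (Λ : Finset ℝ) :
    cnt y (insert e I) Λ = cnt y I Λ + cnt y I (Λ.image (fun v => v - y e)) := by
  classical
  unfold cnt
  rw [Finset.card_filter, Finset.sum_powerset_insert he, Finset.card_filter, Finset.card_filter]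
  congr 1
  apply Finset.sum_congr rfl
  intro T hT
  rw [Finset.mem_powerset] at hT
  rw [Finset.sum_insert (fun h => he (hT h))]
  congr 1
  simp only [Finset.mem_image, eq_iff_iff]
  constructor
  · intro h
    exact ⟨_, h, by ring⟩
  · rintro ⟨v, hv, hvT⟩
    rw [← hvT]
    simpa using hv

theorem cnt_union_inter (y : ι → ℝ) (I : Finset ι) (Λ Λ' : Finset ℝ) :
    cnt y I (Λ ∪ Λ') + cnt y I (Λ ∩ Λ') = cnt y I Λ + cnt y I Λ' := by
  classical
  unfold cnt
  rw [← Finset.card_union_add_card_inter (I.powerset.filter (fun T => ∑ i ∈ T, y i ∈ Λ)),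
    ← Finset.filter_or, ← Finset.filter_and]
  simp only [Finset.mem_union, Finset.mem_inter]

omit [DecidableEq ι] in
theorem cnt_empty_right (y : ι → ℝ) (I : Finset ι) : cnt y I ∅ = 0 := by
  simp [cnt]

omit [DecidableEq ι] in
theorem cnt_mono (y : ι → ℝ) (I : Finset ι) {Λ Λ' : Finset ℝ} (h : Λ ⊆ Λ') :
    cnt y I Λ ≤ cnt y I Λ' := by
  classical
  unfold cnt
  apply Finset.card_le_card
  intro T hT
  rw [Finset.mem_filter] at hT ⊢
  exact ⟨hT.1, h hT.2⟩

theorem kleitman_step (y : ι → ℝ) (I : Finset ι) (K m : ℕ)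
    (h : ∀ Λ, K * cnt y I Λ ≤ S m Λ.card) (e : ι) (he : e ∉ I) (hy : y e ≠ 0) (Λ : Finset ℝ) :
    K * cnt y (insert e I) Λ ≤ S (m + 1) Λ.card := by
  classical
  rcases Finset.eq_empty_or_nonempty Λ with rfl | hne
  · rw [cnt_empty_right]; simp
  set Λ' := Λ.image (fun v => v - y e) with hΛ'
  have hcard' : Λ'.card = Λ.card := Finset.card_image_of_injective _ (sub_left_injective)
  have hnew : ∃ v ∈ Λ', v ∉ Λ := by
    rcases lt_or_gt_of_ne hy with hlt | hgt
    · obtain ⟨v, hv, hmax⟩ := Finset.exists_max_image Λ id hne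
      refine ⟨v - y e, Finset.mem_image_of_mem _ hv, fun hmem => ?_⟩
      have := hmax _ hmem
      simp only [id] at this
      linarith
    · obtain ⟨v, hv, hmin⟩ := Finset.exists_min_image Λ id hne
      refine ⟨v - y e, Finset.mem_image_of_mem _ hv, fun hmem => ?_⟩
      have := hmin _ hmem
      simp only [id] at this
      linarith
  obtain ⟨v, hv, hvn⟩ := hnew
  have hU : Λ.card + 1 ≤ (Λ ∪ Λ').card := by
    calc Λ.card + 1 = (insert v Λ).card := (Finset.card_insert_of_notMem hvn).symm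
      _ ≤ (Λ ∪ Λ').card := by
        apply Finset.card_le_card
        intro x hx
        rcases Finset.mem_insert.mp hx with rfl | hx
        · exact Finset.mem_union_right _ hv
        · exact Finset.mem_union_left _ hx
  have hUI : (Λ ∪ Λ').card + (Λ ∩ Λ').card = Λ.card + Λ'.card :=
    Finset.card_union_add_card_inter _ _
  have hj : 1 ≤ Λ.card := Finset.card_pos.mpr hne
  rw [cnt_insert y I e he, ← cnt_union_inter, Nat.mul_add, ← hΛ']
  have h1 := h (Λ ∪ Λ')
  have h2 := h (Λ ∩ Λ')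
  obtain ⟨s, hs⟩ : ∃ s, (Λ ∪ Λ').card = Λ.card + s := ⟨(Λ ∪ Λ').card - Λ.card, by omega⟩
  have hs1 : 1 ≤ s := by omega
  have hsj : s ≤ Λ.card := by omega
  have hs2 : (Λ ∩ Λ').card = Λ.card - s := by omega
  rw [hs] at h1
  rw [hs2] at h2
  have h3 := S_spread m Λ.card hs1 hsj
  obtain ⟨j, hj'⟩ : ∃ j, Λ.card = j + 1 := ⟨Λ.card - 1, by omega⟩
  rw [hj'] at h1 h2 h3 ⊢
  rw [S_succ_succ]
  have e1 : j + 1 + 1 = j + 2 := rfl
  have e2 : j + 1 - 1 = j := rfl
  rw [e1, e2] at h3
  omega

theorem kleitman (y : ι → ℝ) (I : Finset ι) (K m : ℕ)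
    (h : ∀ Λ, K * cnt y I Λ ≤ S m Λ.card) (J : Finset ι) (hJ : Disjoint I J)
    (hy : ∀ e ∈ J, y e ≠ 0) (Λ : Finset ℝ) :
    K * cnt y (I ∪ J) Λ ≤ S (m + J.card) Λ.card := by
  classical
  induction J using Finset.induction_on generalizing Λ with
  | empty => simpa using h Λ
  | insert e J he ih =>
    have hIJ : Disjoint I J := Finset.disjoint_of_subset_right (Finset.subset_insert _ _) hJ
    have heI : e ∉ I := fun hmem => (Finset.disjoint_left.mp hJ) hmem (Finset.mem_insert_self _ _)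
    rw [Finset.union_insert, Finset.card_insert_of_notMem he, ← Nat.add_assoc]
    apply kleitman_step y (I ∪ J) K (m + J.card)
    · intro Λ
      exact ih hIJ (fun e he => hy e (Finset.mem_insert_of_mem he)) Λ
    · simp [heI, he]
    · exact hy e (Finset.mem_insert_self _ _)

omit [DecidableEq ι] in
theorem cnt_empty_left (y : ι → ℝ) (Λ : Finset ℝ) : 1 * cnt y ∅ Λ ≤ S 0 Λ.card := by
  rw [one_mul]
  rcases Finset.eq_empty_or_nonempty Λ with rfl | hne
  · rw [cnt_empty_right]; simp
  · obtain ⟨j, hj⟩ : ∃ j, Λ.card = j + 1 := ⟨Λ.card - 1, by have := Finset.card_pos.mpr hne; omega⟩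
    rw [hj, S_zero_succ]
    unfold cnt
    exact (Finset.card_filter_le _ _).trans (by simp)

/-- The Littlewood-Offord bound -/
theorem littlewood_offord (y : ι → ℝ) (J : Finset ι) (hy : ∀ e ∈ J, y e ≠ 0) (Λ : Finset ℝ) :
    cnt y J Λ ≤ S J.card Λ.card := by
  have := kleitman y ∅ 1 0 (cnt_empty_left y) J (Finset.disjoint_empty_left _) hy Λ
  simpa using this

theorem cnt_zeros (y : ι → ℝ) (I J : Finset ι) (h : Disjoint I J) (hy : ∀ e ∈ J, y e = 0)
    (Λ : Finset ℝ) : cnt y (I ∪ J) Λ = 2 ^ J.card * cnt y I Λ := by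
  classical
  rw [cnt_union y I J h, Finset.sum_comm]
  have h1 : ∀ U ∈ J.powerset, ∑ V ∈ I.powerset,
      (if ∑ i ∈ V, y i + ∑ i ∈ U, y i ∈ Λ then 1 else 0) = cnt y I Λ := by
    intro U hU
    rw [Finset.mem_powerset] at hU
    have : ∑ i ∈ U, y i = 0 := Finset.sum_eq_zero fun i hi => hy i (hU hi)
    rw [this]
    unfold cnt
    rw [Finset.card_filter]
    simp
  rw [Finset.sum_congr rfl h1, Finset.sum_const, Finset.card_powerset, smul_eq_mul]

theorem cnt_compl (y : ι → ℝ) (I : Finset ι) (v : ℝ) :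
    cnt y I {v} = cnt y I {∑ i ∈ I, y i - v} := by
  classical
  unfold cnt
  apply Finset.card_nbij' (fun T => I \ T) (fun T => I \ T)
  · intro T hT
    simp only [Finset.coe_filter, Finset.mem_powerset, Finset.mem_singleton,
      Set.mem_ofPred_eq] at hT ⊢
    refine ⟨Finset.sdiff_subset, ?_⟩
    have := Finset.sum_sdiff (f := y) hT.1
    linarith
  · intro T hT
    simp only [Finset.coe_filter, Finset.mem_powerset, Finset.mem_singleton,
      Set.mem_ofPred_eq] at hT ⊢
    refine ⟨Finset.sdiff_subset, ?_⟩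
    have := Finset.sum_sdiff (f := y) hT.1
    linarith
  · intro T hT
    simp only [Finset.coe_filter, Finset.mem_powerset, Set.mem_ofPred_eq] at hT
    exact Finset.sdiff_sdiff_eq_self hT.1
  · intro T hT
    simp only [Finset.coe_filter, Finset.mem_powerset, Set.mem_ofPred_eq] at hT
    exact Finset.sdiff_sdiff_eq_self hT.1

/-- splitting off a set `E` of indices costs at most a factor `2^|E|`. -/
theorem cnt_union_le (y : ι → ℝ) (E R : Finset ι) (h : Disjoint E R) (K : ℕ)
    (hK : ∀ v, cnt y R {v} ≤ K) (v : ℝ) : cnt y (E ∪ R) {v} ≤ 2 ^ E.card * K := by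
  classical
  rw [cnt_union y E R h]
  calc _ ≤ ∑ V ∈ E.powerset, K := by
        apply Finset.sum_le_sum
        intro V _
        refine le_trans (le_of_eq ?_) (hK (v - ∑ i ∈ V, y i))
        unfold cnt
        rw [Finset.card_filter]
        apply Finset.sum_congr rfl
        intro U _
        congr 1
        simp only [Finset.mem_singleton, eq_iff_iff]
        constructor <;> intro h <;> linarith
    _ = _ := by rw [Finset.sum_const, Finset.card_powerset, smul_eq_mul]

end Pool.Agent.Helper14.ZeroSum
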