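import Mathlib
import Pool.Agent.Helper14.ZeroSum.SFun
import Pool.Agent.Helper14.ZeroSum.Knapsack
import Pool.Agent.Helper14.ZeroSum.Lym
import Pool.Agent.Helper14.ZeroSum.Count

/-!
Two-part chain counting: sums over pairs of chains weighted by binomial coefficients.
-/

namespace Pool.Agent.Helper14.ZeroSum

open Finset

/-- a sum of at most `ℓ` distinct binomial coefficients of row `p` is at most `S p ℓ`. -/
theorem sum_choose_le_S (p ℓ : ℕ) (I : Finset ℕ) (hI : I.card ≤ ℓ) :
    ∑ i ∈ I, p.choose i ≤ S p ℓ := by
  classical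
  have h1 := littlewood_offord (fun _ : ℕ => (1 : ℝ)) (Finset.range p)
    (fun _ _ => one_ne_zero) (I.image (fun i : ℕ => (i : ℝ)))
  rw [Finset.card_range, Finset.card_image_of_injective _ Nat.cast_injective] at h1
  have h2 : cnt (fun _ : ℕ => (1 : ℝ)) (Finset.range p) (I.image (fun i : ℕ => (i : ℝ))) =
      ∑ i ∈ I, p.choose i := by
    unfold cnt
    have h3 : (Finset.range p).powerset.filter
        (fun T => ∑ _i ∈ T, (1 : ℝ) ∈ I.image (fun i : ℕ => (i : ℝ))) =
        I.biUnion (fun i => (Finset.range p).powersetCard i) := by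
      ext T
      simp only [Finset.mem_filter, Finset.mem_powerset, Finset.mem_image, Finset.mem_biUnion,
        Finset.mem_powersetCard, Finset.sum_const, nsmul_eq_mul, mul_one, Nat.cast_inj]
      constructor
      · rintro ⟨hT, i, hi, hiT⟩
        exact ⟨i, hi, hT, hiT.symm⟩
      · rintro ⟨i, hi, hT, hiT⟩
        exact ⟨hT, i, hi, hiT.symm⟩
    rw [h3, Finset.card_biUnion]
    · apply Finset.sum_congr rfl
      intro i _
      rw [Finset.card_powersetCard, Finset.card_range]
    · intro i _ j _ hij
      rw [Function.onFun, Finset.disjoint_left]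
      intro T hT hT'
      rw [Finset.mem_powersetCard] at hT hT'
      exact hij (hT.2.symm.trans hT'.2)
  rw [← h2]
  exact h1.trans (S_mono p hI)

/-- The outer lemma: if the sums of `c` over intervals of length `ℓ` are at most `M * S p ℓ`
(plus `e` if `ℓ = q + 1`), then the binomially weighted sum is at most `M * S (p+q) 1 + e`. -/
theorem outer (M e : ℝ) (q : ℕ) : ∀ (p : ℕ) (c : ℕ → ℝ),
    (∀ a ℓ, ℓ ≤ q + 1 → ∑ j ∈ Finset.range ℓ, c (a + j) ≤
      M * (S p ℓ : ℝ) + (if ℓ = q + 1 then e else 0)) →
    ∑ j ∈ Finset.range (q + 1), c j * (q.choose j : ℝ) ≤ M * (S (p + q) 1 : ℝ) + e := by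
  induction q with
  | zero =>
    intro p c h
    have := h 0 1 (by omega)
    simpa using this
  | succ q ih =>
    intro p c h
    have h1 := ih (p + 1) (fun j => c j + c (j + 1)) (by
      intro a ℓ hℓ
      cases ℓ with
      | zero => simp
      | succ ℓ =>
        have e1 : ∑ j ∈ Finset.range (ℓ + 1), (c (a + j) + c (a + j + 1)) =
            ∑ j ∈ Finset.range (ℓ + 1 + 1), c (a + j) + ∑ j ∈ Finset.range ℓ, c (a + 1 + j) := by
          rw [Finset.sum_add_distrib, Finset.sum_range_succ' (fun j => c (a + j)) (ℓ + 1),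
            Finset.sum_range_succ' (fun j => c (a + j)) ℓ]
          have e2 : ∑ j ∈ Finset.range ℓ, c (a + 1 + j) = ∑ j ∈ Finset.range ℓ, c (a + (j + 1)) := by
            apply Finset.sum_congr rfl
            intro j _
            congr 1
            ring
          rw [e2]
          have e3 : ∑ j ∈ Finset.range (ℓ + 1), c (a + j + 1) =
            ∑ j ∈ Finset.range (ℓ + 1), c (a + (j + 1)) := by
            apply Finset.sum_congr rfl
            intro j _
            congr 1
          rw [e3]
          ring
        rw [e1, S_succ_succ]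
        have h2 := h a (ℓ + 1 + 1) (by omega)
        have h3 := h (a + 1) ℓ (by omega)
        rw [if_neg (show ¬ ℓ = q + 1 + 1 by omega)] at h3
        push_cast
        by_cases hl : ℓ = q
        · rw [if_pos hl]
          rw [if_pos (show ℓ + 1 + 1 = q + 1 + 1 by omega)] at h2
          have e5 : ℓ + 1 + 1 = ℓ + 2 := rfl
          rw [e5] at h2
          linarith
        · rw [if_neg hl]
          rw [if_neg (show ¬ ℓ + 1 + 1 = q + 1 + 1 by omega)] at h2
          have e5 : ℓ + 1 + 1 = ℓ + 2 := rfl
          rw [e5] at h2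
          linarith)
    have e4 : ∑ j ∈ Finset.range (q + 1 + 1), c j * ((q + 1).choose j : ℝ) =
        ∑ j ∈ Finset.range (q + 1), (c j + c (j + 1)) * (q.choose j : ℝ) := by
      rw [Finset.sum_range_succ']
      have : ∀ j, ((q + 1).choose (j + 1) : ℝ) = (q.choose j : ℝ) + (q.choose (j + 1) : ℝ) := by
        intro j
        rw [Nat.choose_succ_succ]
        push_cast
        ring
      simp only [this]
      have e6 : ∑ j ∈ Finset.range (q + 1), c (j + 1) * (q.choose (j + 1) : ℝ) + c 0 * (q.choose 0 : ℝ)
          = ∑ j ∈ Finset.range (q + 1), c j * (q.choose j : ℝ) := by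
        rw [← Finset.sum_range_succ' (fun j => c j * (q.choose j : ℝ)) (q + 1),
          Finset.sum_range_succ, Nat.choose_succ_self]
        simp
      simp only [mul_add, add_mul, Finset.sum_add_distrib] at e6 ⊢
      rw [← e6]
      simp only [Nat.choose_zero_right]
      ring
    rw [e4, show p + (q + 1) = p + 1 + q by ring]
    exact h1

end Pool.Agent.Helper14.ZeroSum
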