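import Mathlib
import Pool.Agent.Helper14.ZeroSum.Outer

/-!
The two-level chain inequality.
-/

namespace Pool.Agent.Helper14.ZeroSum

open Finset

variable {ι : Type*} [DecidableEq ι]

/-- `𝒞` is a chain of subsets of `Y`. -/
def ChainIn (Y : Finset ι) (𝒞 : Finset (Finset ι)) : Prop :=
  (∀ U ∈ 𝒞, U ⊆ Y) ∧ IsChain (· ⊆ ·) (𝒞 : Set (Finset ι))

omit [DecidableEq ι] in
theorem ChainIn.mono {Y : Finset ι} {𝒞 𝒞' : Finset (Finset ι)} (h : ChainIn Y 𝒞)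
    (hs : 𝒞' ⊆ 𝒞) : ChainIn Y 𝒞' :=
  ⟨fun U hU => h.1 U (hs hU), h.2.mono (by exact_mod_cast hs)⟩

omit [DecidableEq ι] in
theorem ChainIn.comp {Y : Finset ι} {𝒞 : Finset (Finset ι)} (h : ChainIn Y 𝒞)
    {U V : Finset ι} (hU : U ∈ 𝒞) (hV : V ∈ 𝒞) : U ⊆ V ∨ V ⊆ U := by
  by_cases hne : U = V
  · left; rw [hne]
  · exact h.2 hU hV hne

omit [DecidableEq ι] in
theorem ChainIn.eq_of_card {Y : Finset ι} {𝒞 : Finset (Finset ι)} (h : ChainIn Y 𝒞)
    {U V : Finset ι} (hU : U ∈ 𝒞) (hV : V ∈ 𝒞) (hc : U.card = V.card) : U = V := by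
  rcases h.comp hU hV with h1 | h1
  · exact Finset.eq_of_subset_of_card_le h1 hc.ge
  · exact (Finset.eq_of_subset_of_card_le h1 hc.le).symm

omit [DecidableEq ι] in
theorem ChainIn.card_interval {Y : Finset ι} {𝒞 : Finset (Finset ι)} (h : ChainIn Y 𝒞)
    (a ℓ : ℕ) : (𝒞.filter (fun V => a ≤ V.card ∧ V.card < a + ℓ)).card ≤ ℓ := by
  calc (𝒞.filter (fun V => a ≤ V.card ∧ V.card < a + ℓ)).card
      ≤ (Finset.Ico a (a + ℓ)).card := by
        apply Finset.card_le_card_of_injOn (fun V => V.card)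
        · intro V hV
          simp only [Finset.coe_filter, Set.mem_ofPred_eq] at hV
          simp only [Finset.coe_Ico, Set.mem_Ico]
          exact hV.2
        · intro V hV V' hV' hVV'
          simp only [Finset.coe_filter, Set.mem_ofPred_eq] at hV hV'
          exact h.eq_of_card hV.1 hV'.1 hVV'
    _ = ℓ := by simp

theorem lym_chain (Y : Finset ι) (f : Finset ι → ℝ) (K : ℝ)
    (h : ∀ 𝒞, ChainIn Y 𝒞 → ∑ U ∈ 𝒞, f U * (Y.card.choose U.card : ℝ) ≤ K) :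
    ∑ U ∈ Y.powerset, f U ≤ K := by
  have := weighted_lym (fun U => f U * (Y.card.choose U.card : ℝ)) Y.card Y K rfl
    (fun 𝒞 h1 h2 => h 𝒞 ⟨h1, h2⟩)
  refine le_trans (le_of_eq ?_) this
  apply Finset.sum_congr rfl
  intro U hU
  rw [Finset.mem_powerset] at hU
  have h1 : (Y.card.choose U.card : ℝ) ≠ 0 := by
    have := Nat.choose_pos (Finset.card_le_card hU)
    positivity
  field_simp

theorem two_level (Y1 Y2 : Finset ι) (F : Finset ι → Finset ι → ℝ) (M e : ℝ)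
    (h : ∀ 𝒞 𝒟 : Finset (Finset ι), ChainIn Y1 𝒞 → ChainIn Y2 𝒟 → ∀ ℓ, 𝒟.card ≤ ℓ →
      ℓ ≤ Y2.card + 1 →
      ∑ U ∈ 𝒞, (∑ V ∈ 𝒟, F U V) * (Y1.card.choose U.card : ℝ) ≤
        M * (S Y1.card ℓ : ℝ) + (if ℓ = Y2.card + 1 then e else 0)) :
    ∑ U ∈ Y1.powerset, ∑ V ∈ Y2.powerset, F U V ≤ M * (S (Y1.card + Y2.card) 1 : ℝ) + e := by
  classical
  -- step 1
  have h1 : ∀ 𝒟 : Finset (Finset ι), ChainIn Y2 𝒟 → ∀ ℓ, 𝒟.card ≤ ℓ → ℓ ≤ Y2.card + 1 →
      ∑ V ∈ 𝒟, ∑ U ∈ Y1.powerset, F U V ≤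
        M * (S Y1.card ℓ : ℝ) + (if ℓ = Y2.card + 1 then e else 0) := by
    intro 𝒟 h𝒟 ℓ hℓ1 hℓ2
    rw [Finset.sum_comm]
    apply lym_chain Y1 (fun U => ∑ V ∈ 𝒟, F U V)
    intro 𝒞 h𝒞
    exact h 𝒞 𝒟 h𝒞 h𝒟 ℓ hℓ1 hℓ2
  rw [Finset.sum_comm]
  apply lym_chain Y2 (fun V => ∑ U ∈ Y1.powerset, F U V)
  intro 𝒟 h𝒟
  set f : Finset ι → ℝ := fun V => ∑ U ∈ Y1.powerset, F U V with hf
  set c : ℕ → ℝ := fun j => ∑ V ∈ 𝒟.filter (fun V => V.card = j), f V with hc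
  have h2 := outer M e Y2.card Y1.card c (by
    intro a ℓ hℓ
    have e1 : ∑ j ∈ Finset.range ℓ, c (a + j) =
        ∑ V ∈ 𝒟.filter (fun V => a ≤ V.card ∧ V.card < a + ℓ), f V := by
      rw [← Finset.sum_fiberwise_of_maps_to (t := Finset.range ℓ) (g := fun V => V.card - a)
        (s := 𝒟.filter (fun V => a ≤ V.card ∧ V.card < a + ℓ))]
      · apply Finset.sum_congr rfl
        intro j hj
        rw [Finset.mem_range] at hj
        simp only [hc]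
        apply Finset.sum_congr _ (fun _ _ => rfl)
        ext V
        simp only [Finset.mem_filter]
        constructor
        · rintro ⟨hV, hVj⟩
          refine ⟨⟨hV, ?_, ?_⟩, ?_⟩ <;> omega
        · rintro ⟨⟨hV, hV1, hV2⟩, hVj⟩
          exact ⟨hV, by omega⟩
      · intro V hV
        rw [Finset.mem_filter] at hV
        rw [Finset.mem_range]
        omega
    rw [e1]
    exact h1 _ (h𝒟.mono (Finset.filter_subset _ _)) ℓ (h𝒟.card_interval a ℓ) hℓ)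
  refine le_trans (le_of_eq ?_) h2
  rw [← Finset.sum_fiberwise_of_maps_to (t := Finset.range (Y2.card + 1))
    (g := fun V => V.card) (s := 𝒟)]
  · apply Finset.sum_congr rfl
    intro j _
    simp only [hc]
    rw [Finset.sum_mul]
    apply Finset.sum_congr rfl
    intro V hV
    rw [Finset.mem_filter] at hV
    rw [hV.2]
  · intro V hV
    have := Finset.card_le_card (h𝒟.1 V hV)
    rw [Finset.mem_range]
    omega

/-- The inner estimate with multiplicity `M`. -/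
theorem inner_mult (Y : Finset ι) (𝒞 : Finset (Finset ι)) (h𝒞 : ChainIn Y 𝒞) (g : Finset ι → ℝ)
    (M : ℝ) (hM : 0 < M) (hg0 : ∀ U ∈ 𝒞, 0 ≤ g U) (hg : ∀ U ∈ 𝒞, g U ≤ M) (ℓ : ℕ)
    (hsum : ∑ U ∈ 𝒞, g U ≤ M * ℓ) :
    ∑ U ∈ 𝒞, g U * (Y.card.choose U.card : ℝ) ≤ M * (S Y.card ℓ : ℝ) := by
  classical
  obtain ⟨Γ, hΓ, hΓc, hΓs⟩ := knapsack 𝒞 (fun U => (Y.card.choose U.card : ℝ))
    (fun U => g U / M) (fun U _ => by positivity)
    (fun U hU => div_nonneg (hg0 U hU) hM.le)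
    (fun U hU => by rw [div_le_one hM]; exact hg U hU) ℓ (by
      rw [← Finset.sum_div, div_le_iff₀ hM]
      linarith)
  have h1 : ∑ U ∈ Γ, (Y.card.choose U.card : ℝ) ≤ (S Y.card ℓ : ℝ) := by
    have h2 := sum_choose_le_S Y.card ℓ (Γ.image Finset.card)
      (Finset.card_image_le.trans hΓc)
    rw [Finset.sum_image] at h2
    · exact_mod_cast h2
    · intro U hU V hV hUV
      exact h𝒞.eq_of_card (hΓ hU) (hΓ hV) hUV
  have h3 : ∑ U ∈ 𝒞, g U * (Y.card.choose U.card : ℝ) =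
      M * ∑ U ∈ 𝒞, g U / M * (Y.card.choose U.card : ℝ) := by
    rw [Finset.mul_sum]
    apply Finset.sum_congr rfl
    intro U _
    field_simp
  rw [h3]
  exact mul_le_mul_of_nonneg_left (hΓs.trans h1) hM.le

/-- The grid inequality with multiplicity `M`. -/
theorem grid_mult (Y1 Y2 : Finset ι) (F : Finset ι → Finset ι → ℕ) (M : ℕ)
    (hrow : ∀ U, U ⊆ Y1 → ∀ 𝒟, ChainIn Y2 𝒟 → ∑ V ∈ 𝒟, F U V ≤ M)
    (hcol : ∀ V, V ⊆ Y2 → ∀ 𝒞, ChainIn Y1 𝒞 → ∑ U ∈ 𝒞, F U V ≤ M) :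
    ∑ U ∈ Y1.powerset, ∑ V ∈ Y2.powerset, F U V ≤
      M * ((Y1.card + Y2.card).choose ((Y1.card + Y2.card) / 2)) := by
  classical
  rcases Nat.eq_zero_or_pos M with rfl | hM
  · rw [zero_mul]
    apply le_of_eq
    apply Finset.sum_eq_zero
    intro U hU
    apply Finset.sum_eq_zero
    intro V hV
    rw [Finset.mem_powerset] at hU hV
    have := hrow U hU {V} ⟨by simpa using hV, by simp⟩
    simpa using this
  have hM' : (0 : ℝ) < M := by exact_mod_cast hM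
  have := two_level Y1 Y2 (fun U V => (F U V : ℝ)) M 0 (by
    intro 𝒞 𝒟 h𝒞 h𝒟 ℓ hℓ _
    simp only [ite_self, add_zero]
    apply inner_mult Y1 𝒞 h𝒞 (fun U => ∑ V ∈ 𝒟, (F U V : ℝ)) M hM'
    · intro U _
      positivity
    · intro U hU
      have := hrow U (h𝒞.1 U hU) 𝒟 h𝒟
      exact_mod_cast this
    · rw [Finset.sum_comm]
      calc ∑ V ∈ 𝒟, ∑ U ∈ 𝒞, (F U V : ℝ) ≤ ∑ V ∈ 𝒟, (M : ℝ) := by
            apply Finset.sum_le_sum
            intro V hV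
            have := hcol V (h𝒟.1 V hV) 𝒞 h𝒞
            exact_mod_cast this
        _ = M * 𝒟.card := by rw [Finset.sum_const, nsmul_eq_mul]; ring
        _ ≤ M * ℓ := by
            apply mul_le_mul_of_nonneg_left _ hM'.le
            exact_mod_cast hℓ)
  rw [S_one, add_zero] at this
  exact_mod_cast this

end Pool.Agent.Helper14.ZeroSum
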