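import Mathlib
import Pool.Agent.Helper14.ZeroSum.TwoLevel

/-!
The two-level inequality in the presence of far pairs.
-/

namespace Pool.Agent.Helper14.ZeroSum

open Finset

theorem choose_lt_succ (n h : ℕ) (hh : 2 * h + 2 ≤ n) : n.choose h + 1 ≤ n.choose (h + 1) := by
  have h1 := Nat.choose_succ_right_eq n h
  have h2 := Nat.choose_pos (show h ≤ n by omega)
  have h3 : h + 2 ≤ n - h := by omega
  by_contra hcon
  push Not at hcon
  have h4 : n.choose (h + 1) ≤ n.choose h := by omega
  have h5 : n.choose h * (h + 2) ≤ n.choose h * (h + 1) := by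
    calc n.choose h * (h + 2) ≤ n.choose h * (n - h) := Nat.mul_le_mul_left _ h3
      _ = n.choose (h + 1) * (h + 1) := h1.symm
      _ ≤ n.choose h * (h + 1) := Nat.mul_le_mul_right _ h4
  have h6 : h + 2 ≤ h + 1 := Nat.le_of_mul_le_mul_left h5 h2
  omega

/-- superadditivity of binomial coefficients below the middle -/
theorem choose_add_choose_le (n : ℕ) : ∀ i j : ℕ, 2 * (i + j) + 1 ≤ n →
    n.choose i + n.choose j ≤ 1 + n.choose (i + j) := by
  induction n with
  | zero => intro i j h; omega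
  | succ n ih =>
    intro i j h
    cases i with
    | zero => simp
    | succ i =>
      cases j with
      | zero => simp [add_comm]
      | succ j =>
        have h1 := ih i (j + 1) (by omega)
        have h2 := ih (i + 1) j (by omega)
        rw [show i + 1 + (j + 1) = (i + j + 1) + 1 by ring, Nat.choose_succ_succ,
          Nat.choose_succ_succ, Nat.choose_succ_succ n (i + j + 1)]
        rw [show i + (j + 1) = i + j + 1 by ring] at h1
        rw [show i + 1 + j = i + j + 1 by ring] at h2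
        have h3 := choose_lt_succ n (i + j + 1) (by omega)
        simp only [Nat.succ_eq_add_one] at *
        omega

theorem choose_mono_half (n : ℕ) {i j : ℕ} (hij : i ≤ j) (hj : 2 * j ≤ n + 1) :
    n.choose i ≤ n.choose j := by
  induction j, hij using Nat.le_induction with
  | base => exact le_rfl
  | succ j hj' ih =>
    refine (ih (by omega)).trans ?_
    have h1 := Nat.choose_succ_right_eq n j
    have h3 : j + 1 ≤ n - j := by omega
    have h4 : n.choose j * (j + 1) ≤ n.choose (j + 1) * (j + 1) := by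
      rw [h1]
      exact Nat.mul_le_mul_left _ h3
    exact Nat.le_of_mul_le_mul_right h4 (by omega)

variable {ι : Type*} [DecidableEq ι]

/-- the core estimate for far pairs. -/
theorem far_core (Y1 Y2 : Finset ι) (k r0 q : ℕ) (H : Finset ι → Finset ι → Prop)
    [∀ U V, Decidable (H U V)] (hp : Y1.card = k + r0) (hq : q + r0 + 1 = k)
    (hrow : ∀ U V V', U ⊆ Y1 → V' ⊆ Y2 → V ⊂ V' → H U V → ¬ H U V')
    (hcol : ∀ V U U', V ⊆ Y2 → U' ⊆ Y1 → U ⊂ U' → H U V → H U' V → U.card + k ≤ U'.card)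
    (𝒞 𝒟 : Finset (Finset ι)) (h𝒞 : ChainIn Y1 𝒞) (h𝒟 : ChainIn Y2 𝒟) (ℓ : ℕ)
    (hℓ1 : 𝒟.card ≤ ℓ) (hℓ2 : ℓ ≤ q + 1) :
    ∑ V ∈ 𝒟, ∑ U ∈ 𝒞, (if H U V then (k + r0).choose U.card else 0) ≤
      S (k + r0) ℓ + (if ℓ = q + 1 then 1 else 0) := by
  classical
  set p := k + r0 with hpdef
  set cw : Finset ι → ℕ := fun V => ∑ U ∈ 𝒞, (if H U V then p.choose U.card else 0) with hcw
  set C : Finset ι → Prop := fun V => ∃ U, U ∈ 𝒞 ∧ H U V ∧ r0 < U.card ∧ U.card < k with hC
  set 𝒟C := 𝒟.filter C with h𝒟C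
  set 𝒟N := 𝒟.filter (fun V => ¬ C V) with h𝒟N
  have hsplit : 𝒟C.card + 𝒟N.card = 𝒟.card := Finset.card_filter_add_card_filter_not _
  have hsum : ∑ V ∈ 𝒟, cw V = ∑ V ∈ 𝒟C, cw V + ∑ V ∈ 𝒟N, cw V :=
    (Finset.sum_filter_add_sum_filter_not 𝒟 C cw).symm
  -- ssubset from comparability
  have hss : ∀ {U U' : Finset ι}, U ∈ 𝒞 → U' ∈ 𝒞 → U ≠ U' → U ⊂ U' ∨ U' ⊂ U := by
    intro U U' hU hU' hne
    rcases h𝒞.comp hU hU' with h | h
    · left; exact Finset.ssubset_iff_subset_ne.mpr ⟨h, hne⟩
    · right; exact Finset.ssubset_iff_subset_ne.mpr ⟨h, hne.symm⟩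
  have hcardle : ∀ U ∈ 𝒞, U.card ≤ p := fun U hU => by
    rw [← hp]; exact Finset.card_le_card (h𝒞.1 U hU)
  -- central columns
  have hex : ∀ V ∈ 𝒟C, ∃ U, U ∈ 𝒞 ∧ H U V ∧ r0 < U.card ∧ U.card < k := by
    intro V hV
    exact (Finset.mem_filter.mp hV).2
  choose! u hu using hex
  have hcolC : ∀ V ∈ 𝒟C, cw V = p.choose (u V).card := by
    intro V hV
    obtain ⟨hu1, hu2, hu3, hu4⟩ := hu V hV
    have hV' : V ⊆ Y2 := h𝒟.1 V (Finset.mem_filter.mp hV).1
    simp only [hcw]
    rw [Finset.sum_eq_single (u V)]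
    · rw [if_pos hu2]
    · intro U hU hne
      rw [if_neg]
      intro hH
      rcases hss hU hu1 hne with h | h
      · have := hcol V U (u V) hV' (h𝒞.1 _ hu1) h hH hu2
        omega
      · have := hcol V (u V) U hV' (h𝒞.1 _ hU) h hu2 hH
        have := hcardle U hU
        omega
    · intro h
      exact absurd hu1 h
  set IC := 𝒟C.image (fun V => (u V).card) with hIC
  have hinj : Set.InjOn (fun V => (u V).card) (𝒟C : Set (Finset ι)) := by
    intro V hV V' hV' hVV'
    simp only [Finset.mem_coe] at hV hV'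
    by_contra hne
    obtain ⟨hu1, hu2, hu3, hu4⟩ := hu V hV
    obtain ⟨hu1', hu2', hu3', hu4'⟩ := hu V' hV'
    have he : u V = u V' := h𝒞.eq_of_card hu1 hu1' hVV'
    have hV1 := (Finset.mem_filter.mp hV).1
    have hV2 := (Finset.mem_filter.mp hV').1
    rcases h𝒟.comp hV1 hV2 with h | h
    · exact hrow (u V) V V' (h𝒞.1 _ hu1) (h𝒟.1 _ hV2)
        (Finset.ssubset_iff_subset_ne.mpr ⟨h, hne⟩) hu2 (he ▸ hu2')
    · exact hrow (u V) V' V (h𝒞.1 _ hu1) (h𝒟.1 _ hV1)
        (Finset.ssubset_iff_subset_ne.mpr ⟨h, fun h' => hne h'.symm⟩) (he ▸ hu2') hu2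
  have hICcard : IC.card = 𝒟C.card := Finset.card_image_of_injOn hinj
  have hICsum : ∑ V ∈ 𝒟C, cw V = ∑ i ∈ IC, p.choose i := by
    rw [hIC, Finset.sum_image hinj]
    exact Finset.sum_congr rfl hcolC
  set Cen := Finset.Ioo r0 k with hCen
  have hCencard : Cen.card = q := by
    rw [hCen, Nat.card_Ioo]; omega
  have hICsub : IC ⊆ Cen := by
    intro i hi
    rw [hIC, Finset.mem_image] at hi
    obtain ⟨V, hV, rfl⟩ := hi
    obtain ⟨hu1, hu2, hu3, hu4⟩ := hu V hV
    rw [hCen, Finset.mem_Ioo]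
    exact ⟨hu3, hu4⟩
  -- central weights
  have hcenw : ∀ i ∈ Cen, p.choose r0 + 1 ≤ p.choose i := by
    intro i hi
    rw [hCen, Finset.mem_Ioo] at hi
    have h1 := choose_lt_succ p r0 (by omega)
    refine h1.trans ?_
    rcases Nat.lt_or_ge (2 * i) (p + 2) with h | h
    · exact choose_mono_half p (by omega) (by omega)
    · rw [← Nat.choose_symm (show i ≤ p by omega)]
      exact choose_mono_half p (by omega) (by omega)
  -- noncentral columns
  have hcolN : ∀ V ∈ 𝒟N, cw V ≤ p.choose r0 + 1 := by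
    intro V hV
    rw [h𝒟N, Finset.mem_filter] at hV
    obtain ⟨hV1, hV2⟩ := hV
    have hV' : V ⊆ Y2 := h𝒟.1 V hV1
    have hnc : ∀ U ∈ 𝒞, H U V → U.card ≤ r0 ∨ k ≤ U.card := by
      intro U hU hH
      by_contra hcon
      push Not at hcon
      exact hV2 ⟨U, hU, hH, hcon.1, hcon.2⟩
    -- low hits and high hits
    set hlow := 𝒞.filter (fun U => H U V ∧ U.card ≤ r0) with hhlow
    set hhigh := 𝒞.filter (fun U => H U V ∧ k ≤ U.card) with hhhigh
    have e1 : cw V = ∑ U ∈ hlow, p.choose U.card + ∑ U ∈ hhigh, p.choose U.card := by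
      simp only [hcw]
      rw [← Finset.sum_filter, ← Finset.sum_union]
      · apply Finset.sum_congr _ (fun _ _ => rfl)
        ext U
        rw [Finset.mem_union, Finset.mem_filter, Finset.mem_filter, Finset.mem_filter]
        constructor
        · rintro ⟨hU, hH⟩
          rcases hnc U hU hH with h | h
          · left; exact ⟨hU, hH, h⟩
          · right; exact ⟨hU, hH, h⟩
        · rintro (⟨hU, hH, _⟩ | ⟨hU, hH, _⟩) <;> exact ⟨hU, hH⟩
      · rw [Finset.disjoint_left]
        intro U hU hU'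
        rw [Finset.mem_filter] at hU hU'
        omega
    have hlow1 : hlow.card ≤ 1 := by
      rw [Finset.card_le_one]
      intro U hU U' hU'
      rw [Finset.mem_filter] at hU hU'
      by_contra hne
      rcases hss hU.1 hU'.1 hne with h | h
      · have := hcol V U U' hV' (h𝒞.1 _ hU'.1) h hU.2.1 hU'.2.1
        omega
      · have := hcol V U' U hV' (h𝒞.1 _ hU.1) h hU'.2.1 hU.2.1
        omega
    have hhigh1 : hhigh.card ≤ 1 := by
      rw [Finset.card_le_one]
      intro U hU U' hU'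
      rw [Finset.mem_filter] at hU hU'
      by_contra hne
      have c1 := hcardle U hU.1
      have c2 := hcardle U' hU'.1
      rcases hss hU.1 hU'.1 hne with h | h
      · have := hcol V U U' hV' (h𝒞.1 _ hU'.1) h hU.2.1 hU'.2.1
        omega
      · have := hcol V U' U hV' (h𝒞.1 _ hU.1) h hU'.2.1 hU.2.1
        omega
    rw [e1]
    rw [Finset.card_le_one_iff_subset_singleton] at hlow1 hhigh1
    rcases Finset.eq_empty_or_nonempty hlow with hl | ⟨U, hU⟩
    · rw [hl, Finset.sum_empty, Nat.zero_add]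
      rcases Finset.eq_empty_or_nonempty hhigh with hh | ⟨U', hU'⟩
      · rw [hh, Finset.sum_empty]; omega
      · obtain ⟨W, hW⟩ := hhigh1
        have : hhigh = {U'} := by
          apply Finset.Subset.antisymm _ (by simpa using hU')
          intro X hX
          have a1 := hW hX
          have a2 := hW hU'
          rw [Finset.mem_singleton] at a1 a2 ⊢
          rw [a1, a2]
        rw [this, Finset.sum_singleton]
        rw [hhhigh, Finset.mem_filter] at hU'
        have c1 := hcardle U' hU'.1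
        rw [← Nat.choose_symm c1]
        have := choose_mono_half p (show p - U'.card ≤ r0 by omega) (by omega)
        omega
    · obtain ⟨W, hW⟩ := hlow1
      have hl : hlow = {U} := by
        apply Finset.Subset.antisymm _ (by simpa using hU)
        intro X hX
        have a1 := hW hX
        have a2 := hW hU
        rw [Finset.mem_singleton] at a1 a2 ⊢
        rw [a1, a2]
      rw [hl, Finset.sum_singleton]
      rw [hhlow, Finset.mem_filter] at hU
      rcases Finset.eq_empty_or_nonempty hhigh with hh | ⟨U', hU'⟩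
      · rw [hh, Finset.sum_empty, Nat.add_zero]
        have := choose_mono_half p hU.2.2 (by omega)
        omega
      · obtain ⟨W, hW⟩ := hhigh1
        have : hhigh = {U'} := by
          apply Finset.Subset.antisymm _ (by simpa using hU')
          intro X hX
          have a1 := hW hX
          have a2 := hW hU'
          rw [Finset.mem_singleton] at a1 a2 ⊢
          rw [a1, a2]
        rw [this, Finset.sum_singleton]
        rw [hhhigh, Finset.mem_filter] at hU'
        have c1 := hcardle U' hU'.1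
        have hne : U ≠ U' := by
          rintro rfl
          omega
        rcases hss hU.1 hU'.1 hne with h | h
        · have h5 := hcol V U U' hV' (h𝒞.1 _ hU'.1) h hU.2.1 hU'.2.1
          rw [← Nat.choose_symm c1]
          have h6 := choose_add_choose_le p U.card (p - U'.card) (by omega)
          have h7 := choose_mono_half p (show U.card + (p - U'.card) ≤ r0 by omega) (by omega)
          omega
        · have h5 := Finset.card_lt_card h
          omega
  have hNsum : ∑ V ∈ 𝒟N, cw V ≤ 𝒟N.card * (p.choose r0 + 1) := by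
    calc ∑ V ∈ 𝒟N, cw V ≤ ∑ _V ∈ 𝒟N, (p.choose r0 + 1) := Finset.sum_le_sum hcolN
      _ = _ := by rw [Finset.sum_const, smul_eq_mul]
  change ∑ V ∈ 𝒟, cw V ≤ _
  rw [hsum, hICsum]
  have hICle : IC.card ≤ q := by rw [← hCencard]; exact Finset.card_le_card hICsub
  by_cases hcase : 𝒟.card ≤ q
  · obtain ⟨I', hI1, hI2, hI3⟩ := Finset.exists_subsuperset_card_eq hICsub
      (show IC.card ≤ 𝒟.card by omega) (by rw [hCencard]; exact hcase)
    have h1 : ∑ i ∈ I', p.choose i ≤ S p ℓ := sum_choose_le_S p ℓ I' (by omega)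
    have h2 : ∑ i ∈ I', p.choose i = ∑ i ∈ IC, p.choose i + ∑ i ∈ I' \ IC, p.choose i := by
      rw [add_comm]; exact (Finset.sum_sdiff hI1).symm
    have h3 : 𝒟N.card * (p.choose r0 + 1) ≤ ∑ i ∈ I' \ IC, p.choose i := by
      have h4 : (I' \ IC).card = 𝒟N.card := by
        rw [Finset.card_sdiff_of_subset hI1]; omega
      rw [← h4, ← smul_eq_mul, ← Finset.sum_const]
      apply Finset.sum_le_sum
      intro i hi
      exact hcenw i (hI2 (Finset.mem_sdiff.mp hi).1)
    omega
  · have hq1 : 𝒟.card = q + 1 := by omega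
    have hℓ : ℓ = q + 1 := by omega
    rw [if_pos hℓ]
    have hr0n : r0 ∉ Cen := by rw [hCen, Finset.mem_Ioo]; omega
    have h1 : ∑ i ∈ insert r0 Cen, p.choose i ≤ S p ℓ := sum_choose_le_S p ℓ _ (by
      rw [Finset.card_insert_of_notMem hr0n]; omega)
    rw [Finset.sum_insert hr0n] at h1
    have h2 : ∑ i ∈ Cen, p.choose i = ∑ i ∈ IC, p.choose i + ∑ i ∈ Cen \ IC, p.choose i := by
      rw [add_comm]; exact (Finset.sum_sdiff hICsub).symm
    have h4 : (Cen \ IC).card + 1 = 𝒟N.card := by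
      rw [Finset.card_sdiff_of_subset hICsub]; omega
    have h3 : (Cen \ IC).card * (p.choose r0 + 1) ≤ ∑ i ∈ Cen \ IC, p.choose i := by
      rw [← smul_eq_mul, ← Finset.sum_const]
      apply Finset.sum_le_sum
      intro i hi
      exact hcenw i (Finset.mem_sdiff.mp hi).1
    have h5 : 𝒟N.card * (p.choose r0 + 1) =
        (Cen \ IC).card * (p.choose r0 + 1) + (p.choose r0 + 1) := by
      rw [← h4]; ring
    omega

theorem far_le (Y1 Y2 : Finset ι) (k : ℕ) (H : Finset ι → Finset ι → Prop)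
    [∀ U V, Decidable (H U V)] (hq : Y1.card + Y2.card + 1 = 2 * k)
    (hrow : ∀ U V V', U ⊆ Y1 → V' ⊆ Y2 → V ⊂ V' → H U V → ¬ H U V')
    (hcol : ∀ V U U', V ⊆ Y2 → U' ⊆ Y1 → U ⊂ U' → H U V → H U' V → U.card + k ≤ U'.card) :
    ∑ U ∈ Y1.powerset, ∑ V ∈ Y2.powerset, (if H U V then 1 else 0) ≤
      (2 * k - 1).choose k + 1 := by
  classical
  have hk : 1 ≤ k := by omega
  have hmid : (2 * k - 1).choose ((2 * k - 1) / 2) = (2 * k - 1).choose k := by
    obtain ⟨m, rfl⟩ : ∃ m, k = m + 1 := ⟨k - 1, by omega⟩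
    rw [show 2 * (m + 1) - 1 = 2 * m + 1 by omega, show (2 * m + 1) / 2 = m by omega]
    exact (Nat.choose_symm_half m).symm
  rcases Nat.lt_or_ge Y1.card k with hlt | hge
  · have := grid_mult Y1 Y2 (fun U V => if H U V then 1 else 0) 1 (by
      intro U hU 𝒟 h𝒟
      rw [Finset.sum_boole]
      simp only [Nat.cast_id]
      rw [Finset.card_le_one]
      intro V hV V' hV'
      rw [Finset.mem_filter] at hV hV'
      by_contra hne
      rcases h𝒟.comp hV.1 hV'.1 with h | h
      · exact hrow U V V' hU (h𝒟.1 _ hV'.1) (Finset.ssubset_iff_subset_ne.mpr ⟨h, hne⟩)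
          hV.2 hV'.2
      · exact hrow U V' V hU (h𝒟.1 _ hV.1)
          (Finset.ssubset_iff_subset_ne.mpr ⟨h, fun h' => hne h'.symm⟩) hV'.2 hV.2) (by
      intro V hV 𝒞 h𝒞
      rw [Finset.sum_boole]
      simp only [Nat.cast_id]
      rw [Finset.card_le_one]
      intro U hU U' hU'
      rw [Finset.mem_filter] at hU hU'
      by_contra hne
      rcases h𝒞.comp hU.1 hU'.1 with h | h
      · have h1 := hcol V U U' hV (h𝒞.1 _ hU'.1) (Finset.ssubset_iff_subset_ne.mpr ⟨h, hne⟩)
          hU.2 hU'.2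
        have h2 := Finset.card_le_card (h𝒞.1 _ hU'.1)
        omega
      · have h1 := hcol V U' U hV (h𝒞.1 _ hU.1)
          (Finset.ssubset_iff_subset_ne.mpr ⟨h, fun h' => hne h'.symm⟩) hU'.2 hU.2
        have h2 := Finset.card_le_card (h𝒞.1 _ hU.1)
        omega)
    rw [one_mul, show Y1.card + Y2.card = 2 * k - 1 by omega, hmid] at this
    exact this.trans (Nat.le_succ _)
  · obtain ⟨r0, hr0⟩ : ∃ r0, Y1.card = k + r0 := ⟨Y1.card - k, by omega⟩
    have := two_level Y1 Y2 (fun U V => if H U V then (1 : ℝ) else 0) 1 1 (by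
      intro 𝒞 𝒟 h𝒞 h𝒟 ℓ hℓ1 hℓ2
      have h1 := far_core Y1 Y2 k r0 Y2.card H hr0 (by omega) hrow hcol 𝒞 𝒟 h𝒞 h𝒟 ℓ
        hℓ1 hℓ2
      have h2 : ∑ U ∈ 𝒞, (∑ V ∈ 𝒟, (if H U V then (1 : ℝ) else 0)) * (Y1.card.choose U.card : ℝ) =
          ((∑ V ∈ 𝒟, ∑ U ∈ 𝒞, (if H U V then (k + r0).choose U.card else 0) : ℕ) : ℝ) := by
        rw [Finset.sum_comm]
        push_cast
        apply Finset.sum_congr rfl
        intro U _
        rw [Finset.sum_mul]
        apply Finset.sum_congr rfl
        intro V _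
        rw [hr0]
        split_ifs <;> simp
      rw [h2, one_mul, hr0]
      calc _ ≤ ((S (k + r0) ℓ + (if ℓ = Y2.card + 1 then 1 else 0) : ℕ) : ℝ) := by
            exact_mod_cast h1
        _ = _ := by push_cast; rfl)
    rw [one_mul, S_one, show Y1.card + Y2.card = 2 * k - 1 by omega, hmid] at this
    exact_mod_cast this

end Pool.Agent.Helper14.ZeroSum
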