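import Mathlib
import Pool.Agent.Helper14.ZeroSum.Far
import Pool.Agent.Helper14.ZeroSum.Central

/-!
Bounds for the number of subsets with prescribed sum, for positive weights in an ordered
cancellative monoid.
-/

namespace Pool.Agent.Helper14.ZeroSum

open Finset

section
variable {ι : Type*} [DecidableEq ι] {G : Type*} [AddCommMonoid G] [LinearOrder G]
  [IsOrderedCancelAddMonoid G]

/-- number of subsets `C` of `J` with `c + a(C) = s` -/
def zs (a : ι → G) (J : Finset ι) (c s : G) : ℕ :=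
  (J.powerset.filter (fun C => c + ∑ i ∈ C, a i = s)).card

omit [IsOrderedCancelAddMonoid G] in
theorem zs_union (a : ι → G) (X Y : Finset ι) (h : Disjoint X Y) (c s : G) :
    zs a (X ∪ Y) c s = ∑ U ∈ X.powerset, zs a Y (c + ∑ i ∈ U, a i) s := by
  unfold zs
  rw [Finset.card_filter, sum_powerset_union X Y h]
  apply Finset.sum_congr rfl
  intro V hV
  rw [Finset.card_filter]
  apply Finset.sum_congr rfl
  intro U hU
  rw [Finset.mem_powerset] at hV hU
  rw [Finset.sum_union (Finset.disjoint_of_subset_left hV (Finset.disjoint_of_subset_right hU h)),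
    add_assoc]

omit [IsOrderedCancelAddMonoid G] in
theorem zs_union_le (a : ι → G) (W R : Finset ι) (h : Disjoint W R) (K : ℕ) (c s : G)
    (hK : ∀ T ⊆ W, zs a R (c + ∑ i ∈ T, a i) s ≤ K) :
    zs a (W ∪ R) c s ≤ 2 ^ W.card * K := by
  rw [zs_union a W R h]
  calc _ ≤ ∑ _V ∈ W.powerset, K := by
        apply Finset.sum_le_sum
        intro V hV
        exact hK V (Finset.mem_powerset.mp hV)
    _ = _ := by rw [Finset.sum_const, Finset.card_powerset, smul_eq_mul]

omit [IsOrderedCancelAddMonoid G] in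
theorem zs_core (a : ι → G) (Pv Y1 Y2 : Finset ι) (h12 : Disjoint Y1 Y2)
    (h : Disjoint (Y1 ∪ Y2) Pv) (c s : G) :
    zs a ((Y1 ∪ Y2) ∪ Pv) c s = ∑ U ∈ Y1.powerset, ∑ V ∈ Y2.powerset,
      zs a Pv (c + (∑ i ∈ U, a i + ∑ i ∈ V, a i)) s := by
  rw [zs_union a _ _ h, sum_powerset_union Y1 Y2 h12]
  apply Finset.sum_congr rfl
  intro U hU
  apply Finset.sum_congr rfl
  intro V hV
  rw [Finset.mem_powerset] at hU hV
  rw [Finset.sum_union
    (Finset.disjoint_of_subset_left hU (Finset.disjoint_of_subset_right hV h12))]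

omit [IsOrderedCancelAddMonoid G] in
theorem zs_insert (a : ι → G) (Pv : Finset ι) (e : ι) (he : e ∉ Pv) (c s : G) :
    zs a (insert e Pv) c s = zs a Pv c s + zs a Pv (c + a e) s := by
  unfold zs
  rw [Finset.card_filter, Finset.sum_powerset_insert he, Finset.card_filter, Finset.card_filter]
  congr 1
  apply Finset.sum_congr rfl
  intro T hT
  rw [Finset.mem_powerset] at hT
  rw [Finset.sum_insert (fun h => he (hT h)), add_assoc]

omit [IsOrderedCancelAddMonoid G] [DecidableEq ι] in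
theorem zs_empty (a : ι → G) (c s : G) : zs a ∅ c s = if c = s then 1 else 0 := by
  unfold zs
  rw [Finset.powerset_empty, Finset.card_filter, Finset.sum_singleton, Finset.sum_empty, add_zero]

omit [IsOrderedCancelAddMonoid G] in
theorem zs_single (a : ι → G) (e : ι) (c s : G) :
    zs a {e} c s = (if c = s then 1 else 0) + (if c + a e = s then 1 else 0) := by
  have := zs_insert a ∅ e (Finset.notMem_empty e) c s
  rw [zs_empty, zs_empty] at this
  exact this

/-- at most `M` hits along a chain of subsets of `Y` -/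
def RowBound (a : ι → G) (Pv Y : Finset ι) (M : ℕ) : Prop :=
  ∀ 𝒟, ChainIn Y 𝒟 → ∀ c s, ∑ V ∈ 𝒟, zs a Pv (c + ∑ i ∈ V, a i) s ≤ M

omit [IsOrderedCancelAddMonoid G] in
theorem grid_zs (a : ι → G) (Pv Y1 Y2 : Finset ι) (M : ℕ) (h12 : Disjoint Y1 Y2)
    (h : Disjoint (Y1 ∪ Y2) Pv) (hr1 : RowBound a Pv Y1 M) (hr2 : RowBound a Pv Y2 M) (c s : G) :
    zs a ((Y1 ∪ Y2) ∪ Pv) c s ≤
      M * ((Y1.card + Y2.card).choose ((Y1.card + Y2.card) / 2)) := by
  rw [zs_core a Pv Y1 Y2 h12 h]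
  apply grid_mult Y1 Y2 (fun U V => zs a Pv (c + (∑ i ∈ U, a i + ∑ i ∈ V, a i)) s) M
  · intro U _ 𝒟 h𝒟
    have := hr2 𝒟 h𝒟 (c + ∑ i ∈ U, a i) s
    simpa only [add_assoc] using this
  · intro V _ 𝒞 h𝒞
    have := hr1 𝒞 h𝒞 (c + ∑ i ∈ V, a i) s
    refine le_trans (le_of_eq ?_) this
    apply Finset.sum_congr rfl
    intro U _
    rw [add_assoc, add_comm (∑ i ∈ U, a i)]

omit [IsOrderedCancelAddMonoid G] in
theorem rowBound_insert (a : ι → G) (Pv Y : Finset ι) (M : ℕ) (e : ι) (he : e ∉ Pv)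
    (h : RowBound a Pv Y M) : RowBound a (insert e Pv) Y (2 * M) := by
  intro 𝒟 h𝒟 c s
  simp only [zs_insert a Pv e he, Finset.sum_add_distrib]
  have h1 := h 𝒟 h𝒟 c s
  have h2 := h 𝒟 h𝒟 (c + a e) s
  have h3 : ∑ V ∈ 𝒟, zs a Pv (c + ∑ i ∈ V, a i + a e) s =
      ∑ V ∈ 𝒟, zs a Pv (c + a e + ∑ i ∈ V, a i) s := by
    apply Finset.sum_congr rfl
    intro V _
    rw [add_right_comm]
  omega

omit [DecidableEq ι] in
/-- strict monotonicity of sums of positive elements -/
theorem sum_lt_of_ssubset (a : ι → G) {V V' : Finset ι} (h : V ⊂ V')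
    (hpos : ∀ i ∈ V', 0 < a i) : ∑ i ∈ V, a i < ∑ i ∈ V', a i := by
  obtain ⟨e, he, he'⟩ := Finset.exists_of_ssubset h
  exact Finset.sum_lt_sum_of_subset h.1 he he' (hpos e he) (fun j hj _ => (hpos j hj).le)

theorem rowBound_single (a : ι → G) (e : ι) (Y : Finset ι) (he : 0 < a e)
    (hpos : ∀ i ∈ Y, 0 < a i) (h : ∀ D ⊆ Y, ∑ i ∈ D, a i ≠ a e) : RowBound a {e} Y 1 := by
  intro 𝒟 h𝒟 c s
  simp only [zs_single, Finset.sum_add_distrib, Finset.sum_boole, Nat.cast_id]
  -- key: comparable elements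
  have key : ∀ V ∈ 𝒟, ∀ V' ∈ 𝒟, c + ∑ i ∈ V, a i = s → c + ∑ i ∈ V', a i + a e = s → False := by
    intro V hV V' hV' e1 e2
    have e3 : ∑ i ∈ V, a i = ∑ i ∈ V', a i + a e := by
      rw [← e2, add_assoc] at e1
      exact add_left_cancel e1
    rcases h𝒟.comp hV hV' with hs | hs
    · have h1 : ∑ i ∈ V, a i ≤ ∑ i ∈ V', a i :=
        Finset.sum_le_sum_of_subset_of_nonneg hs (fun i hi _ => (hpos i (h𝒟.1 V' hV' hi)).le)
      rw [e3] at h1
      have h2 : ∑ i ∈ V', a i < ∑ i ∈ V', a i + a e := lt_add_of_pos_right _ he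
      exact absurd h1 (not_le.mpr h2)
    · have h1 := Finset.sum_sdiff (f := a) hs
      rw [e3, add_comm] at h1
      exact h _ (Finset.sdiff_subset.trans (h𝒟.1 V hV)) (add_left_cancel h1)
  have one : ∀ c' : G, (𝒟.filter (fun V => c' + ∑ i ∈ V, a i = s)).card ≤ 1 := by
    intro c'
    rw [Finset.card_le_one]
    intro V hV V' hV'
    rw [Finset.mem_filter] at hV hV'
    by_contra hne
    have e3 : ∑ i ∈ V, a i = ∑ i ∈ V', a i := by
      have := hV.2.trans hV'.2.symm
      exact add_left_cancel this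
    rcases h𝒟.comp hV.1 hV'.1 with hs | hs
    · have := sum_lt_of_ssubset a (Finset.ssubset_iff_subset_ne.mpr ⟨hs, hne⟩)
        (fun i hi => hpos i (h𝒟.1 V' hV'.1 hi))
      exact absurd e3 this.ne
    · have := sum_lt_of_ssubset a
        (Finset.ssubset_iff_subset_ne.mpr ⟨hs, fun h' => hne h'.symm⟩)
        (fun i hi => hpos i (h𝒟.1 V hV.1 hi))
      exact absurd e3.symm this.ne
  have h2 : 𝒟.filter (fun V => c + ∑ i ∈ V, a i + a e = s) =
      𝒟.filter (fun V => (c + a e) + ∑ i ∈ V, a i = s) := by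
    apply Finset.filter_congr
    intro V _
    rw [add_right_comm]
  rcases Finset.eq_empty_or_nonempty (𝒟.filter (fun V => c + ∑ i ∈ V, a i = s)) with h0 | ⟨V, hV⟩
  · rw [h0, Finset.card_empty, Nat.zero_add, h2]
    exact one _
  · have h1 : 𝒟.filter (fun V => c + ∑ i ∈ V, a i + a e = s) = ∅ := by
      rw [Finset.filter_eq_empty_iff]
      intro V' hV' hcon
      rw [Finset.mem_filter] at hV
      exact key V hV.1 V' hV' hV.2 hcon
    rw [h1, Finset.card_empty, Nat.add_zero]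
    exact one c

theorem sperner_finset (B : Finset ι) (𝒜 : Finset (Finset ι)) (hsub : ∀ U ∈ 𝒜, U ⊆ B)
    (hanti : ∀ U ∈ 𝒜, ∀ V ∈ 𝒜, ¬ U ⊂ V) : 𝒜.card ≤ B.card.choose (B.card / 2) := by
  have := lym_chain B (fun U => if U ∈ 𝒜 then (1 : ℝ) else 0)
    ((B.card.choose (B.card / 2) : ℕ) : ℝ) (by
      intro 𝒞 h𝒞
      simp only [ite_mul, one_mul, zero_mul]
      rw [← Finset.sum_filter]
      have hc : (𝒞.filter (fun U => U ∈ 𝒜)).card ≤ 1 := by
        rw [Finset.card_le_one]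
        intro U hU V hV
        rw [Finset.mem_filter] at hU hV
        by_contra hne
        rcases h𝒞.comp hU.1 hV.1 with h | h
        · exact hanti U hU.2 V hV.2 (Finset.ssubset_iff_subset_ne.mpr ⟨h, hne⟩)
        · exact hanti V hV.2 U hU.2
            (Finset.ssubset_iff_subset_ne.mpr ⟨h, fun h' => hne h'.symm⟩)
      calc ∑ U ∈ 𝒞.filter (fun U => U ∈ 𝒜), (B.card.choose U.card : ℝ)
          ≤ ∑ _U ∈ 𝒞.filter (fun U => U ∈ 𝒜), ((B.card.choose (B.card / 2) : ℕ) : ℝ) := by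
            apply Finset.sum_le_sum
            intro U _
            exact_mod_cast Nat.choose_le_middle _ _
        _ = (𝒞.filter (fun U => U ∈ 𝒜)).card * ((B.card.choose (B.card / 2) : ℕ) : ℝ) := by
            rw [Finset.sum_const, nsmul_eq_mul]
        _ ≤ 1 * ((B.card.choose (B.card / 2) : ℕ) : ℝ) := by
            apply mul_le_mul_of_nonneg_right _ (by positivity)
            exact_mod_cast hc
        _ = _ := one_mul _)
  rw [Finset.sum_boole] at this
  have h2 : B.powerset.filter (fun U => U ∈ 𝒜) = 𝒜 := by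
    ext U
    rw [Finset.mem_filter, Finset.mem_powerset]
    exact ⟨fun h => h.2, fun h => ⟨hsub U h, h⟩⟩
  rw [h2] at this
  exact_mod_cast this

theorem rowBound_big (a : ι → G) (B Y : Finset ι) (b0 : G) (hb0 : 0 < b0)
    (hB : ∀ i ∈ B, b0 ≤ a i)
    (hpos : ∀ i ∈ Y, 0 < a i) (hY : ∑ i ∈ Y, a i < b0) :
    RowBound a B Y (B.card.choose (B.card / 2)) := by
  intro 𝒟 h𝒟 c s
  have hBpos : ∀ i ∈ B, 0 < a i := fun i hi => hb0.trans_le (hB i hi)
  set 𝒜 : Finset (Finset ι) := B.powerset.filter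
    (fun E => ∃ V ∈ 𝒟, c + ∑ i ∈ V, a i + ∑ i ∈ E, a i = s) with h𝒜
  have h1 : ∑ V ∈ 𝒟, zs a B (c + ∑ i ∈ V, a i) s ≤ 𝒜.card := by
    have e1 : ∑ V ∈ 𝒟, zs a B (c + ∑ i ∈ V, a i) s =
        ∑ E ∈ B.powerset, (𝒟.filter (fun V => c + ∑ i ∈ V, a i + ∑ i ∈ E, a i = s)).card := by
      unfold zs
      simp only [Finset.card_filter]
      rw [Finset.sum_comm]
    rw [e1, h𝒜, Finset.card_filter]
    apply Finset.sum_le_sum
    intro E _
    split_ifs with hE
    · rw [Finset.card_le_one]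
      intro V hV V' hV'
      rw [Finset.mem_filter] at hV hV'
      by_contra hne
      have e3 : ∑ i ∈ V, a i = ∑ i ∈ V', a i := by
        have := hV.2.trans hV'.2.symm
        exact add_left_cancel (add_right_cancel this)
      rcases h𝒟.comp hV.1 hV'.1 with hs | hs
      · have := sum_lt_of_ssubset a (Finset.ssubset_iff_subset_ne.mpr ⟨hs, hne⟩)
          (fun i hi => hpos i (h𝒟.1 V' hV'.1 hi))
        exact absurd e3 this.ne
      · have := sum_lt_of_ssubset a
          (Finset.ssubset_iff_subset_ne.mpr ⟨hs, fun h' => hne h'.symm⟩)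
          (fun i hi => hpos i (h𝒟.1 V hV.1 hi))
        exact absurd e3.symm this.ne
    · rw [Nat.le_zero, Finset.card_eq_zero, Finset.filter_eq_empty_iff]
      intro V hV hcon
      exact hE ⟨V, hV, hcon⟩
  refine h1.trans (sperner_finset B 𝒜 ?_ ?_)
  · intro U hU
    rw [h𝒜, Finset.mem_filter, Finset.mem_powerset] at hU
    exact hU.1
  · intro E hE E' hE' hss
    rw [h𝒜, Finset.mem_filter, Finset.mem_powerset] at hE hE'
    obtain ⟨hEB, V, hV, e1⟩ := hE
    obtain ⟨hEB', V', hV', e2⟩ := hE'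
    obtain ⟨x, hx, hx'⟩ := Finset.exists_of_ssubset hss
    have h3 : ∑ i ∈ E' \ E, a i + ∑ i ∈ E, a i = ∑ i ∈ E', a i := Finset.sum_sdiff hss.1
    have h4 : b0 ≤ ∑ i ∈ E' \ E, a i := by
      have h5 : a x ≤ ∑ i ∈ E' \ E, a i :=
        Finset.single_le_sum (f := a)
          (fun i hi => (hBpos i (hEB' (Finset.mem_sdiff.mp hi).1)).le)
          (Finset.mem_sdiff.mpr ⟨hx, hx'⟩)
      exact (hB x (hEB' hx)).trans h5
    have e4 : ∑ i ∈ V, a i + ∑ i ∈ E, a i = ∑ i ∈ V', a i + ∑ i ∈ E', a i := by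
      have := e1.trans e2.symm
      rw [add_assoc, add_assoc] at this
      exact add_left_cancel this
    rw [← h3, ← add_assoc] at e4
    have e5 := add_right_cancel e4
    have h6 : ∑ i ∈ V, a i ≤ ∑ i ∈ Y, a i :=
      Finset.sum_le_sum_of_subset_of_nonneg (h𝒟.1 V hV) (fun i hi _ => (hpos i hi).le)
    have h7 : 0 ≤ ∑ i ∈ V', a i :=
      Finset.sum_nonneg (fun i hi => (hpos i (h𝒟.1 V' hV' hi)).le)
    have h8 : b0 ≤ ∑ i ∈ V, a i := by
      rw [e5]
      calc b0 = 0 + b0 := (zero_add _).symm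
        _ ≤ _ := add_le_add h7 h4
    exact absurd (h8.trans h6) (not_le.mpr hY)

/-- the bound `2^n * (1/2) * lam k`. -/
def Half (k n N : ℕ) : Prop := (N : ℝ) ≤ 2 ^ n * (1 / 2 * lam k)

/-- the final form of the bound -/
def Fin' (k n N : ℕ) : Prop := 4 ^ k * N ≤ 2 ^ n * (1 + (2 * k - 1).choose k)

theorem lam_four_pow {k : ℕ} (hk : 1 ≤ k) :
    (lam k) * 4 ^ k = 2 * ((2 * k - 1).choose k : ℝ) := by
  unfold lam
  have h2 : Nat.centralBinom k = 2 * (2 * k - 1).choose k := by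
    obtain ⟨m, rfl⟩ : ∃ m, k = m + 1 := ⟨k - 1, by omega⟩
    have h3 : (2 * m + 1).choose (m + 1) = (2 * m + 1).choose m := Nat.choose_symm_half m
    rw [Nat.centralBinom_eq_two_mul_choose, show 2 * (m + 1) = (2 * m + 1) + 1 by ring,
      Nat.choose_succ_succ, show 2 * m + 1 + 1 - 1 = 2 * m + 1 by omega, h3]
    ring
  rw [h2]
  push_cast
  field_simp

theorem fin_of_half {k n N : ℕ} (hk : 1 ≤ k) (h : Half k n N) : Fin' k n N := by
  unfold Half at h
  unfold Fin'
  have h1 := lam_four_pow hk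
  have h3 : (4 : ℝ) ^ k * N ≤ 2 ^ n * (1 + (2 * k - 1).choose k) := by
    calc (4 : ℝ) ^ k * N ≤ 4 ^ k * (2 ^ n * (1 / 2 * lam k)) :=
          mul_le_mul_of_nonneg_left h (by positivity)
      _ = 2 ^ n * (1 / 2 * (lam k * 4 ^ k)) := by ring
      _ = 2 ^ n * ((2 * k - 1).choose k : ℝ) := by rw [h1]; ring
      _ ≤ _ := by
          apply mul_le_mul_of_nonneg_left _ (by positivity)
          linarith
  exact_mod_cast h3

omit [IsOrderedCancelAddMonoid G] in
theorem half_of_rows (a : ι → G) (J Pv Y1 Y2 : Finset ι) (M k : ℕ) (hPv : Pv ⊆ J) (hY1 : Y1 ⊆ J)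
    (hY2 : Y2 ⊆ J) (h12 : Disjoint Y1 Y2) (h1 : Disjoint Y1 Pv) (h2 : Disjoint Y2 Pv)
    (hr1 : RowBound a Pv Y1 M) (hr2 : RowBound a Pv Y2 M)
    (hnum : (M : ℝ) * lam ((Y1.card + Y2.card + 1) / 2) ≤ 2 ^ Pv.card * (1 / 2 * lam k))
    (c s : G) : Half k J.card (zs a J c s) := by
  have hd : Disjoint (Y1 ∪ Y2) Pv := Finset.disjoint_union_left.mpr ⟨h1, h2⟩
  set R := (Y1 ∪ Y2) ∪ Pv with hR
  have hRJ : R ⊆ J := Finset.union_subset (Finset.union_subset hY1 hY2) hPv
  have hRc : R.card = Y1.card + Y2.card + Pv.card := by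
    rw [hR, Finset.card_union_of_disjoint hd, Finset.card_union_of_disjoint h12]
  have hcard : (J \ R).card + R.card = J.card := by
    rw [Finset.card_sdiff_of_subset hRJ]
    have := Finset.card_le_card hRJ
    omega
  have hm := zs_union_le a (J \ R) R Finset.sdiff_disjoint
    (M * ((Y1.card + Y2.card).choose ((Y1.card + Y2.card) / 2))) c s
    (fun T _ => grid_zs a Pv Y1 Y2 M h12 hd hr1 hr2 _ s)
  rw [Finset.sdiff_union_of_subset hRJ] at hm
  unfold Half
  have h3 : (zs a J c s : ℝ) ≤ 2 ^ (J \ R).card *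
      (M * ((Y1.card + Y2.card).choose ((Y1.card + Y2.card) / 2) : ℝ)) := by exact_mod_cast hm
  rw [middle_eq_lam] at h3
  calc (zs a J c s : ℝ) ≤ _ := h3
    _ = 2 ^ (J \ R).card * 2 ^ (Y1.card + Y2.card) *
        (M * lam ((Y1.card + Y2.card + 1) / 2)) := by ring
    _ ≤ 2 ^ (J \ R).card * 2 ^ (Y1.card + Y2.card) * (2 ^ Pv.card * (1 / 2 * lam k)) :=
        mul_le_mul_of_nonneg_left hnum (by positivity)
    _ = 2 ^ J.card * (1 / 2 * lam k) := by
        rw [← hcard, hRc]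
        ring

/-- one pivot -/
theorem rule_T1 (a : ι → G) (J Y1 Y2 : Finset ι) (e : ι) (k : ℕ) (hpos : ∀ i ∈ J, 0 < a i)
    (he : e ∈ J) (hY1 : Y1 ⊆ J) (hY2 : Y2 ⊆ J) (h12 : Disjoint Y1 Y2) (h1 : e ∉ Y1) (h2 : e ∉ Y2)
    (hc1 : ∀ D ⊆ Y1, ∑ i ∈ D, a i ≠ a e) (hc2 : ∀ D ⊆ Y2, ∑ i ∈ D, a i ≠ a e)
    (hk : 2 * k ≤ Y1.card + Y2.card + 1) (c s : G) : Half k J.card (zs a J c s) := by
  apply half_of_rows a J {e} Y1 Y2 1 k (by simpa using he) hY1 hY2 h12
    (by simpa using h1) (by simpa using h2)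
    (rowBound_single a e Y1 (hpos e he) (fun i hi => hpos i (hY1 hi)) hc1)
    (rowBound_single a e Y2 (hpos e he) (fun i hi => hpos i (hY2 hi)) hc2)
  have := lam_antitone (show k ≤ (Y1.card + Y2.card + 1) / 2 by omega)
  rw [Finset.card_singleton]
  push_cast
  linarith

/-- two pivots -/
theorem rule_T2 (a : ι → G) (J Y1 Y2 : Finset ι) (e f : ι) (k : ℕ) (hpos : ∀ i ∈ J, 0 < a i)
    (he : e ∈ J) (hf : f ∈ J) (hef : e ≠ f) (hY1 : Y1 ⊆ J) (hY2 : Y2 ⊆ J) (h12 : Disjoint Y1 Y2)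
    (he1 : e ∉ Y1) (he2 : e ∉ Y2) (hf1 : f ∉ Y1) (hf2 : f ∉ Y2)
    (hc1 : ∀ D ⊆ Y1, ∑ i ∈ D, a i ≠ a e) (hc2 : ∀ D ⊆ Y2, ∑ i ∈ D, a i ≠ a f)
    (hk : 2 * k ≤ Y1.card + Y2.card + 1) (c s : G) : Half k J.card (zs a J c s) := by
  have hr1 : RowBound a {f, e} Y1 (2 * 1) := rowBound_insert a {e} Y1 1 f
    (by simpa using hef.symm)
    (rowBound_single a e Y1 (hpos e he) (fun i hi => hpos i (hY1 hi)) hc1)
  have hr2 : RowBound a {e, f} Y2 (2 * 1) := rowBound_insert a {f} Y2 1 e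
    (by simpa using hef)
    (rowBound_single a f Y2 (hpos f hf) (fun i hi => hpos i (hY2 hi)) hc2)
  rw [Finset.pair_comm] at hr2
  apply half_of_rows a J {f, e} Y1 Y2 (2 * 1) k (by
      intro x hx
      rcases Finset.mem_insert.mp hx with rfl | hx
      · exact hf
      · rw [Finset.mem_singleton] at hx; rw [hx]; exact he) hY1 hY2 h12
    (by
      rw [Finset.disjoint_right]
      intro x hx
      rcases Finset.mem_insert.mp hx with rfl | hx
      · exact hf1
      · rw [Finset.mem_singleton] at hx; rw [hx]; exact he1)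
    (by
      rw [Finset.disjoint_right]
      intro x hx
      rcases Finset.mem_insert.mp hx with rfl | hx
      · exact hf2
      · rw [Finset.mem_singleton] at hx; rw [hx]; exact he2) hr1 hr2
  have := lam_antitone (show k ≤ (Y1.card + Y2.card + 1) / 2 by omega)
  rw [Finset.card_pair hef.symm]
  push_cast
  linarith

/-- many large pivots -/
theorem rule_G (a : ι → G) (J B Y1 Y2 : Finset ι) (b0 : G) (k : ℕ) (hpos : ∀ i ∈ J, 0 < a i)
    (hBJ : B ⊆ J) (hY1 : Y1 ⊆ J) (hY2 : Y2 ⊆ J) (h12 : Disjoint Y1 Y2) (h1 : Disjoint Y1 B)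
    (h2 : Disjoint Y2 B) (hb0 : 0 < b0) (hB : ∀ i ∈ B, b0 ≤ a i)
    (hs1 : ∑ i ∈ Y1, a i < b0) (hs2 : ∑ i ∈ Y2, a i < b0)
    (hk : (B.card = 1 ∧ 2 * k ≤ Y1.card + Y2.card + 1) ∨
      (2 ≤ B.card ∧ 1 ≤ Y1.card + Y2.card ∧ 2 * k + 1 ≤ Y1.card + Y2.card + B.card))
    (c s : G) : Half k J.card (zs a J c s) := by
  apply half_of_rows a J B Y1 Y2 (B.card.choose (B.card / 2)) k hBJ hY1 hY2 h12 h1 h2
    (rowBound_big a B Y1 b0 hb0 hB (fun i hi => hpos i (hY1 hi)) hs1)
    (rowBound_big a B Y2 b0 hb0 hB (fun i hi => hpos i (hY2 hi)) hs2)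
  rw [middle_eq_lam, mul_assoc]
  apply mul_le_mul_of_nonneg_left _ (by positivity)
  rcases hk with ⟨hb, hk⟩ | ⟨hb, hy, hk⟩
  · rw [hb]
    have := lam_antitone (show k ≤ (Y1.card + Y2.card + 1) / 2 by omega)
    have h3 : lam ((1 + 1) / 2) = 1 / 2 := by
      rw [show (1 + 1) / 2 = 1 by norm_num, lam_one]
    rw [h3]
    linarith
  · obtain ⟨α, hα⟩ : ∃ α, (B.card + 1) / 2 = α + 1 := ⟨(B.card + 1) / 2 - 1, by omega⟩
    obtain ⟨β, hβ⟩ : ∃ β, (Y1.card + Y2.card + 1) / 2 = β + 1 :=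
      ⟨(Y1.card + Y2.card + 1) / 2 - 1, by omega⟩
    rw [hα, hβ]
    refine (lam_mul_le α β).trans ?_
    have := lam_antitone (show k ≤ α + β + 1 by omega)
    linarith

theorem hit_cases {c u v v' A s : G} (hA : 0 < A) (hlt : v < v')
    (h1 : c + (u + v) = s ∨ c + (u + v) + A = s)
    (h2 : c + (u + v') = s ∨ c + (u + v') + A = s) : v + A = v' ∧ c + (u + v') = s := by
  have key : ∀ {x y : G}, c + (u + x) = c + (u + y) → x = y := fun h =>
    add_left_cancel (add_left_cancel h)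
  rcases h1 with h1 | h1 <;> rcases h2 with h2 | h2
  · exact absurd (key (h1.trans h2.symm)) hlt.ne
  · have h3 : c + (u + v) = c + (u + (v' + A)) := by
      rw [h1, ← h2]
      simp only [add_assoc]
    have h5 : v < v' + A := hlt.trans (lt_add_of_pos_right _ hA)
    exact absurd (key h3) h5.ne
  · have h3 : c + (u + (v + A)) = c + (u + v') := by
      rw [h2, ← h1]
      simp only [add_assoc]
    exact ⟨key h3, h2⟩
  · have h3 := add_right_cancel (h1.trans h2.symm)
    exact absurd (key h3) hlt.ne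

/-- the far rule -/
theorem rule_far (a : ι → G) (J P Y : Finset ι) (e : ι) (k : ℕ) (hpos : ∀ i ∈ J, 0 < a i)
    (he : e ∈ J) (hP : P ⊆ J) (hY : Y ⊆ J) (hPY : Disjoint P Y) (heP : e ∉ P) (heY : e ∉ Y)
    (hk : P.card + Y.card + 1 = 2 * k) (c s : G)
    (hcol : ∀ D ⊆ P, ∑ i ∈ D, a i = a e → k ≤ D.card)
    (hrow : ∀ C ⊆ J, e ∉ C → c + ∑ i ∈ C, a i = s → ∀ D ⊆ C, D ⊆ Y → ∑ i ∈ D, a i ≠ a e) :
    Fin' k J.card (zs a J c s) := by
  have hd : Disjoint (P ∪ Y) {e} := by
    rw [Finset.disjoint_singleton_right, Finset.mem_union]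
    rintro (h | h)
    · exact heP h
    · exact heY h
  have hapos := hpos e he
  set R := (P ∪ Y) ∪ {e} with hR
  have hRJ : R ⊆ J := Finset.union_subset (Finset.union_subset hP hY) (by simpa using he)
  have hRc : R.card = 2 * k := by
    rw [hR, Finset.card_union_of_disjoint hd, Finset.card_union_of_disjoint hPY,
      Finset.card_singleton]
    exact hk
  have hcard : (J \ R).card + R.card = J.card := by
    rw [Finset.card_sdiff_of_subset hRJ]
    have := Finset.card_le_card hRJ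
    omega
  have hm := zs_union_le a (J \ R) R Finset.sdiff_disjoint ((2 * k - 1).choose k + 1) c s (by
    intro T hT
    rw [hR, zs_core a {e} P Y hPY hd]
    set c' := c + ∑ i ∈ T, a i with hc'
    -- hits
    have hone : ∀ U V : Finset ι, zs a {e} (c' + (∑ i ∈ U, a i + ∑ i ∈ V, a i)) s =
        if (c' + (∑ i ∈ U, a i + ∑ i ∈ V, a i) = s ∨
          c' + (∑ i ∈ U, a i + ∑ i ∈ V, a i) + a e = s) then 1 else 0 := by
      intro U V
      rw [zs_single]
      by_cases h1 : c' + (∑ i ∈ U, a i + ∑ i ∈ V, a i) = s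
      · have h2 : ¬ (c' + (∑ i ∈ U, a i + ∑ i ∈ V, a i) + a e = s) := by
          intro h
          rw [h1] at h
          have := lt_add_of_pos_right s hapos
          exact absurd h this.ne'
        rw [if_pos h1, if_neg h2, if_pos (Or.inl h1)]
      · rw [if_neg h1]
        by_cases h2 : c' + (∑ i ∈ U, a i + ∑ i ∈ V, a i) + a e = s
        · rw [if_pos h2, if_pos (Or.inr h2)]
        · rw [if_neg h2, if_neg (by rintro (h | h); exacts [h1 h, h2 h])]
    simp only [hone]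
    apply far_le P Y k (fun U V => c' + (∑ i ∈ U, a i + ∑ i ∈ V, a i) = s ∨
          c' + (∑ i ∈ U, a i + ∑ i ∈ V, a i) + a e = s) hk
    · -- rows
      intro U V V' hU hV' hVV' h1 h2
      have hVpos : ∀ i ∈ V', 0 < a i := fun i hi => hpos i (hY (hV' hi))
      have hlt := sum_lt_of_ssubset a hVV' hVpos
      obtain ⟨h4, h2⟩ := hit_cases hapos hlt h1 h2
      have h5 := Finset.sum_sdiff (f := a) hVV'.1
      rw [← h4, add_comm] at h5
      have h6 := add_left_cancel h5
      -- use hrow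
      have hTR : Disjoint T R := Finset.disjoint_of_subset_left hT Finset.sdiff_disjoint
      have hUV : Disjoint U V' :=
        Finset.disjoint_of_subset_left hU (Finset.disjoint_of_subset_right hV' hPY)
      have hUVR : U ∪ V' ⊆ R := by
        rw [hR]
        exact (Finset.union_subset_union hU hV').trans Finset.subset_union_left
      have hTUV : Disjoint T (U ∪ V') := Finset.disjoint_of_subset_right hUVR hTR
      apply hrow (T ∪ (U ∪ V')) (Finset.union_subset
          (hT.trans Finset.sdiff_subset) (hUVR.trans hRJ)) _ _ (V' \ V)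
          (Finset.sdiff_subset.trans (Finset.subset_union_right.trans
            Finset.subset_union_right)) (Finset.sdiff_subset.trans hV') h6
      · intro hmem
        rw [Finset.mem_union, Finset.mem_union] at hmem
        rcases hmem with h | h | h
        · have := (Finset.mem_sdiff.mp (hT h)).2
          apply this
          rw [hR]
          simp
        · exact heP (hU h)
        · exact heY (hV' h)
      · rw [Finset.sum_union hTUV, Finset.sum_union hUV, ← add_assoc, ← hc']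
        exact h2
    · -- columns
      intro V U U' hV hU' hUU' h1 h2
      have hUpos : ∀ i ∈ U', 0 < a i := fun i hi => hpos i (hP (hU' hi))
      have hlt := sum_lt_of_ssubset a hUU' hUpos
      rw [add_comm (∑ i ∈ U, a i)] at h1
      rw [add_comm (∑ i ∈ U', a i)] at h2
      obtain ⟨h4, _⟩ := hit_cases hapos hlt h1 h2
      have h5 := Finset.sum_sdiff (f := a) hUU'.1
      rw [← h4, add_comm] at h5
      have h6 := add_left_cancel h5
      have h7 := hcol (U' \ U) (Finset.sdiff_subset.trans hU') h6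
      rw [Finset.card_sdiff_of_subset hUU'.1] at h7
      have h8 := Finset.card_lt_card hUU'
      omega)
  rw [Finset.sdiff_union_of_subset hRJ] at hm
  unfold Fin'
  calc 4 ^ k * zs a J c s ≤ 4 ^ k * (2 ^ (J \ R).card * ((2 * k - 1).choose k + 1)) :=
        Nat.mul_le_mul_left _ hm
    _ = 2 ^ J.card * (1 + (2 * k - 1).choose k) := by
        rw [← hcard, hRc, pow_add, show (4 : ℕ) = 2 ^ 2 by norm_num, ← pow_mul]
        ring

end

end Pool.Agent.Helper14.ZeroSum
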