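import Mathlib
import Pool.Agent.Helper14.ZeroSum.Rules

/-!
Two lemmas on subset sums of natural numbers, and the rule with ones.
-/

namespace Pool.Agent.Helper14.ZeroSum

open Finset

section
variable {κ : Type*} [DecidableEq κ]

/-- If the excess (sum minus number of elements) of every subfamily of sum at most `X` is at
most `E`, then so is the excess of the whole family. -/
theorem lemmaE (c : κ → ℕ) (T : Finset κ) (X E : ℕ) (hc2 : ∀ i ∈ T, 2 ≤ c i)
    (hcX : ∀ i ∈ T, c i ≤ X) (hE : 2 * E + 2 ≤ X)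
    (h : ∀ W ⊆ T, ∑ i ∈ W, c i ≤ X → ∑ i ∈ W, c i ≤ W.card + E) :
    ∑ i ∈ T, c i ≤ T.card + E := by
  by_contra hcon
  push Not at hcon
  set F := T.powerset.filter (fun W => W.card + E < ∑ i ∈ W, c i) with hF
  have hne : F.Nonempty := ⟨T, by rw [hF, Finset.mem_filter, Finset.mem_powerset]; exact
    ⟨Finset.Subset.refl _, hcon⟩⟩
  obtain ⟨W, hW, hmin⟩ := Finset.exists_min_image F (fun W => W.card) hne
  rw [hF, Finset.mem_filter, Finset.mem_powerset] at hW
  obtain ⟨hWT, hWs⟩ := hW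
  have hWX : X < ∑ i ∈ W, c i := by
    by_contra h1
    push Not at h1
    have := h W hWT h1
    omega
  have hWne : W.Nonempty := by
    rw [Finset.nonempty_iff_ne_empty]
    rintro rfl
    simp at hWs
  obtain ⟨i, hi, himin⟩ := Finset.exists_min_image W c hWne
  have hsum : c i + ∑ j ∈ W.erase i, c j = ∑ j ∈ W, c j := Finset.add_sum_erase W c hi
  have hcard : (W.erase i).card + 1 = W.card := Finset.card_erase_add_one hi
  have herase : ∑ j ∈ W.erase i, c j ≤ (W.erase i).card + E := by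
    by_contra h1
    push Not at h1
    have := hmin (W.erase i) (by
      rw [hF, Finset.mem_filter, Finset.mem_powerset]
      exact ⟨(Finset.erase_subset _ _).trans hWT, h1⟩)
    omega
  have hlow : (W.erase i).card * c i ≤ ∑ j ∈ W.erase i, c j := by
    rw [← smul_eq_mul, ← Finset.sum_const]
    exact Finset.sum_le_sum (fun j hj => himin j (Finset.mem_of_mem_erase hj))
  have hci2 := hc2 i (hWT hi)
  have hciX := hcX i (hWT hi)
  rcases Nat.eq_zero_or_pos (W.erase i).card with h0 | hpos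
  · rw [Finset.card_eq_zero] at h0
    rw [h0, Finset.sum_empty] at hsum
    omega
  · obtain ⟨m, hm⟩ : ∃ m, (W.erase i).card = m + 1 := ⟨(W.erase i).card - 1, by omega⟩
    obtain ⟨e, he⟩ : ∃ e, c i = e + 2 := ⟨c i - 2, by omega⟩
    rw [hm] at hlow herase hcard
    rw [he] at hlow hsum
    have h5 : (m + 1) * (e + 2) = m * e + 2 * m + e + 2 := by ring
    have h6 : 0 ≤ m * e := Nat.zero_le _
    omega

/-- A family of positive numbers with total at least `d` has a subfamily with sum at least `d`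
and controlled overshoot. -/
theorem lemmaS (c : κ → ℕ) (T : Finset κ) (d M : ℕ) (hc1 : ∀ i ∈ T, 1 ≤ c i)
    (hcM : ∀ i ∈ T, c i ≤ M) (hd : 1 ≤ d) (h : d ≤ ∑ i ∈ T, c i) :
    ∃ W ⊆ T, d ≤ ∑ i ∈ W, c i ∧ W.card + ∑ i ∈ W, c i ≤ d + max d M ∧
      ∑ i ∈ W, c i < d + M := by
  set F := T.powerset.filter (fun W => d ≤ ∑ i ∈ W, c i) with hF
  have hne : F.Nonempty := ⟨T, by rw [hF, Finset.mem_filter, Finset.mem_powerset]; exact
    ⟨Finset.Subset.refl _, h⟩⟩
  obtain ⟨W, hW, hmin⟩ := Finset.exists_min_image F (fun W => W.card) hne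
  rw [hF, Finset.mem_filter, Finset.mem_powerset] at hW
  obtain ⟨hWT, hWs⟩ := hW
  have hWne : W.Nonempty := by
    rw [Finset.nonempty_iff_ne_empty]
    rintro rfl
    simp at hWs
    omega
  obtain ⟨i, hi, himin⟩ := Finset.exists_min_image W c hWne
  have hsum : c i + ∑ j ∈ W.erase i, c j = ∑ j ∈ W, c j := Finset.add_sum_erase W c hi
  have hcard : (W.erase i).card + 1 = W.card := Finset.card_erase_add_one hi
  have herase : ∑ j ∈ W.erase i, c j < d := by
    by_contra h1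
    push Not at h1
    have := hmin (W.erase i) (by
      rw [hF, Finset.mem_filter, Finset.mem_powerset]
      exact ⟨(Finset.erase_subset _ _).trans hWT, h1⟩)
    omega
  have hlow : (W.erase i).card * c i ≤ ∑ j ∈ W.erase i, c j := by
    rw [← smul_eq_mul, ← Finset.sum_const]
    exact Finset.sum_le_sum (fun j hj => himin j (Finset.mem_of_mem_erase hj))
  have hci1 := hc1 i (hWT hi)
  have hciM := hcM i (hWT hi)
  refine ⟨W, hWT, hWs, ?_, by omega⟩
  rcases Nat.eq_zero_or_pos (W.erase i).card with h0 | hpos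
  · rw [Finset.card_eq_zero] at h0
    rw [h0, Finset.sum_empty] at hsum
    rw [h0, Finset.card_empty] at hcard
    have := le_max_right d M
    omega
  · obtain ⟨m, hm⟩ : ∃ m, (W.erase i).card = m + 1 := ⟨(W.erase i).card - 1, by omega⟩
    obtain ⟨e, he⟩ : ∃ e, c i = e + 1 := ⟨c i - 1, by omega⟩
    rw [hm] at hlow hcard
    rw [he] at hlow hsum
    have h5 : (m + 1) * (e + 1) = m * e + m + e + 1 := by ring
    have h6 : 0 ≤ m * e := Nat.zero_le _
    have := le_max_left d M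
    omega

/-- the rule with many large pivots, using `y` ones. -/
theorem rule_ones (a : κ → ℕ) (J B S O : Finset κ) (b0 k y : ℕ) (hpos : ∀ i ∈ J, 0 < a i)
    (hBJ : B ⊆ J) (hSJ : S ⊆ J) (hOJ : O ⊆ J) (hBS : Disjoint B S) (hBO : Disjoint B O)
    (hSO : Disjoint S O) (hO : ∀ i ∈ O, a i = 1) (hB : ∀ i ∈ B, b0 ≤ a i)
    (hS : ∑ i ∈ S, a i < b0) (hy : y ≤ O.card) (hyb : y + ∑ i ∈ S, a i + 2 ≤ 2 * b0)
    (hk : (B.card = 1 ∧ 2 * k ≤ S.card + y + 1) ∨
      (2 ≤ B.card ∧ 1 ≤ S.card + y ∧ 2 * k + 1 ≤ S.card + y + B.card))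
    (c s : ℕ) : Half k J.card (zs a J c s) := by
  set o1 := min y (b0 - 1 - ∑ i ∈ S, a i) with ho1
  set o2 := y - o1 with ho2
  obtain ⟨O1, hO1, hO1c⟩ := Finset.exists_subset_card_eq (show o1 ≤ O.card by omega)
  obtain ⟨O2, hO2, hO2c⟩ := Finset.exists_subset_card_eq (show o2 ≤ (O \ O1).card by
    rw [Finset.card_sdiff_of_subset hO1]; omega)
  have hO2' : O2 ⊆ O := hO2.trans Finset.sdiff_subset
  have hO12 : Disjoint O1 O2 := by
    rw [Finset.disjoint_right]
    intro x hx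
    exact (Finset.mem_sdiff.mp (hO2 hx)).2
  have hSO1 : Disjoint S O1 := Finset.disjoint_of_subset_right hO1 hSO
  have hSO2 : Disjoint S O2 := Finset.disjoint_of_subset_right hO2' hSO
  have hsum1 : ∑ i ∈ O1, a i = o1 := by
    rw [Finset.sum_congr rfl (fun i hi => hO i (hO1 hi)), Finset.sum_const, smul_eq_mul, mul_one,
      hO1c]
  have hsum2 : ∑ i ∈ O2, a i = o2 := by
    rw [Finset.sum_congr rfl (fun i hi => hO i (hO2' hi)), Finset.sum_const, smul_eq_mul, mul_one,
      hO2c]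
  have hc1 : (S ∪ O1).card = S.card + o1 := by
    rw [Finset.card_union_of_disjoint hSO1, hO1c]
  apply rule_G a J B (S ∪ O1) O2 b0 k hpos hBJ (Finset.union_subset hSJ (hO1.trans hOJ))
    (hO2'.trans hOJ) (Finset.disjoint_union_left.mpr ⟨hSO2, hO12⟩)
    (Finset.disjoint_union_left.mpr ⟨hBS.symm, (Finset.disjoint_of_subset_right hO1 hBO).symm⟩)
    (Finset.disjoint_of_subset_right hO2' hBO).symm (by omega) hB
  · rw [Finset.sum_union hSO1, hsum1]
    omega
  · rw [hsum2]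
    omega
  · rw [hc1, hO2c]
    rcases hk with ⟨h1, h2⟩ | ⟨h1, h2, h3⟩
    · left; omega
    · right; omega

/-- convenient form for at least two pivots. -/
theorem rule_ones2 (a : κ → ℕ) (J B S O : Finset κ) (b0 k : ℕ) (hpos : ∀ i ∈ J, 0 < a i)
    (hBJ : B ⊆ J) (hSJ : S ⊆ J) (hOJ : O ⊆ J) (hBS : Disjoint B S) (hBO : Disjoint B O)
    (hSO : Disjoint S O) (hO : ∀ i ∈ O, a i = 1) (hB : ∀ i ∈ B, b0 ≤ a i)
    (hS : ∑ i ∈ S, a i < b0) (hb2 : 2 ≤ B.card) (hO1 : 1 ≤ O.card) (hb0 : 2 ≤ b0)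
    (h1 : 2 * k + 1 ≤ B.card + S.card + O.card)
    (h2 : 2 * k + 3 + ∑ i ∈ S, a i ≤ 2 * b0 + B.card + S.card)
    (c s : ℕ) : Half k J.card (zs a J c s) := by
  apply rule_ones a J B S O b0 k (min O.card (2 * (b0 - 1) - ∑ i ∈ S, a i)) hpos hBJ hSJ hOJ hBS
    hBO hSO hO hB hS (min_le_left _ _) (by omega)
  right
  refine ⟨hb2, ?_, ?_⟩ <;> omega

end

end Pool.Agent.Helper14.ZeroSum
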