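import Mathlib
import Pool.Agent.Helper14.ZeroSum.Excess

/-!
The integer situation: the basic constraints.
-/

namespace Pool.Agent.Helper14.ZeroSum

open Finset

section
variable {κ : Type*} [Fintype κ] [DecidableEq κ]

/-- absolute values -/
def av (z : κ → ℤ) (i : κ) : ℕ := (z i).natAbs

/-- positive entries -/
def Pos (z : κ → ℤ) : Finset κ := Finset.univ.filter (fun i => 0 < z i)

/-- negative entries different from `i0` -/
def Qn (z : κ → ℤ) (i0 : κ) : Finset κ := Finset.univ.filter (fun i => z i < 0 ∧ i ≠ i0)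

/-- entries equal to `ε`, different from `i0` -/
def Oe (z : κ → ℤ) (i0 : κ) (ε : ℤ) : Finset κ := Finset.univ.filter (fun i => z i = ε ∧ i ≠ i0)

/-- entries `±1` -/
def ones (z : κ → ℤ) : Finset κ := Finset.univ.filter (fun i => av z i = 1)

/-- what is to be proved -/
def Goal (z : κ → ℤ) (k : ℕ) : Prop :=
  ∀ c s : ℕ, Fin' k (Fintype.card κ) (zs (av z) Finset.univ c s)

omit [DecidableEq κ] in
theorem mem_Pos {z : κ → ℤ} {i : κ} : i ∈ Pos z ↔ 0 < z i := by simp [Pos]

theorem mem_Qn {z : κ → ℤ} {i0 i : κ} : i ∈ Qn z i0 ↔ z i < 0 ∧ i ≠ i0 := by simp [Qn]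

theorem mem_Oe {z : κ → ℤ} {i0 i : κ} {ε : ℤ} : i ∈ Oe z i0 ε ↔ z i = ε ∧ i ≠ i0 := by simp [Oe]

omit [DecidableEq κ] in
theorem mem_ones {z : κ → ℤ} {i : κ} : i ∈ ones z ↔ av z i = 1 := by simp [ones]

omit [Fintype κ] [DecidableEq κ] in
theorem av_of_pos {z : κ → ℤ} {i : κ} (h : 0 < z i) : (av z i : ℤ) = z i := by
  unfold av; omega

omit [Fintype κ] [DecidableEq κ] in
theorem av_of_neg {z : κ → ℤ} {i : κ} (h : z i < 0) : (av z i : ℤ) = - z i := by
  unfold av; omega

omit [Fintype κ] [DecidableEq κ] in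
theorem sum_av_pos {z : κ → ℤ} {W : Finset κ} (h : ∀ i ∈ W, 0 < z i) :
    ∑ i ∈ W, z i = ((∑ i ∈ W, av z i : ℕ) : ℤ) := by
  push_cast
  exact Finset.sum_congr rfl (fun i hi => (av_of_pos (h i hi)).symm)

omit [Fintype κ] [DecidableEq κ] in
theorem sum_av_neg {z : κ → ℤ} {W : Finset κ} (h : ∀ i ∈ W, z i < 0) :
    ∑ i ∈ W, z i = - ((∑ i ∈ W, av z i : ℕ) : ℤ) := by
  push_cast
  rw [← Finset.sum_neg_distrib]
  exact Finset.sum_congr rfl (fun i hi => by rw [av_of_neg (h i hi)]; ring)

structure Ctx (z : κ → ℤ) (i0 : κ) (k t A : ℕ) : Prop where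
  hz : ∀ i, z i ≠ 0
  hsum : ∑ i, z i = 0
  hA : z i0 = -(A : ℤ)
  hC : ∀ B : Finset κ, i0 ∈ B → ∑ i ∈ B, z i = 0 → k + 1 ≤ B.card
  hk : 2 ≤ k
  ht : 1 ≤ t
  hcard : Fintype.card κ = 2 * k + t + 1

variable {z : κ → ℤ} {i0 : κ} {k t A : ℕ}

omit [DecidableEq κ] in
theorem Ctx.hA1 (h : Ctx z i0 k t A) : 1 ≤ A := by
  have := h.hz i0
  have := h.hA
  omega

omit [DecidableEq κ] in
theorem Ctx.avpos (h : Ctx z i0 k t A) (i : κ) : 0 < av z i := by
  have := h.hz i
  unfold av
  omega

omit [DecidableEq κ] in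
theorem Ctx.av0 (h : Ctx z i0 k t A) : av z i0 = A := by
  have := h.hA
  unfold av
  omega

theorem Ctx.cases (h : Ctx z i0 k t A) (i : κ) : i = i0 ∨ i ∈ Pos z ∨ i ∈ Qn z i0 := by
  rw [mem_Pos, mem_Qn]
  have := h.hz i
  by_cases hi : i = i0
  · left; exact hi
  · right
    rcases lt_or_gt_of_ne this with h1 | h1
    · right; exact ⟨h1, hi⟩
    · left; exact h1

omit [DecidableEq κ] in
theorem Ctx.i0_notMem_Pos (h : Ctx z i0 k t A) : i0 ∉ Pos z := by
  rw [mem_Pos, h.hA]
  have := h.hA1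
  omega

/-- The basic constraint. -/
theorem Ctx.cons (h : Ctx z i0 k t A) (ε : ℤ) (hε : ε = 1 ∨ ε = -1) (W : Finset κ)
    (hi0 : i0 ∉ W) (hW : ∀ i ∈ W, z i ≠ ε) (h0 : 0 ≤ ε * ((A : ℤ) - ∑ i ∈ W, z i))
    (h1 : ε * ((A : ℤ) - ∑ i ∈ W, z i) ≤ (Oe z i0 ε).card) :
    (k : ℤ) ≤ W.card + ε * ((A : ℤ) - ∑ i ∈ W, z i) := by
  obtain ⟨d, hd⟩ := Int.eq_ofNat_of_zero_le h0
  rw [hd] at h1 ⊢
  have h1' : d ≤ (Oe z i0 ε).card := by exact_mod_cast h1
  obtain ⟨T, hT, hTc⟩ := Finset.exists_subset_card_eq h1'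
  have hTz : ∀ i ∈ T, z i = ε := fun i hi => (mem_Oe.mp (hT hi)).1
  have hWT : Disjoint W T := by
    rw [Finset.disjoint_left]
    intro i hi hi'
    exact hW i hi (hTz i hi')
  have hi0' : i0 ∉ W ∪ T := by
    rw [Finset.mem_union]
    rintro (h2 | h2)
    · exact hi0 h2
    · exact (mem_Oe.mp (hT h2)).2 rfl
  have hsum : ∑ i ∈ insert i0 (W ∪ T), z i = 0 := by
    rw [Finset.sum_insert hi0', Finset.sum_union hWT, h.hA, Finset.sum_congr rfl hTz,
      Finset.sum_const, hTc, nsmul_eq_mul]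
    rcases hε with rfl | rfl
    · linarith
    · linarith
  have := h.hC _ (Finset.mem_insert_self _ _) hsum
  rw [Finset.card_insert_of_notMem hi0', Finset.card_union_of_disjoint hWT, hTc] at this
  omega

/-- The excess of a family of sign `ε`. -/
theorem Ctx.exc (h : Ctx z i0 k t A) (ε : ℤ) (hε : ε = 1 ∨ ε = -1) (F T : Finset κ) (X E : ℕ)
    (hF0 : i0 ∉ F) (hT0 : i0 ∉ T) (hFT : Disjoint F T) (hFε : ∀ i ∈ F, z i ≠ ε)
    (hT : ∀ i ∈ T, z i = ε * (av z i : ℤ) ∧ 2 ≤ av z i ∧ av z i ≤ X)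
    (hX : ε * ((A : ℤ) - ∑ i ∈ F, z i) = X) (hXO : X ≤ (Oe z i0 ε).card)
    (hE : F.card + X = k + E) (hE2 : 2 * E + 2 ≤ X) :
    ∑ i ∈ T, av z i ≤ T.card + E := by
  apply lemmaE (av z) T X E (fun i hi => (hT i hi).2.1) (fun i hi => (hT i hi).2.2) hE2
  intro W hW hWX
  have hFW : Disjoint F W := Finset.disjoint_of_subset_right hW hFT
  have hsumW : ∑ i ∈ W, z i = ε * ((∑ i ∈ W, av z i : ℕ) : ℤ) := by
    push_cast
    rw [Finset.mul_sum]
    exact Finset.sum_congr rfl (fun i hi => (hT i (hW hi)).1)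
  have hε2 : ε * ε = 1 := by rcases hε with rfl | rfl <;> norm_num
  have hval : ε * ((A : ℤ) - ∑ i ∈ F ∪ W, z i) = (X : ℤ) - ((∑ i ∈ W, av z i : ℕ) : ℤ) := by
    rw [Finset.sum_union hFW, hsumW, ← hX]
    linear_combination (-((∑ i ∈ W, av z i : ℕ) : ℤ)) * hε2
  have := h.cons ε hε (F ∪ W) (by
      rw [Finset.mem_union]
      rintro (h2 | h2)
      · exact hF0 h2
      · exact hT0 (hW h2)) (by
      intro i hi
      rw [Finset.mem_union] at hi
      rcases hi with hi | hi
      · exact hFε i hi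
      · intro he
        have := (hT i (hW hi))
        rw [he] at this
        have h3 : (av z i : ℤ) = 1 := by
          have h4 := this.1
          rcases hε with rfl | rfl
          · linarith
          · linarith
        omega) (by rw [hval]; omega) (by rw [hval]; omega)
  rw [hval, Finset.card_union_of_disjoint hFW] at this
  omega

/-- The total of a family of sign `-ε` of small entries. -/
theorem Ctx.small (h : Ctx z i0 k t A) (ε : ℤ) (hε : ε = 1 ∨ ε = -1) (F T : Finset κ) (d M : ℕ)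
    (hF0 : i0 ∉ F) (hT0 : i0 ∉ T) (hFT : Disjoint F T) (hFε : ∀ i ∈ F, z i ≠ ε)
    (hT : ∀ i ∈ T, z i = -ε * (av z i : ℤ) ∧ av z i ≤ M)
    (hd : ε * ((A : ℤ) - ∑ i ∈ F, z i) = -(d : ℤ)) (hd1 : 1 ≤ d)
    (hMO : M ≤ (Oe z i0 ε).card + 1) (hfk : F.card + max d M < k) :
    ∑ i ∈ T, av z i < d := by
  by_contra hcon
  push Not at hcon
  obtain ⟨W, hW, hW1, hW2, hW3⟩ := lemmaS (av z) T d M (fun i _ => h.avpos i)
    (fun i hi => (hT i hi).2) hd1 hcon
  have hFW : Disjoint F W := Finset.disjoint_of_subset_right hW hFT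
  have hsumW : ∑ i ∈ W, z i = -ε * ((∑ i ∈ W, av z i : ℕ) : ℤ) := by
    push_cast
    rw [Finset.mul_sum]
    exact Finset.sum_congr rfl (fun i hi => (hT i (hW hi)).1)
  have hε2 : ε * ε = 1 := by rcases hε with rfl | rfl <;> norm_num
  have hval : ε * ((A : ℤ) - ∑ i ∈ F ∪ W, z i) = ((∑ i ∈ W, av z i : ℕ) : ℤ) - d := by
    rw [Finset.sum_union hFW, hsumW]
    linear_combination hd + ((∑ i ∈ W, av z i : ℕ) : ℤ) * hε2
  have := h.cons ε hε (F ∪ W) (by
      rw [Finset.mem_union]
      rintro (h2 | h2)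
      · exact hF0 h2
      · exact hT0 (hW h2)) (by
      intro i hi
      rw [Finset.mem_union] at hi
      rcases hi with hi | hi
      · exact hFε i hi
      · intro he
        have h4 := (hT i (hW hi)).1
        have h5 := h.avpos i
        rw [he] at h4
        rcases hε with rfl | rfl
        · omega
        · omega) (by rw [hval]; omega) (by rw [hval]; omega)
  rw [hval, Finset.card_union_of_disjoint hFW] at this
  omega

/-- The far rule in context. -/
theorem Ctx.far (h : Ctx z i0 k t A) (hp : (Pos z).card + 1 ≤ 2 * k) (Y : Finset κ)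
    (hY : Y ⊆ Qn z i0) (hYc : 2 * k ≤ (Pos z).card + Y.card + 1)
    (hYA : ∀ D ⊆ Y, ∑ i ∈ D, av z i ≠ A) : Goal z k := by
  intro c s
  obtain ⟨Y', hY', hY'c⟩ := Finset.exists_subset_card_eq
    (show 2 * k - 1 - (Pos z).card ≤ Y.card by omega)
  have hYQ := hY'.trans hY
  have := rule_far (av z) Finset.univ (Pos z) Y' i0 k (fun i _ => h.avpos i)
    (Finset.mem_univ _) (Finset.subset_univ _) (Finset.subset_univ _) (by
      rw [Finset.disjoint_left]
      intro i hi hi'
      have h1 := mem_Pos.mp hi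
      have h2 := (mem_Qn.mp (hYQ hi')).1
      omega) h.i0_notMem_Pos (by
      intro hmem
      exact (mem_Qn.mp (hYQ hmem)).2 rfl) (by omega) c s (by
      intro D hD hDA
      rw [h.av0] at hDA
      have hi0D : i0 ∉ D := fun hmem => h.i0_notMem_Pos (hD hmem)
      have hs : ∑ i ∈ insert i0 D, z i = 0 := by
        rw [Finset.sum_insert hi0D, h.hA, sum_av_pos (fun i hi => mem_Pos.mp (hD hi)), hDA]
        ring
      have := h.hC _ (Finset.mem_insert_self _ _) hs
      rw [Finset.card_insert_of_notMem hi0D] at this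
      omega) (by
      intro C _ _ _ D _ hDY
      rw [h.av0]
      exact hYA D (hDY.trans hY'))
  rwa [Finset.card_univ] at this

/-- many positive entries -/
theorem Ctx.manyPos (h : Ctx z i0 k t A) (hp : 2 * k ≤ (Pos z).card + 1) : Goal z k := by
  intro c s
  obtain ⟨P, hP, hPc⟩ := Finset.exists_subset_card_eq
    (show 2 * k - 1 ≤ (Pos z).card by omega)
  have hk := h.hk
  have := rule_far (av z) Finset.univ P ∅ i0 k (fun i _ => h.avpos i)
    (Finset.mem_univ _) (Finset.subset_univ _) (Finset.subset_univ _)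
    (Finset.disjoint_empty_right _) (fun hmem => h.i0_notMem_Pos (hP hmem))
    (Finset.notMem_empty _) (by rw [Finset.card_empty]; omega) c s (by
      intro D hD hDA
      rw [h.av0] at hDA
      have hi0D : i0 ∉ D := fun hmem => h.i0_notMem_Pos (hP (hD hmem))
      have hs : ∑ i ∈ insert i0 D, z i = 0 := by
        rw [Finset.sum_insert hi0D, h.hA, sum_av_pos (fun i hi => mem_Pos.mp (hP (hD hi))), hDA]
        ring
      have := h.hC _ (Finset.mem_insert_self _ _) hs
      rw [Finset.card_insert_of_notMem hi0D] at this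
      omega) (by
      intro C _ _ _ D _ hDY
      rw [Finset.subset_empty.mp hDY, Finset.sum_empty, h.av0]
      have := h.hA1
      omega)
  rwa [Finset.card_univ] at this

/-- many ones and a large entry -/
theorem Ctx.manyOnes (h : Ctx z i0 k t A) (j : κ) (hj : k ≤ av z j)
    (hp : 2 * k ≤ (ones z).card + 1) : Goal z k := by
  intro c s
  obtain ⟨P, hP, hPc⟩ := Finset.exists_subset_card_eq
    (show 2 * k - 1 ≤ (ones z).card by omega)
  have hk := h.hk
  have := rule_far (av z) Finset.univ P ∅ j k (fun i _ => h.avpos i)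
    (Finset.mem_univ _) (Finset.subset_univ _) (Finset.subset_univ _)
    (Finset.disjoint_empty_right _) (fun hmem => by
      have := mem_ones.mp (hP hmem)
      omega)
    (Finset.notMem_empty _) (by rw [Finset.card_empty]; omega) c s (by
      intro D hD hDA
      rw [Finset.sum_congr rfl (fun i hi => mem_ones.mp (hP (hD hi))), Finset.sum_const,
        smul_eq_mul, mul_one] at hDA
      omega) (by
      intro C _ _ _ D _ hDY
      rw [Finset.subset_empty.mp hDY, Finset.sum_empty]
      omega)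
  rwa [Finset.card_univ] at this

/-- few ones -/
theorem Ctx.fewOnes (h : Ctx z i0 k t A) (V : ℕ) (j j1 : κ) (hj : av z j = V) (hV : 2 ≤ V)
    (hj1 : av z j1 = 1) (hmu : (ones z).card ≤ V + t) : Goal z k := by
  intro c s
  have hk := h.hk
  have hmu1 : 1 ≤ (ones z).card := Finset.card_pos.mpr ⟨j1, mem_ones.mpr hj1⟩
  set Y1 : Finset κ := (Finset.univ \ ones z).erase j with hY1
  have hjn : j ∉ ones z := by rw [mem_ones]; omega
  have hY1c : Y1.card + (ones z).card + 1 = 2 * k + t + 1 := by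
    rw [hY1, Finset.card_erase_of_mem (Finset.mem_sdiff.mpr ⟨Finset.mem_univ _, hjn⟩),
      Finset.card_sdiff_of_subset (Finset.subset_univ _), Finset.card_univ, h.hcard]
    have h1 : (ones z).card < (Finset.univ : Finset κ).card :=
      Finset.card_lt_card (Finset.ssubset_univ_iff.mpr (fun he => hjn (he ▸ Finset.mem_univ _)))
    rw [Finset.card_univ, h.hcard] at h1
    omega
  obtain ⟨Y2, hY2, hY2c⟩ := Finset.exists_subset_card_eq
    (show min ((ones z).card - 1) (V - 1) ≤ ((ones z).erase j1).card by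
      rw [Finset.card_erase_of_mem (mem_ones.mpr hj1)]
      exact min_le_left _ _)
  have hY2o : ∀ i ∈ Y2, av z i = 1 := fun i hi =>
    mem_ones.mp (Finset.mem_of_mem_erase (hY2 hi))
  have hY1m : ∀ i ∈ Y1, 2 ≤ av z i := by
    intro i hi
    have h1 := (Finset.mem_sdiff.mp (Finset.mem_of_mem_erase hi)).2
    rw [mem_ones] at h1
    have := h.avpos i
    omega
  have := rule_T2 (av z) Finset.univ Y1 Y2 j1 j k (fun i _ => h.avpos i) (Finset.mem_univ _)
    (Finset.mem_univ _) (by rintro rfl; omega) (Finset.subset_univ _) (Finset.subset_univ _) (by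
      rw [Finset.disjoint_left]
      intro i hi hi'
      have h1 := hY1m i hi
      have h2 := hY2o i hi'
      omega) (fun hmem => by have := hY1m j1 hmem; omega)
    (fun hmem => (Finset.mem_erase.mp (hY2 hmem)).1 rfl)
    (fun hmem => (Finset.mem_erase.mp hmem).1 rfl)
    (fun hmem => by have := hY2o j hmem; omega) (by
      intro D hD hDs
      rw [hj1] at hDs
      rcases Finset.eq_empty_or_nonempty D with rfl | ⟨i, hi⟩
      · simp at hDs
      · have h1 := Finset.single_le_sum (f := av z) (fun i _ => Nat.zero_le _) hi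
        have h2 := hY1m i (hD hi)
        omega) (by
      intro D hD hDs
      rw [Finset.sum_congr rfl (fun i hi => hY2o i (hD hi)), Finset.sum_const, smul_eq_mul,
        mul_one, hj] at hDs
      have h1 := Finset.card_le_card hD
      omega) (by omega) c s
  rw [Finset.card_univ] at this
  exact fin_of_half (by omega) this

/-- the pivot rule in context -/
theorem Ctx.piv (h : Ctx z i0 k t A) (B S : Finset κ) (b0 : ℕ) (hBS : Disjoint B S)
    (hB : ∀ i ∈ B, b0 ≤ av z i) (hS2 : ∀ i ∈ S, 2 ≤ av z i) (hb0 : 2 ≤ b0)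
    (hS : ∑ i ∈ S, av z i < b0) (hb2 : 2 ≤ B.card) (hO1 : 1 ≤ (ones z).card)
    (h1 : 2 * k + 1 ≤ B.card + S.card + (ones z).card)
    (h2 : 2 * k + 3 + ∑ i ∈ S, av z i ≤ 2 * b0 + B.card + S.card) : Goal z k := by
  intro c s
  have hk := h.hk
  have := rule_ones2 (av z) Finset.univ B S (ones z) b0 k (fun i _ => h.avpos i)
    (Finset.subset_univ _) (Finset.subset_univ _) (Finset.subset_univ _) hBS (by
      rw [Finset.disjoint_left]
      intro i hi hi'
      have h3 := hB i hi
      have h4 := mem_ones.mp hi'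
      omega) (by
      rw [Finset.disjoint_left]
      intro i hi hi'
      have h3 := hS2 i hi
      have h4 := mem_ones.mp hi'
      omega) (fun i hi => mem_ones.mp hi) hB hS hb2 hO1 hb0 h1 h2 c s
  rw [Finset.card_univ] at this
  exact fin_of_half (by omega) this

theorem cover_card (B S O : Finset κ) (h : ∀ i, i ∈ B ∨ i ∈ S ∨ i ∈ O) :
    Fintype.card κ ≤ B.card + S.card + O.card := by
  have h1 : (Finset.univ : Finset κ) ⊆ B ∪ S ∪ O := by
    intro i _
    rw [Finset.mem_union, Finset.mem_union]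
    rcases h i with h1 | h1 | h1
    · left; left; exact h1
    · left; right; exact h1
    · right; exact h1
  calc Fintype.card κ = (Finset.univ : Finset κ).card := (Finset.card_univ).symm
    _ ≤ (B ∪ S ∪ O).card := Finset.card_le_card h1
    _ ≤ (B ∪ S).card + O.card := Finset.card_union_le _ _
    _ ≤ B.card + S.card + O.card := by
        have := Finset.card_union_le B S
        omega

theorem cover_card1 (i0 : κ) (B S O : Finset κ) (h : ∀ i, i ≠ i0 → i ∈ B ∨ i ∈ S ∨ i ∈ O) :
    Fintype.card κ ≤ B.card + S.card + O.card + 1 := by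
  have h1 := cover_card (insert i0 B) S O (by
    intro i
    by_cases hi : i = i0
    · left; rw [hi]; exact Finset.mem_insert_self _ _
    · rcases h i hi with h2 | h2
      · left; exact Finset.mem_insert_of_mem h2
      · right; exact h2)
  have h2 := Finset.card_insert_le i0 B
  omega

/-- positive and negative parts have the same sum -/
theorem Ctx.balance (h : Ctx z i0 k t A) :
    ∑ i ∈ Pos z, av z i = A + ∑ i ∈ Qn z i0, av z i := by
  have h1 : (Finset.univ : Finset κ) = insert i0 (Pos z ∪ Qn z i0) := by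
    ext i
    simp only [Finset.mem_univ, Finset.mem_insert, Finset.mem_union, true_iff]
    exact h.cases i
  have h2 : i0 ∉ Pos z ∪ Qn z i0 := by
    rw [Finset.mem_union]
    rintro (h3 | h3)
    · exact h.i0_notMem_Pos h3
    · exact (mem_Qn.mp h3).2 rfl
  have h3 : Disjoint (Pos z) (Qn z i0) := by
    rw [Finset.disjoint_left]
    intro i hi hi'
    have h1 := mem_Pos.mp hi
    have h2 := (mem_Qn.mp hi').1
    omega
  have h4 := h.hsum
  rw [h1, Finset.sum_insert h2, Finset.sum_union h3, h.hA,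
    sum_av_pos (z := z) (fun i hi => mem_Pos.mp hi),
    sum_av_neg (z := z) (fun i hi => (mem_Qn.mp hi).1)] at h4
  omega

theorem Ctx.card_parts (h : Ctx z i0 k t A) :
    (Pos z).card + (Qn z i0).card + 1 = 2 * k + t + 1 := by
  have h1 : (Finset.univ : Finset κ) = insert i0 (Pos z ∪ Qn z i0) := by
    ext i
    simp only [Finset.mem_univ, Finset.mem_insert, Finset.mem_union, true_iff]
    exact h.cases i
  have h2 : i0 ∉ Pos z ∪ Qn z i0 := by
    rw [Finset.mem_union]
    rintro (h3 | h3)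
    · exact h.i0_notMem_Pos h3
    · exact (mem_Qn.mp h3).2 rfl
  have h3 : Disjoint (Pos z) (Qn z i0) := by
    rw [Finset.disjoint_left]
    intro i hi hi'
    have h1 := mem_Pos.mp hi
    have h2 := (mem_Qn.mp hi').1
    omega
  have h4 := h.hcard
  rw [← Finset.card_univ, h1, Finset.card_insert_of_notMem h2,
    Finset.card_union_of_disjoint h3] at h4
  exact h4

/-- counting the ones -/
theorem Ctx.ones_le (_h : Ctx z i0 k t A) :
    (ones z).card ≤ (Oe z i0 1).card + (Oe z i0 (-1)).card + 1 := by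
  have h1 : ones z ⊆ insert i0 (Oe z i0 1 ∪ Oe z i0 (-1)) := by
    intro i hi
    rw [mem_ones] at hi
    rw [Finset.mem_insert, Finset.mem_union, mem_Oe, mem_Oe]
    by_cases h0 : i = i0
    · left; exact h0
    · right
      unfold av at hi
      rcases Int.natAbs_eq (z i) with h2 | h2
      · left; exact ⟨by omega, h0⟩
      · right; exact ⟨by omega, h0⟩
  calc (ones z).card ≤ _ := Finset.card_le_card h1
    _ ≤ (Oe z i0 1 ∪ Oe z i0 (-1)).card + 1 := Finset.card_insert_le _ _
    _ ≤ _ := by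
        have := Finset.card_union_le (Oe z i0 1) (Oe z i0 (-1))
        omega

theorem Ctx.ones_le' (h : Ctx z i0 k t A) (hA2 : 2 ≤ A) :
    (ones z).card ≤ (Oe z i0 1).card + (Oe z i0 (-1)).card := by
  have h1 : ones z ⊆ Oe z i0 1 ∪ Oe z i0 (-1) := by
    intro i hi
    rw [mem_ones] at hi
    rw [Finset.mem_union, mem_Oe, mem_Oe]
    have h0 : i ≠ i0 := by
      rintro rfl
      rw [h.av0] at hi
      omega
    unfold av at hi
    rcases Int.natAbs_eq (z i) with h2 | h2
    · left; exact ⟨by omega, h0⟩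
    · right; exact ⟨by omega, h0⟩
  exact (Finset.card_le_card h1).trans (Finset.card_union_le _ _)

end

end Pool.Agent.Helper14.ZeroSum
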