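import Mathlib
import Pool.Agent.Helper14.ZeroSum.Ctx

/-!
The integer situation: many entries equal to `+1`.
-/

namespace Pool.Agent.Helper14.ZeroSum

open Finset

section
variable {κ : Type*} [Fintype κ] [DecidableEq κ]

structure Ctx2 (z : κ → ℤ) (i0 : κ) (k t A V : ℕ) : Prop extends Ctx z i0 k t A where
  hV : ∀ i, av z i ≤ V
  hmu : V + t + 1 ≤ (ones z).card
  hmu2 : k ≤ V → (ones z).card + 2 ≤ 2 * k
  hp : (Pos z).card + 2 ≤ 2 * k

variable {z : κ → ℤ} {i0 : κ} {k t A V : ℕ}

/-- entries at least two -/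
def P2 (z : κ → ℤ) : Finset κ := Finset.univ.filter (fun i => 2 ≤ z i)

omit [DecidableEq κ] in
theorem mem_P2 {z : κ → ℤ} {i : κ} : i ∈ P2 z ↔ 2 ≤ z i := by simp [P2]

theorem Ctx.pos_split (h : Ctx z i0 k t A) :
    (Pos z).card = (Oe z i0 1).card + (P2 z).card ∧
    ∑ i ∈ Pos z, av z i = (Oe z i0 1).card + ∑ i ∈ P2 z, av z i := by
  have hd : Disjoint (Oe z i0 1) (P2 z) := by
    rw [Finset.disjoint_left]
    intro i hi hi'
    have h1 := (mem_Oe.mp hi).1
    have h2 := mem_P2.mp hi'
    omega
  have hu : Pos z = Oe z i0 1 ∪ P2 z := by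
    ext i
    rw [Finset.mem_union, mem_Pos, mem_Oe, mem_P2]
    constructor
    · intro hi
      by_cases h1 : z i = 1
      · left
        refine ⟨h1, ?_⟩
        rintro rfl
        have := h.hA
        omega
      · right; omega
    · rintro (⟨hi, _⟩ | hi) <;> omega
  constructor
  · rw [hu, Finset.card_union_of_disjoint hd]
  · rw [hu, Finset.sum_union hd]
    congr 1
    rw [Finset.sum_congr rfl (fun i hi => show av z i = 1 by
      have := (mem_Oe.mp hi).1
      unfold av; omega), Finset.sum_const, smul_eq_mul, mul_one]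

theorem Ctx2.tiny (h : Ctx2 z i0 k t A V) (hkA : k ≤ A)
    (hs : ∑ i ∈ P2 z, av z i + k ≤ (P2 z).card + A) : Goal z k := by
  have h1 := h.balance
  obtain ⟨h2, h3⟩ := h.pos_split
  have hp := h.hp
  have hc := h.card_parts
  apply h.far (by omega) (Qn z i0) (Finset.Subset.refl _) (by omega)
  intro D hD hDA
  have h4 : ∑ i ∈ D, av z i ≤ ∑ i ∈ Qn z i0, av z i :=
    Finset.sum_le_sum_of_subset hD
  omega

omit [DecidableEq κ] in
theorem Ctx2.VA (h : Ctx2 z i0 k t A V) : A ≤ V := by
  have := h.hV i0
  rw [h.av0] at this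
  exact this

omit [DecidableEq κ] in
theorem Ctx2.Vk (h : Ctx2 z i0 k t A V) (hk : k ≤ V) : V + t + 3 ≤ 2 * k := by
  have := h.hmu
  have := h.hmu2 hk
  omega

theorem Ctx2.beta_kA (h : Ctx2 z i0 k t A V) (hb : A ≤ (Oe z i0 1).card) : k ≤ A := by
  have := h.cons 1 (Or.inl rfl) ∅ (Finset.notMem_empty _) (by simp) (by simp) (by simpa using hb)
  simp at this
  omega

theorem Ctx2.beta0 (h : Ctx2 z i0 k t A V) (hb : A ≤ (Oe z i0 1).card)
    (h0 : ∀ i, z i ≤ A) : Goal z k := by
  have hkA := h.beta_kA hb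
  have hVA := h.VA
  have hVk := h.Vk (by omega)
  have := h.exc 1 (Or.inl rfl) ∅ (P2 z) A (A - k) (Finset.notMem_empty _)
    (fun hm => by have := mem_P2.mp hm; have := h.hA; omega)
    (Finset.disjoint_empty_left _) (by simp) (by
      intro i hi
      have h1 := mem_P2.mp hi
      have h2 := h0 i
      have h3 := av_of_pos (show 0 < z i by omega)
      refine ⟨by omega, by omega, by omega⟩) (by simp) hb (by simp; omega) (by omega)
  exact h.tiny hkA (by omega)

theorem Ctx2.beta1 (h : Ctx2 z i0 k t A V) (hb : A ≤ (Oe z i0 1).card) (i1 : κ)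
    (hi1 : (A : ℤ) < z i1) (hmin : ∀ i, (A : ℤ) < z i → z i1 ≤ z i) : Goal z k := by
  have hkA := h.beta_kA hb
  have hVA := h.VA
  have hVk := h.Vk (by omega)
  have hk2 := h.hk
  have ht := h.ht
  have hA0 := h.hA
  have hmu := h.hmu
  obtain ⟨δ, hδ, hδ1⟩ : ∃ δ : ℕ, z i1 = A + δ ∧ 1 ≤ δ := ⟨(z i1 - A).toNat, by omega, by omega⟩
  have hV1 : A + δ ≤ V := by
    have h1 := h.hV i1
    have h2 := av_of_pos (show 0 < z i1 by omega)
    omega
  set Q1 := (Qn z i0).filter (fun i => av z i < δ) with hQ1
  set QL := (Qn z i0).filter (fun i => ¬ av z i < δ) with hQL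
  have hQc : Q1.card + QL.card = (Qn z i0).card := Finset.card_filter_add_card_filter_not _
  have hQ1Q : Q1 ⊆ Qn z i0 := Finset.filter_subset _ _
  have hQLQ : QL ⊆ Qn z i0 := Finset.filter_subset _ _
  have hQneg : ∀ i ∈ Qn z i0, z i = -(av z i : ℤ) ∧ 0 < av z i ∧ i ≠ i0 := by
    intro i hi
    obtain ⟨h1, h2⟩ := mem_Qn.mp hi
    have h3 := av_of_neg h1
    exact ⟨by omega, by omega, h2⟩
  have hi10 : i1 ≠ i0 := by rintro rfl; omega
  -- claim 1
  have hsum1 : ∑ i ∈ Q1, av z i < δ := by
    apply h.small 1 (Or.inl rfl) {i1} Q1 δ δ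
    · rw [Finset.mem_singleton]; exact hi10.symm
    · intro hm; exact (hQneg i0 (hQ1Q hm)).2.2 rfl
    · rw [Finset.disjoint_singleton_left]
      intro hm
      have := hQneg i1 (hQ1Q hm)
      omega
    · intro i hi
      rw [Finset.mem_singleton] at hi
      rw [hi]; omega
    · intro i hi
      have h1 := hQneg i (hQ1Q hi)
      have h2 := (Finset.mem_filter.mp hi).2
      exact ⟨by omega, by omega⟩
    · rw [Finset.sum_singleton, hδ]; ring
    · exact hδ1
    · omega
    · rw [Finset.card_singleton, max_self]; omega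
  -- claim 2
  have hQLk : ∀ i ∈ QL, k + δ ≤ av z i + 2 := by
    intro i hi
    have h1 := hQneg i (hQLQ hi)
    have h2 := (Finset.mem_filter.mp hi).2
    by_contra hcon
    push Not at hcon
    have hne : i1 ≠ i := by rintro rfl; omega
    have := h.cons 1 (Or.inl rfl) {i1, i} (by
      rw [Finset.mem_insert, Finset.mem_singleton]
      rintro (h3 | h3)
      · exact hi10 h3.symm
      · exact h1.2.2 h3.symm) (by
      intro j hj
      rw [Finset.mem_insert, Finset.mem_singleton] at hj
      rcases hj with rfl | rfl <;> omega) (by rw [Finset.sum_pair hne]; omega)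
      (by rw [Finset.sum_pair hne]; omega)
    rw [Finset.sum_pair hne, Finset.card_pair hne] at this
    push_cast at this
    omega
  have hcard := h.card_parts
  have hp := h.hp
  by_cases hc : QL.card ≤ t + 1
  · apply h.far (by omega) Q1 hQ1Q (by omega)
    intro D hD hDA
    have h4 : ∑ i ∈ D, av z i ≤ ∑ i ∈ Q1, av z i := Finset.sum_le_sum_of_subset hD
    omega
  push Not at hc
  obtain ⟨i2, hi2, hi2min⟩ := Finset.exists_min_image QL (av z)
    (Finset.card_pos.mp (by omega))
  by_cases hcA : av z i2 ≤ A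
  swap
  · push Not at hcA
    apply h.far (by omega) (Qn z i0) (Finset.Subset.refl _) (by omega)
    intro D hD hDA
    by_cases hDL : ∃ i ∈ D, i ∈ QL
    · obtain ⟨i, hiD, hiL⟩ := hDL
      have h1 := hi2min i hiL
      have h2 := Finset.single_le_sum (f := av z) (fun i _ => Nat.zero_le _) hiD
      omega
    · push Not at hDL
      have hD1 : D ⊆ Q1 := by
        intro i hi
        rw [hQ1, Finset.mem_filter]
        refine ⟨hD hi, ?_⟩
        by_contra h5
        exact hDL i hi (by rw [hQL, Finset.mem_filter]; exact ⟨hD hi, h5⟩)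
      have h4 : ∑ i ∈ D, av z i ≤ ∑ i ∈ Q1, av z i := Finset.sum_le_sum_of_subset hD1
      omega
  -- main case
  have hi2k := hQLk i2 hi2
  have hi2n := hQneg i2 (hQLQ hi2)
  obtain ⟨e, he⟩ : ∃ e, av z i2 + 2 = k + δ + e := ⟨av z i2 + 2 - (k + δ), by omega⟩
  obtain ⟨X, hX⟩ : ∃ X, X + 2 = k + e := ⟨k + e - 2, by omega⟩
  set T : Finset κ := Finset.univ.filter (fun i => 2 ≤ z i ∧ z i ≤ A) with hT
  have hTm : ∀ i, i ∈ T ↔ 2 ≤ z i ∧ z i ≤ A := by intro i; simp [hT]
  have hTsmall : ∀ i ∈ T, av z i + k ≤ A + 1 := by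
    intro i hi
    rw [hTm] at hi
    have h1 := av_of_pos (show 0 < z i by omega)
    have := h.cons 1 (Or.inl rfl) {i} (by
      rw [Finset.mem_singleton]; rintro rfl; omega) (by
      intro j hj
      rw [Finset.mem_singleton] at hj
      rw [hj]; omega) (by rw [Finset.sum_singleton]; omega) (by rw [Finset.sum_singleton]; omega)
    rw [Finset.sum_singleton, Finset.card_singleton] at this
    omega
  have hi12 : i1 ≠ i2 := by rintro rfl; omega
  have hTe : ∑ i ∈ T, av z i ≤ T.card + e := by
    apply h.exc 1 (Or.inl rfl) {i1, i2} T X e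
    · rw [Finset.mem_insert, Finset.mem_singleton]
      rintro (h3 | h3)
      · exact hi10 h3.symm
      · exact hi2n.2.2 h3.symm
    · rw [hTm]; omega
    · rw [Finset.disjoint_left]
      intro i hi hi'
      rw [hTm] at hi'
      rw [Finset.mem_insert, Finset.mem_singleton] at hi
      rcases hi with rfl | rfl <;> omega
    · intro i hi
      rw [Finset.mem_insert, Finset.mem_singleton] at hi
      rcases hi with rfl | rfl <;> omega
    · intro i hi
      have h2 := hTsmall i hi
      rw [hTm] at hi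
      have h1 := av_of_pos (show 0 < z i by omega)
      refine ⟨by omega, by omega, by omega⟩
    · rw [Finset.sum_pair hi12]; omega
    · omega
    · rw [Finset.card_pair hi12]; omega
    · omega
  have hT2 : T.card * 2 ≤ ∑ i ∈ T, av z i := by
    rw [← smul_eq_mul, ← Finset.sum_const]
    apply Finset.sum_le_sum
    intro i hi
    rw [hTm] at hi
    have h1 := av_of_pos (show 0 < z i by omega)
    omega
  set Q2 := Q1.filter (fun i => 2 ≤ av z i) with hQ2
  have hQ2s : ∑ i ∈ Q2, av z i ≤ ∑ i ∈ Q1, av z i :=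
    Finset.sum_le_sum_of_subset (Finset.filter_subset _ _)
  have hTQ : Disjoint T Q2 := by
    rw [Finset.disjoint_left]
    intro i hi hi'
    rw [hTm] at hi
    have := hQneg i (hQ1Q (Finset.mem_filter.mp hi').1)
    omega
  set L : Finset κ := Finset.univ.filter (fun i => (A : ℤ) < z i) with hL
  have hLm : ∀ i, i ∈ L ↔ (A : ℤ) < z i := by intro i; simp [hL]
  have hLQ : Disjoint L QL := by
    rw [Finset.disjoint_left]
    intro i hi hi'
    rw [hLm] at hi
    have := hQneg i (hQLQ hi')
    omega
  have hi0L : i0 ∉ L ∪ QL := by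
    rw [Finset.mem_union, hLm]
    rintro (h3 | h3)
    · omega
    · exact (hQneg i0 (hQLQ h3)).2.2 rfl
  have hL1 : 1 ≤ L.card := Finset.card_pos.mpr ⟨i1, (hLm i1).mpr hi1⟩
  have hBc : (insert i0 (L ∪ QL)).card = L.card + QL.card + 1 := by
    rw [Finset.card_insert_of_notMem hi0L, Finset.card_union_of_disjoint hLQ]
  apply h.piv (insert i0 (L ∪ QL)) (T ∪ Q2) (av z i2)
  · rw [Finset.disjoint_left]
    intro i hi hi'
    rw [Finset.mem_insert, Finset.mem_union, hLm] at hi
    rw [Finset.mem_union, hTm] at hi'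
    rcases hi' with hi' | hi'
    · rcases hi with rfl | hi | hi
      · omega
      · omega
      · have := hQneg i (hQLQ hi); omega
    · have h5 := hQneg i (hQ1Q (Finset.mem_filter.mp hi').1)
      have h6 := (Finset.mem_filter.mp (Finset.mem_filter.mp hi').1).2
      rcases hi with rfl | hi | hi
      · exact h5.2.2 rfl
      · omega
      · exact (Finset.mem_filter.mp hi).2 h6
  · intro i hi
    rw [Finset.mem_insert, Finset.mem_union, hLm] at hi
    rcases hi with rfl | hi | hi
    · rw [h.av0]; exact hcA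
    · have := av_of_pos (show 0 < z i by omega); omega
    · exact hi2min i hi
  · intro i hi
    rw [Finset.mem_union, hTm] at hi
    rcases hi with hi | hi
    · have := av_of_pos (show 0 < z i by omega); omega
    · exact (Finset.mem_filter.mp hi).2
  · omega
  · rw [Finset.sum_union hTQ]; omega
  · rw [hBc]; omega
  · omega
  · have := cover_card (insert i0 (L ∪ QL)) (T ∪ Q2) (ones z) (by
      intro i
      rw [Finset.mem_insert, Finset.mem_union, hLm, Finset.mem_union, hTm, mem_ones]
      rcases h.cases i with h1 | h1 | h1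
      · left; left; exact h1
      · rw [mem_Pos] at h1
        have h2 := av_of_pos h1
        by_cases h3 : (A : ℤ) < z i
        · left; right; left; exact h3
        · by_cases h4 : z i = 1
          · right; right; omega
          · right; left; left; omega
      · have h2 := hQneg i h1
        by_cases h3 : av z i < δ
        · by_cases h4 : av z i = 1
          · right; right; exact h4
          · right; left; right
            rw [hQ2, Finset.mem_filter, hQ1, Finset.mem_filter]
            exact ⟨⟨h1, h3⟩, by omega⟩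
        · left; right; right
          rw [hQL, Finset.mem_filter]
          exact ⟨h1, h3⟩)
    rw [h.hcard] at this
    omega
  · rw [Finset.sum_union hTQ, Finset.card_union_of_disjoint hTQ, hBc]
    omega

theorem Ctx2.beta (h : Ctx2 z i0 k t A V) (hb : A ≤ (Oe z i0 1).card) : Goal z k := by
  by_cases h0 : ∀ i, z i ≤ A
  · exact h.beta0 hb h0
  · push Not at h0
    obtain ⟨j, hj⟩ := h0
    obtain ⟨i1, hi1, hmin⟩ := Finset.exists_min_image
      (Finset.univ.filter (fun i => (A : ℤ) < z i)) z ⟨j, by simpa using hj⟩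
    apply h.beta1 hb i1 (by simpa using hi1)
    intro i hi
    exact hmin i (by simpa using hi)

end

end Pool.Agent.Helper14.ZeroSum
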