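import Mathlib
import Pool.Agent.Helper14.ZeroSum.Beta

/-!
The integer situation: few entries equal to `+1`, and a large positive entry.
-/

namespace Pool.Agent.Helper14.ZeroSum

open Finset

section
variable {κ : Type*} [Fintype κ] [DecidableEq κ] {z : κ → ℤ} {i0 : κ} {k t A V : ℕ}

omit [Fintype κ] in
theorem sum_union_le' (f : κ → ℕ) (X Y : Finset κ) :
    ∑ i ∈ X ∪ Y, f i ≤ ∑ i ∈ X, f i + ∑ i ∈ Y, f i := by
  have := Finset.sum_union_inter (s₁ := X) (s₂ := Y) (f := f)
  omega

omit [DecidableEq κ] in
theorem Ctx.sum_ex (h : Ctx z i0 k t A) (X : Finset κ) :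
    ∑ i ∈ X, av z i = ∑ i ∈ X, (av z i - 1) + X.card := by
  rw [Finset.card_eq_sum_ones, ← Finset.sum_add_distrib]
  apply Finset.sum_congr rfl
  intro i _
  have := h.avpos i
  omega

/-- pivot rule with an explicit superset of the remaining entries. -/
theorem Ctx.pivot (h : Ctx z i0 k t A) (B D S' : Finset κ) (b0 : ℕ)
    (hB : ∀ i ∈ B, b0 ≤ av z i) (hb0 : 2 ≤ b0)
    (hcov : ∀ i, 2 ≤ av z i → i ∉ B → i ∉ D → i ∈ S')
    (hS' : ∑ i ∈ S', av z i < b0) (hb2 : 2 ≤ B.card) (hO1 : 1 ≤ (ones z).card)
    (hD : D.card ≤ 1) (h2 : 2 * k + 3 + ∑ i ∈ S', (av z i - 1) ≤ 2 * b0 + B.card) :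
    Goal z k := by
  set S : Finset κ := Finset.univ.filter (fun i => 2 ≤ av z i ∧ i ∉ B ∧ i ∉ D) with hS
  have hSm : ∀ i, i ∈ S ↔ 2 ≤ av z i ∧ i ∉ B ∧ i ∉ D := by intro i; simp [hS]
  have hSS : S ⊆ S' := by
    intro i hi
    rw [hSm] at hi
    exact hcov i hi.1 hi.2.1 hi.2.2
  have hs1 : ∑ i ∈ S, av z i ≤ ∑ i ∈ S', av z i := Finset.sum_le_sum_of_subset hSS
  have hs2 : ∑ i ∈ S, (av z i - 1) ≤ ∑ i ∈ S', (av z i - 1) := Finset.sum_le_sum_of_subset hSS
  have hs3 := h.sum_ex S
  have ht := h.ht
  have hcard : 2 * k + t + 1 ≤ B.card + S.card + (ones z).card + D.card := by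
    rw [← h.hcard]
    have h1 := cover_card (B ∪ D) S (ones z) (by
      intro i
      rw [Finset.mem_union, hSm, mem_ones]
      by_cases h1 : i ∈ B
      · left; left; exact h1
      by_cases h2 : i ∈ D
      · left; right; exact h2
      have h3 := h.avpos i
      by_cases h4 : av z i = 1
      · right; right; exact h4
      · right; left; exact ⟨by omega, h1, h2⟩)
    have h2 := Finset.card_union_le B D
    omega
  apply h.piv B S b0 _ hB (fun i hi => ((hSm i).mp hi).1) hb0 (by omega) hb2 hO1 (by omega)
    (by omega)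
  rw [Finset.disjoint_left]
  intro i hi hi'
  exact ((hSm i).mp hi').2.1 hi

omit [Fintype κ] [DecidableEq κ] in
theorem two_mul_card_le (T : Finset κ) (h : ∀ i ∈ T, 2 ≤ av z i) :
    T.card * 2 ≤ ∑ i ∈ T, av z i := by
  rw [← smul_eq_mul, ← Finset.sum_const]
  exact Finset.sum_le_sum h

theorem Ctx2.gammaA (h : Ctx2 z i0 k t A V) (hb : (Oe z i0 1).card < A) (i1 : κ)
    (hi1 : (A : ℤ) ≤ z i1) (hmin : ∀ i, (A : ℤ) ≤ z i → z i1 ≤ z i) : Goal z k := by
  have hVA := h.VA
  have hk2 := h.hk
  have ht := h.ht
  have hA0 := h.hA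
  have hA1 := h.hA1
  have hmu := h.hmu
  have hol := h.ones_le
  have hm : V + t + 1 ≤ A + (Oe z i0 (-1)).card := by omega
  have hbig : ∀ i, (A : ℤ) ≤ z i → (A : ℤ) + k ≤ z i + 1 := by
    intro i hi
    have h1 := h.hV i
    have h2 := av_of_pos (show 0 < z i by omega)
    have := h.cons (-1) (Or.inr rfl) {i} (by
      rw [Finset.mem_singleton]; rintro rfl; omega) (by
      intro j hj
      rw [Finset.mem_singleton] at hj
      rw [hj]; omega) (by rw [Finset.sum_singleton]; omega) (by rw [Finset.sum_singleton]; omega)
    rw [Finset.sum_singleton, Finset.card_singleton] at this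
    omega
  obtain ⟨e, he⟩ : ∃ e : ℕ, z i1 + 1 = A + k + e := ⟨(z i1 + 1 - A - k).toNat, by
    have := hbig i1 hi1; omega⟩
  have hav1 := av_of_pos (show 0 < z i1 by omega)
  have hV1 := h.hV i1
  have hVk := h.Vk (by omega)
  obtain ⟨X, hX⟩ : ∃ X, X + 1 = k + e := ⟨k + e - 1, by omega⟩
  have hi10 : i1 ≠ i0 := by rintro rfl; omega
  have hQneg : ∀ i ∈ Qn z i0, z i = -(av z i : ℤ) ∧ 0 < av z i ∧ i ≠ i0 := by
    intro i hi
    obtain ⟨h1, h2⟩ := mem_Qn.mp hi
    have h3 := av_of_neg h1
    exact ⟨by omega, by omega, h2⟩
  -- small positive entries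
  set P1 := (Pos z).filter (fun i => av z i < A) with hP1
  set L := (Pos z).filter (fun i => ¬ av z i < A) with hL
  have hP1m : ∀ i ∈ P1, z i = (av z i : ℤ) ∧ av z i < A ∧ i ≠ i0 := by
    intro i hi
    rw [hP1, Finset.mem_filter, mem_Pos] at hi
    have h1 := av_of_pos hi.1
    refine ⟨h1.symm, hi.2, ?_⟩
    rintro rfl
    omega
  have hLm : ∀ i ∈ L, z i = (av z i : ℤ) ∧ av z i1 ≤ av z i := by
    intro i hi
    rw [hL, Finset.mem_filter, mem_Pos] at hi
    have h1 := av_of_pos hi.1
    have h2 := hmin i (by omega)
    exact ⟨h1.symm, by omega⟩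
  have hi1L : i1 ∈ L := by
    rw [hL, Finset.mem_filter, mem_Pos]
    exact ⟨by omega, by omega⟩
  have hi1P1 : i1 ∉ P1 := fun hm => by have := hP1m i1 hm; omega
  have hsp : ∑ i ∈ P1, av z i < A := by
    apply h.small (-1) (Or.inr rfl) ∅ P1 A A (Finset.notMem_empty _)
    · intro hm; exact (hP1m i0 hm).2.2 rfl
    · exact Finset.disjoint_empty_left _
    · simp
    · intro i hi
      have := hP1m i hi
      exact ⟨by omega, by omega⟩
    · simp
    · exact hA1
    · omega
    · rw [Finset.card_empty, max_self]; omega
  -- small negative entries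
  set T := (Qn z i0).filter (fun i => 2 ≤ av z i ∧ av z i ≤ X) with hT
  have hTm : ∀ i ∈ T, z i = -(av z i : ℤ) ∧ 2 ≤ av z i ∧ av z i ≤ X ∧ i ≠ i0 := by
    intro i hi
    rw [hT, Finset.mem_filter] at hi
    have := hQneg i hi.1
    exact ⟨this.1, hi.2.1, hi.2.2, this.2.2⟩
  have hTe : ∑ i ∈ T, av z i ≤ T.card + e := by
    apply h.exc (-1) (Or.inr rfl) {i1} T X e
    · rw [Finset.mem_singleton]; exact hi10.symm
    · intro hm; exact (hTm i0 hm).2.2.2 rfl
    · rw [Finset.disjoint_singleton_left]
      intro hm
      have := hTm i1 hm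
      omega
    · intro i hi
      rw [Finset.mem_singleton] at hi
      rw [hi]; omega
    · intro i hi
      have := hTm i hi
      exact ⟨by omega, by omega, by omega⟩
    · rw [Finset.sum_singleton]; omega
    · omega
    · rw [Finset.card_singleton]; omega
    · omega
  have hT2 := two_mul_card_le T (fun i hi => (hTm i hi).2.1)
  have hTex := h.sum_ex T
  have hPex := h.sum_ex P1
  have hpsum : ∑ i ∈ P1, av z i + ∑ i ∈ L, av z i = ∑ i ∈ Pos z, av z i :=
    Finset.sum_filter_add_sum_filter_not _ _ _
  have hbal := h.balance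
  -- large negative entries
  have hQL : ∀ i ∈ Qn z i0, X < av z i → X + 1 + ∑ j ∈ P1, av z j ≤ av z i := by
    intro i hi hXi
    by_contra hcon
    push Not at hcon
    obtain ⟨j, hj⟩ : ∃ j, av z i = X + j := ⟨av z i - X, by omega⟩
    have h1 := hQneg i hi
    have hne : i1 ≠ i := by rintro rfl; omega
    have := h.small (-1) (Or.inr rfl) {i1, i} P1 j (∑ j ∈ P1, av z j) (by
        rw [Finset.mem_insert, Finset.mem_singleton]
        rintro (h3 | h3)
        · exact hi10 h3.symm
        · exact h1.2.2 h3.symm)
      (fun hm => (hP1m i0 hm).2.2 rfl) (by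
        rw [Finset.disjoint_left]
        intro l hl hl'
        have h4 := hP1m l hl'
        rw [Finset.mem_insert, Finset.mem_singleton] at hl
        rcases hl with rfl | rfl <;> omega) (by
        intro l hl
        rw [Finset.mem_insert, Finset.mem_singleton] at hl
        rcases hl with rfl | rfl <;> omega) (by
        intro l hl
        have h4 := hP1m l hl
        have h5 := Finset.single_le_sum (f := av z) (fun i _ => Nat.zero_le _) hl
        exact ⟨by omega, h5⟩) (by rw [Finset.sum_pair hne]; omega) (by omega) (by omega) (by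
        rw [Finset.card_pair hne]; omega)
    omega
  have hcovP : ∀ i, 0 < z i → i ∉ L → i ∈ P1 := by
    intro i hi hiL
    rw [hP1, Finset.mem_filter, mem_Pos]
    refine ⟨hi, ?_⟩
    by_contra h5
    exact hiL (by rw [hL, Finset.mem_filter, mem_Pos]; exact ⟨hi, h5⟩)
  by_cases hQe : ∃ i ∈ Qn z i0, X < av z i
  · -- large negative entries exist
    obtain ⟨j, hjQ, hjX⟩ := hQe
    have hjb := hQL j hjQ hjX
    set QL := (Qn z i0).filter (fun i => X < av z i) with hQLdef
    have hjL : j ∈ QL := by rw [hQLdef, Finset.mem_filter]; exact ⟨hjQ, hjX⟩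
    have hQL1 : 1 ≤ QL.card := Finset.card_pos.mpr ⟨j, hjL⟩
    have hL2 : 2 ≤ L.card := by
      by_contra hcon
      have hL1 : L.card = 1 := by
        have : 0 < L.card := Finset.card_pos.mpr ⟨i1, hi1L⟩
        omega
      rw [Finset.card_eq_one] at hL1
      obtain ⟨x, hx⟩ := hL1
      rw [hx, Finset.mem_singleton] at hi1L
      rw [hx, Finset.sum_singleton, ← hi1L] at hpsum
      have h5 := Finset.single_le_sum (f := av z) (fun i _ => Nat.zero_le _) hjQ
      omega
    have hdis : Disjoint L QL := by
      rw [Finset.disjoint_left]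
      intro i hi hi'
      have h3 := hLm i hi
      have h4 := hQneg i (Finset.mem_filter.mp hi').1
      omega
    have hBc : (L ∪ QL).card = L.card + QL.card := Finset.card_union_of_disjoint hdis
    apply h.pivot (L ∪ QL) {i0} (P1 ∪ T) (X + 1 + ∑ j ∈ P1, av z j)
    · intro i hi
      rw [Finset.mem_union] at hi
      rcases hi with hi | hi
      · have := hLm i hi; omega
      · rw [hQLdef, Finset.mem_filter] at hi
        exact hQL i hi.1 hi.2
    · omega
    · intro i hi2 hiB hi0
      rw [Finset.mem_union, not_or] at hiB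
      rw [Finset.mem_singleton] at hi0
      rw [Finset.mem_union]
      rcases h.cases i with h1 | h1 | h1
      · exact absurd h1 hi0
      · left; exact hcovP i (mem_Pos.mp h1) hiB.1
      · right
        rw [hT, Finset.mem_filter]
        refine ⟨h1, hi2, ?_⟩
        by_contra h5
        exact hiB.2 (by rw [hQLdef, Finset.mem_filter]; exact ⟨h1, by omega⟩)
    · have := sum_union_le' (av z) P1 T
      omega
    · omega
    · omega
    · rw [Finset.card_singleton]
    · have := sum_union_le' (fun i => av z i - 1) P1 T
      omega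
  · push Not at hQe
    have hcovS : ∀ i, 2 ≤ av z i → i ∉ L → i ∈ ({i0} : Finset κ) ∪ (P1 ∪ T) := by
      intro i hi2 hiB
      rw [Finset.mem_union, Finset.mem_singleton, Finset.mem_union]
      rcases h.cases i with h1 | h1 | h1
      · left; exact h1
      · right; left; exact hcovP i (mem_Pos.mp h1) hiB
      · right; right
        rw [hT, Finset.mem_filter]
        exact ⟨h1, hi2, hQe i h1⟩
    have hSsum : ∑ i ∈ ({i0} : Finset κ) ∪ (P1 ∪ T), av z i ≤
        A + (∑ i ∈ P1, av z i + ∑ i ∈ T, av z i) := by
      have h5 := sum_union_le' (av z) {i0} (P1 ∪ T)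
      have h6 := sum_union_le' (av z) P1 T
      rw [Finset.sum_singleton, h.av0] at h5
      omega
    have hSex : ∑ i ∈ ({i0} : Finset κ) ∪ (P1 ∪ T), (av z i - 1) ≤
        (A - 1) + (∑ i ∈ P1, (av z i - 1) + ∑ i ∈ T, (av z i - 1)) := by
      have h5 := sum_union_le' (fun i => av z i - 1) {i0} (P1 ∪ T)
      have h6 := sum_union_le' (fun i => av z i - 1) P1 T
      rw [Finset.sum_singleton, h.av0] at h5
      omega
    rcases Nat.lt_or_ge L.card 2 with hL1 | hL2
    · -- one large positive entry: everything fits
      have hL1' : L.card = 1 := by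
        have : 0 < L.card := Finset.card_pos.mpr ⟨i1, hi1L⟩
        omega
      obtain ⟨x, hx⟩ := Finset.card_eq_one.mp hL1'
      have hxi : i1 = x := by
        rw [hx, Finset.mem_singleton] at hi1L
        exact hi1L
      have hLs : ∑ i ∈ L, av z i = av z i1 := by rw [hx, Finset.sum_singleton, hxi]
      set S : Finset κ := Finset.univ.filter (fun i => 2 ≤ av z i ∧ i ∉ L) with hS
      have hSm : ∀ i, i ∈ S ↔ 2 ≤ av z i ∧ i ∉ L := by intro i; simp [hS]
      have hLS : Disjoint L S := by
        rw [Finset.disjoint_left]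
        intro i hi hi'
        exact ((hSm i).mp hi').2 hi
      have hLO : Disjoint L (ones z) := by
        rw [Finset.disjoint_left]
        intro i hi hi'
        have h3 := hLm i hi
        have h4 := mem_ones.mp hi'
        omega
      have hSO : Disjoint S (ones z) := by
        rw [Finset.disjoint_left]
        intro i hi hi'
        have h3 := (hSm i).mp hi
        have h4 := mem_ones.mp hi'
        omega
      have hun : (Finset.univ : Finset κ) = (L ∪ S) ∪ ones z := by
        ext i
        simp only [Finset.mem_univ, true_iff]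
        rw [Finset.mem_union, Finset.mem_union, hSm, mem_ones]
        by_cases h1 : i ∈ L
        · left; left; exact h1
        have h3 := h.avpos i
        by_cases h4 : av z i = 1
        · right; exact h4
        · left; right; exact ⟨by omega, h1⟩
      have hdis : Disjoint (L ∪ S) (ones z) := Finset.disjoint_union_left.mpr ⟨hLO, hSO⟩
      have hcard : L.card + S.card + (ones z).card = 2 * k + t + 1 := by
        rw [← h.hcard, ← Finset.card_univ, hun, Finset.card_union_of_disjoint hdis,
          Finset.card_union_of_disjoint hLS]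
      have honesum : ∑ i ∈ ones z, av z i = (ones z).card := by
        rw [Finset.sum_congr rfl (fun i hi => mem_ones.mp hi), Finset.sum_const, smul_eq_mul,
          mul_one]
      have htot : ∑ i, av z i = av z i1 + ∑ i ∈ S, av z i + (ones z).card := by
        rw [hun, Finset.sum_union hdis, Finset.sum_union hLS, hLs, honesum]
      have htot2 : ∑ i, av z i = ∑ i ∈ Pos z, av z i + (A + ∑ i ∈ Qn z i0, av z i) := by
        have h1 : (Finset.univ : Finset κ) = insert i0 (Pos z ∪ Qn z i0) := by
          ext i
          simp only [Finset.mem_univ, Finset.mem_insert, Finset.mem_union, true_iff]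
          exact h.cases i
        have h2 : i0 ∉ Pos z ∪ Qn z i0 := by
          rw [Finset.mem_union]
          rintro (h3 | h3)
          · exact h.i0_notMem_Pos h3
          · exact (mem_Qn.mp h3).2 rfl
        have h3 : Disjoint (Pos z) (Qn z i0) := by
          rw [Finset.disjoint_left]
          intro i hi hi'
          have h1 := mem_Pos.mp hi
          have h2 := (mem_Qn.mp hi').1
          omega
        rw [h1, Finset.sum_insert h2, Finset.sum_union h3, h.av0]
        ring
      have hSle : ∑ i ∈ S, av z i ≤ ∑ i ∈ ({i0} : Finset κ) ∪ (P1 ∪ T), av z i := by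
        apply Finset.sum_le_sum_of_subset
        intro i hi
        rw [hSm] at hi
        exact hcovS i hi.1 hi.2
      intro c s
      have := rule_ones (av z) Finset.univ L S (ones z) (av z i1) k (ones z).card
        (fun i _ => h.avpos i) (Finset.subset_univ _) (Finset.subset_univ _)
        (Finset.subset_univ _) hLS hLO hSO (fun i hi => mem_ones.mp hi)
        (fun i hi => (hLm i hi).2) (by omega) le_rfl (by omega) (Or.inl ⟨hL1', by omega⟩) c s
      rw [Finset.card_univ] at this
      exact fin_of_half (by omega) this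
    · -- at least two large positive entries
      by_cases hex : 3 ≤ e + L.card ∨ 2 ≤ A
      · apply h.pivot L ∅ (({i0} : Finset κ) ∪ (P1 ∪ T)) (av z i1)
        · intro i hi; exact (hLm i hi).2
        · omega
        · intro i hi2 hiB _
          exact hcovS i hi2 hiB
        · omega
        · exact hL2
        · omega
        · simp
        · -- excess
          rcases Nat.eq_zero_or_pos P1.card with h0 | h0
          · rw [Finset.card_eq_zero] at h0
            have h6 : ∑ i ∈ P1, (av z i - 1) = 0 := by rw [h0, Finset.sum_empty]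
            omega
          · omega
      · push Not at hex
        exfalso
        -- here `e = 0`, `A = 1` and there are two large entries
        have hT0 : T = ∅ := by rw [← Finset.card_eq_zero]; omega
        have hP0 : P1 = ∅ := by
          rw [← Finset.card_eq_zero]
          omega
        have hcc := cover_card L ∅ (ones z) (by
          intro i
          rw [mem_ones]
          by_cases h1 : i ∈ L
          · left; exact h1
          · right; right
            by_contra h4
            have h3 := h.avpos i
            have h5 := hcovS i (by omega) h1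
            rw [hT0, hP0, Finset.union_empty, Finset.union_empty, Finset.mem_singleton] at h5
            rw [h5, h.av0] at h4
            omega)
        rw [h.hcard, Finset.card_empty] at hcc
        have := h.hmu2 (by omega)
        omega

end

end Pool.Agent.Helper14.ZeroSum
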