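import Mathlib
import Pool.Agent.Helper14.ZeroSum.GammaA

/-!
The integer situation: few entries equal to `+1`, and no large positive entry.
-/

namespace Pool.Agent.Helper14.ZeroSum

open Finset

section
variable {κ : Type*} [Fintype κ] [DecidableEq κ] {z : κ → ℤ} {i0 : κ} {k t A V : ℕ}

/-- the core of the second case: two positive entries `v ≥ v'` with `v + v' ≥ A + k - 2`. -/
theorem Ctx2.gammaCore (h : Ctx2 z i0 k t A V) (hall : ∀ i, z i < A) (hA3 : 3 ≤ A)
    (i1 i1' : κ) (hne : i1' ≠ i1) (d s : ℕ) (hd : z i1 + d = A) (hs : z i1' = s + d)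
    (hle : z i1' ≤ z i1) (hks : k ≤ s + 2) (hsO : s ≤ (Oe z i0 (-1)).card) : Goal z k := by
  have hVA := h.VA
  have hk2 := h.hk
  have ht := h.ht
  have hA0 := h.hA
  have hmu := h.hmu
  have hol := h.ones_le' (by omega)
  have hd1 : 1 ≤ d := by have := hall i1; omega
  have hVk := h.Vk (by omega)
  have hdk : 2 * d + t + 1 ≤ k := by omega
  have hsA : s + 2 * d ≤ A := by omega
  have hav1 := av_of_pos (show 0 < z i1 by omega)
  have hav1' := av_of_pos (show 0 < z i1' by omega)
  have hi10 : i1 ≠ i0 := by rintro rfl; omega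
  have hQneg : ∀ i ∈ Qn z i0, z i = -(av z i : ℤ) ∧ 0 < av z i ∧ i ≠ i0 := by
    intro i hi
    obtain ⟨h1, h2⟩ := mem_Qn.mp hi
    have h3 := av_of_neg h1
    exact ⟨by omega, by omega, h2⟩
  have hbig : ∀ i, (d : ℤ) ≤ z i → (k : ℤ) + d ≤ z i + 2 := by
    intro i hi
    by_cases hi1 : i = i1
    · rw [hi1]; omega
    by_contra hcon
    push Not at hcon
    have hne' : i1 ≠ i := fun h' => hi1 h'.symm
    have := h.cons (-1) (Or.inr rfl) {i1, i} (by
      rw [Finset.mem_insert, Finset.mem_singleton]
      rintro (h3 | h3)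
      · exact hi10 h3.symm
      · rw [← h3] at hi; omega) (by
      intro j hj
      rw [Finset.mem_insert, Finset.mem_singleton] at hj
      rcases hj with rfl | rfl <;> omega) (by rw [Finset.sum_pair hne']; omega)
      (by rw [Finset.sum_pair hne']; omega)
    rw [Finset.sum_pair hne', Finset.card_pair hne'] at this
    omega
  set P1 := (Pos z).filter (fun i => av z i < d) with hP1
  set L := (Pos z).filter (fun i => ¬ av z i < d) with hL
  have hP1m : ∀ i ∈ P1, z i = (av z i : ℤ) ∧ av z i < d ∧ i ≠ i0 := by
    intro i hi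
    rw [hP1, Finset.mem_filter, mem_Pos] at hi
    have h1 := av_of_pos hi.1
    refine ⟨h1.symm, hi.2, ?_⟩
    rintro rfl
    omega
  have hLm : ∀ i ∈ L, z i = (av z i : ℤ) ∧ k + d ≤ av z i + 2 := by
    intro i hi
    rw [hL, Finset.mem_filter, mem_Pos] at hi
    have h1 := av_of_pos hi.1
    have h2 := hbig i (by omega)
    exact ⟨h1.symm, by omega⟩
  have hLmem : ∀ i, (d : ℤ) ≤ z i → i ∈ L := by
    intro i hi
    rw [hL, Finset.mem_filter, mem_Pos]
    have h1 := av_of_pos (show 0 < z i by omega)
    exact ⟨by omega, by omega⟩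
  have hi1L : i1 ∈ L := hLmem i1 (by omega)
  have hi1'L : i1' ∈ L := hLmem i1' (by omega)
  have hLP : ∀ i ∈ L, i ∉ P1 := by
    intro i hi hi'
    exact (Finset.mem_filter.mp hi).2 (Finset.mem_filter.mp hi').2
  have hsp : ∑ i ∈ P1, av z i < d := by
    apply h.small (-1) (Or.inr rfl) {i1} P1 d d
    · rw [Finset.mem_singleton]; exact hi10.symm
    · intro hm; exact (hP1m i0 hm).2.2 rfl
    · rw [Finset.disjoint_singleton_left]; exact hLP i1 hi1L
    · intro i hi
      rw [Finset.mem_singleton] at hi
      rw [hi]; omega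
    · intro i hi
      have := hP1m i hi
      exact ⟨by omega, by omega⟩
    · rw [Finset.sum_singleton]; omega
    · exact hd1
    · omega
    · rw [Finset.card_singleton, max_self]; omega
  have hpsum : ∑ i ∈ P1, av z i + ∑ i ∈ L, av z i = ∑ i ∈ Pos z, av z i :=
    Finset.sum_filter_add_sum_filter_not _ _ _
  have hpcard : P1.card + L.card = (Pos z).card := Finset.card_filter_add_card_filter_not _
  have hbal := h.balance
  have hPex := h.sum_ex P1
  have hQex := h.sum_ex (Qn z i0)
  have hparts := h.card_parts
  -- at least three large entries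
  have hL3 : 3 ≤ L.card := by
    by_contra hcon
    have hsub : ({i1, i1'} : Finset κ) ⊆ L := by
      intro i hi
      rw [Finset.mem_insert, Finset.mem_singleton] at hi
      rcases hi with rfl | rfl
      · exact hi1L
      · exact hi1'L
    have hLe : ({i1, i1'} : Finset κ) = L := by
      apply Finset.eq_of_subset_of_card_le hsub
      rw [Finset.card_pair hne.symm]
      omega
    rw [← hLe, Finset.sum_pair hne.symm] at hpsum
    have hO1 : Oe z i0 1 ⊆ P1 := by
      intro i hi
      have h1 := (mem_Oe.mp hi).1
      have h2 := av_of_pos (show 0 < z i by omega)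
      rw [hP1, Finset.mem_filter, mem_Pos]
      refine ⟨by omega, ?_⟩
      by_contra h5
      have := hbig i (by omega)
      omega
    have hOm : Oe z i0 (-1) ⊆ Qn z i0 := by
      intro i hi
      obtain ⟨h1, h2⟩ := mem_Oe.mp hi
      rw [mem_Qn]
      exact ⟨by omega, h2⟩
    have h1 := Finset.card_le_card hO1
    have h2 := Finset.card_le_card hOm
    omega
  -- the smallest large entry
  obtain ⟨i2, hi2, hi2min⟩ := Finset.exists_min_image (L.erase i1) (av z)
    ⟨i1', Finset.mem_erase.mpr ⟨hne, hi1'L⟩⟩
  have hi2' := hi2min i1' (Finset.mem_erase.mpr ⟨hne, hi1'L⟩)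
  obtain ⟨hi21, hi2L⟩ := Finset.mem_erase.mp hi2
  have hi2m := hLm i2 hi2L
  have hLmin : ∀ i ∈ L, av z i2 ≤ av z i := by
    intro i hi
    by_cases hi1 : i = i1
    · rw [hi1]; omega
    · exact hi2min i (Finset.mem_erase.mpr ⟨hi1, hi⟩)
  obtain ⟨e, he⟩ : ∃ e : ℕ, av z i2 + 2 = k + d + e := ⟨av z i2 + 2 - (k + d), by omega⟩
  obtain ⟨X, hX⟩ : ∃ X, X + 2 = k + e := ⟨k + e - 2, by omega⟩
  have hi20 : i2 ≠ i0 := by rintro rfl; omega
  set T := (Qn z i0).filter (fun i => 2 ≤ av z i ∧ av z i ≤ X) with hT
  have hTm : ∀ i ∈ T, z i = -(av z i : ℤ) ∧ 2 ≤ av z i ∧ av z i ≤ X ∧ i ≠ i0 := by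
    intro i hi
    rw [hT, Finset.mem_filter] at hi
    have := hQneg i hi.1
    exact ⟨this.1, hi.2.1, hi.2.2, this.2.2⟩
  have hTe : ∑ i ∈ T, av z i ≤ T.card + e := by
    apply h.exc (-1) (Or.inr rfl) {i1, i2} T X e
    · rw [Finset.mem_insert, Finset.mem_singleton]
      rintro (h3 | h3)
      · exact hi10 h3.symm
      · exact hi20 h3.symm
    · intro hm; exact (hTm i0 hm).2.2.2 rfl
    · rw [Finset.disjoint_left]
      intro l hl hl'
      have h4 := hTm l hl'
      rw [Finset.mem_insert, Finset.mem_singleton] at hl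
      rcases hl with rfl | rfl <;> omega
    · intro l hl
      rw [Finset.mem_insert, Finset.mem_singleton] at hl
      rcases hl with rfl | rfl <;> omega
    · intro i hi
      have := hTm i hi
      exact ⟨by omega, by omega, by omega⟩
    · rw [Finset.sum_pair hi21.symm]; omega
    · omega
    · rw [Finset.card_pair hi21.symm]; omega
    · omega
  have hT2 := two_mul_card_le T (fun i hi => (hTm i hi).2.1)
  have hTex := h.sum_ex T
  -- large negative entries
  have hQL : ∀ i ∈ Qn z i0, X < av z i → X + 1 + ∑ j ∈ P1, av z j ≤ av z i := by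
    intro i hi hXi
    by_contra hcon
    push Not at hcon
    obtain ⟨j, hj⟩ : ∃ j, av z i = X + j := ⟨av z i - X, by omega⟩
    have h1 := hQneg i hi
    have hne1 : i1 ≠ i := by rintro rfl; omega
    have hne2 : i2 ≠ i := by rintro rfl; omega
    have hn1 : i1 ∉ ({i2, i} : Finset κ) := by
      rw [Finset.mem_insert, Finset.mem_singleton]
      rintro (h3 | h3)
      · exact hi21 h3.symm
      · exact hne1 h3
    have hfsum : ∑ l ∈ ({i1, i2, i} : Finset κ), z l = z i1 + (z i2 + z i) := by
      rw [Finset.sum_insert hn1, Finset.sum_pair hne2]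
    have hfcard : ({i1, i2, i} : Finset κ).card = 3 := by
      rw [Finset.card_insert_of_notMem hn1, Finset.card_pair hne2]
    have := h.small (-1) (Or.inr rfl) {i1, i2, i} P1 j (∑ j ∈ P1, av z j) (by
        rw [Finset.mem_insert, Finset.mem_insert, Finset.mem_singleton]
        rintro (h3 | h3 | h3)
        · exact hi10 h3.symm
        · exact hi20 h3.symm
        · exact h1.2.2 h3.symm)
      (fun hm => (hP1m i0 hm).2.2 rfl) (by
        rw [Finset.disjoint_left]
        intro l hl hl'
        have h4 := hP1m l hl'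
        rw [Finset.mem_insert, Finset.mem_insert, Finset.mem_singleton] at hl
        rcases hl with rfl | rfl | rfl
        · exact hLP l hi1L hl'
        · exact hLP l hi2L hl'
        · omega) (by
        intro l hl
        rw [Finset.mem_insert, Finset.mem_insert, Finset.mem_singleton] at hl
        rcases hl with rfl | rfl | rfl <;> omega) (by
        intro l hl
        have h4 := hP1m l hl
        have h5 := Finset.single_le_sum (f := av z) (fun i _ => Nat.zero_le _) hl
        exact ⟨by omega, h5⟩) (by rw [hfsum]; omega) (by omega) (by omega) (by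
        rw [hfcard]; omega)
    omega
  have hcovP : ∀ i, 0 < z i → i ∉ L → i ∈ P1 := by
    intro i hi hiL
    rw [hP1, Finset.mem_filter, mem_Pos]
    refine ⟨hi, ?_⟩
    by_contra h5
    exact hiL (by rw [hL, Finset.mem_filter, mem_Pos]; exact ⟨hi, h5⟩)
  have hu1 := sum_union_le' (av z) P1 T
  have hu2 := sum_union_le' (fun i => av z i - 1) P1 T
  have hi0L : i0 ∉ L := fun hm => by have := hLm i0 hm; omega
  by_cases hQe : ∃ i ∈ Qn z i0, X < av z i
  · obtain ⟨j, hjQ, hjX⟩ := hQe
    set QL := (Qn z i0).filter (fun i => X < av z i) with hQLdef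
    have hjL : j ∈ QL := by rw [hQLdef, Finset.mem_filter]; exact ⟨hjQ, hjX⟩
    have hQL1 : 1 ≤ QL.card := Finset.card_pos.mpr ⟨j, hjL⟩
    have hdis : Disjoint L QL := by
      rw [Finset.disjoint_left]
      intro i hi hi'
      have h3 := hLm i hi
      have h4 := hQneg i (Finset.mem_filter.mp hi').1
      omega
    have hi0B : i0 ∉ L ∪ QL := by
      rw [Finset.mem_union]
      rintro (h3 | h3)
      · exact hi0L h3
      · exact (hQneg i0 (Finset.mem_filter.mp h3).1).2.2 rfl
    have hBc : (insert i0 (L ∪ QL)).card = L.card + QL.card + 1 := by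
      rw [Finset.card_insert_of_notMem hi0B, Finset.card_union_of_disjoint hdis]
    apply h.pivot (insert i0 (L ∪ QL)) ∅ (P1 ∪ T) (X + 1 + ∑ j ∈ P1, av z j)
    · intro i hi
      rw [Finset.mem_insert, Finset.mem_union] at hi
      rcases hi with rfl | hi | hi
      · rw [h.av0]; omega
      · have := hLmin i hi; omega
      · rw [hQLdef, Finset.mem_filter] at hi
        exact hQL i hi.1 hi.2
    · omega
    · intro i hi2 hiB _
      rw [Finset.mem_insert, Finset.mem_union, not_or, not_or] at hiB
      rw [Finset.mem_union]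
      rcases h.cases i with h1 | h1 | h1
      · exact absurd h1 hiB.1
      · left; exact hcovP i (mem_Pos.mp h1) hiB.2.1
      · right
        rw [hT, Finset.mem_filter]
        refine ⟨h1, hi2, ?_⟩
        by_contra h5
        exact hiB.2.2 (by rw [hQLdef, Finset.mem_filter]; exact ⟨h1, by omega⟩)
    · omega
    · omega
    · omega
    · simp
    · omega
  · push Not at hQe
    have hBc : (insert i0 L).card = L.card + 1 := Finset.card_insert_of_notMem hi0L
    by_cases hex : 4 ≤ e + L.card ∨ 2 ≤ d
    · apply h.pivot (insert i0 L) ∅ (P1 ∪ T) (av z i2)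
      · intro i hi
        rw [Finset.mem_insert] at hi
        rcases hi with rfl | hi
        · rw [h.av0]; omega
        · exact hLmin i hi
      · omega
      · intro i hi2 hiB _
        rw [Finset.mem_insert, not_or] at hiB
        rw [Finset.mem_union]
        rcases h.cases i with h1 | h1 | h1
        · exact absurd h1 hiB.1
        · left; exact hcovP i (mem_Pos.mp h1) hiB.2
        · right
          rw [hT, Finset.mem_filter]
          exact ⟨h1, hi2, hQe i h1⟩
      · omega
      · omega
      · omega
      · simp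
      · rcases Nat.eq_zero_or_pos P1.card with h0 | h0
        · rw [Finset.card_eq_zero] at h0
          have h6 : ∑ i ∈ P1, (av z i - 1) = 0 := by rw [h0, Finset.sum_empty]
          omega
        · omega
    · push Not at hex
      have hT0 : T = ∅ := by rw [← Finset.card_eq_zero]; omega
      have hP0 : P1 = ∅ := by rw [← Finset.card_eq_zero]; omega
      have hL3' : L.card = 3 := by omega
      rw [hP0, Finset.card_empty] at hpcard
      rw [hP0, Finset.sum_empty] at hpsum
      -- the third large entry
      have hthird : ∀ i ∈ L, i ≠ i1 → i ≠ i2 → k ≤ av z i ∧ k ≤ av z i1 := by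
        intro i hi hii1 hii2
        have hn1 : i1 ∉ ({i2, i} : Finset κ) := by
          rw [Finset.mem_insert, Finset.mem_singleton]
          rintro (h3 | h3)
          · exact hi21 h3.symm
          · exact hii1 h3.symm
        have hLe : ({i1, i2, i} : Finset κ) = L := by
          apply Finset.eq_of_subset_of_card_le
          · intro l hl
            rw [Finset.mem_insert, Finset.mem_insert, Finset.mem_singleton] at hl
            rcases hl with rfl | rfl | rfl
            · exact hi1L
            · exact hi2L
            · exact hi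
          · rw [Finset.card_insert_of_notMem hn1, Finset.card_pair hii2.symm]
            omega
        rw [← hLe, Finset.sum_insert hn1, Finset.sum_pair hii2.symm] at hpsum
        have h5 := hall i
        have h6 := hLm i hi
        omega
      -- pick the third entry to bound `av z i1`
      have hc2 : ((L.erase i1).erase i2).card = 1 := by
        rw [Finset.card_erase_of_mem hi2, Finset.card_erase_of_mem hi1L]
        omega
      obtain ⟨i3, hi3⟩ := Finset.card_eq_one.mp hc2
      have hi3m : i3 ∈ (L.erase i1).erase i2 := by rw [hi3]; exact Finset.mem_singleton_self _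
      rw [Finset.mem_erase, Finset.mem_erase] at hi3m
      have h31 := hthird i3 hi3m.2.2 hi3m.2.1 hi3m.1
      have hi0L' : i0 ∉ L.erase i2 := fun hm => hi0L (Finset.mem_of_mem_erase hm)
      have hBc' : (insert i0 (L.erase i2)).card = 3 := by
        rw [Finset.card_insert_of_notMem hi0L', Finset.card_erase_of_mem hi2L]
        omega
      apply h.pivot (insert i0 (L.erase i2)) {i2} ∅ k
      · intro i hi
        rw [Finset.mem_insert, Finset.mem_erase] at hi
        rcases hi with rfl | ⟨hii2, hiL⟩
        · rw [h.av0]; omega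
        · by_cases hii1 : i = i1
          · rw [hii1]; exact h31.2
          · exact (hthird i hiL hii1 hii2).1
      · exact hk2
      · intro i hi2' hiB hiD
        exfalso
        rw [Finset.mem_insert, Finset.mem_erase, not_or] at hiB
        rw [Finset.mem_singleton] at hiD
        rcases h.cases i with h1 | h1 | h1
        · exact hiB.1 h1
        · have h7 := hcovP i (mem_Pos.mp h1) (fun h8 => hiB.2 ⟨hiD, h8⟩)
          rw [hP0] at h7
          exact Finset.notMem_empty _ h7
        · have h7 : i ∈ T := by
            rw [hT, Finset.mem_filter]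
            exact ⟨h1, hi2', hQe i h1⟩
          rw [hT0] at h7
          exact Finset.notMem_empty _ h7
      · rw [Finset.sum_empty]; omega
      · omega
      · omega
      · rw [Finset.card_singleton]
      · rw [Finset.sum_empty, hBc']; omega

theorem Ctx2.gammaB (h : Ctx2 z i0 k t A V) (hb : (Oe z i0 1).card < A)
    (hall : ∀ i, z i < A) : Goal z k := by
  have hVA := h.VA
  have hk2 := h.hk
  have ht := h.ht
  have hA0 := h.hA
  have hmu := h.hmu
  have hbal := h.balance
  obtain ⟨hpc, hps⟩ := h.pos_split
  have hP2av : ∀ i ∈ P2 z, z i = (av z i : ℤ) ∧ 2 ≤ av z i ∧ av z i < A ∧ i ≠ i0 := by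
    intro i hi
    have h1 := mem_P2.mp hi
    have h2 := av_of_pos (show 0 < z i by omega)
    have h3 := hall i
    refine ⟨h2.symm, by omega, by omega, ?_⟩
    rintro rfl
    omega
  have hsumP : ∀ W ⊆ P2 z, ∑ i ∈ W, z i = ((∑ i ∈ W, av z i : ℕ) : ℤ) := by
    intro W hW
    exact sum_av_pos (fun i hi => by have := hP2av i (hW hi); omega)
  have hi0P : ∀ W ⊆ P2 z, i0 ∉ W := fun W hW hm => (hP2av i0 (hW hm)).2.2.2 rfl
  rcases Nat.lt_or_ge A (∑ i ∈ P2 z, av z i) with hlt | hge
  swap
  · -- the first case
    have := h.cons 1 (Or.inl rfl) (P2 z) (hi0P _ (Finset.Subset.refl _)) (by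
      intro i hi
      have := hP2av i hi
      omega) (by rw [hsumP _ (Finset.Subset.refl _)]; omega)
      (by rw [hsumP _ (Finset.Subset.refl _)]; omega)
    rw [hsumP _ (Finset.Subset.refl _)] at this
    have h5 := h.sum_ex (P2 z)
    exact h.tiny (by omega) (by omega)
  -- a minimal subfamily of sum at least `A`
  set F := (P2 z).powerset.filter (fun W => A ≤ ∑ i ∈ W, av z i) with hF
  have hFne : F.Nonempty := ⟨P2 z, by
    rw [hF, Finset.mem_filter, Finset.mem_powerset]
    exact ⟨Finset.Subset.refl _, hlt.le⟩⟩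
  obtain ⟨X, hXF, hmin⟩ := Finset.exists_min_image F (fun W => W.card) hFne
  rw [hF, Finset.mem_filter, Finset.mem_powerset] at hXF
  obtain ⟨hXP, hXA⟩ := hXF
  have herase : ∀ x ∈ X, ∑ i ∈ X.erase x, av z i < A := by
    intro x hx
    by_contra h1
    push Not at h1
    have h2 := hmin (X.erase x) (by
      rw [hF, Finset.mem_filter, Finset.mem_powerset]
      exact ⟨(Finset.erase_subset _ _).trans hXP, h1⟩)
    have h3 := Finset.card_erase_add_one hx
    omega
  obtain ⟨s, hs⟩ : ∃ s, ∑ i ∈ X, av z i = A + s := ⟨∑ i ∈ X, av z i - A, by omega⟩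
  have hxs : ∀ x ∈ X, s + 1 ≤ av z x := by
    intro x hx
    have h1 := herase x hx
    have h2 := Finset.add_sum_erase X (av z) hx
    omega
  have hXne : X.Nonempty := by
    rw [Finset.nonempty_iff_ne_empty]
    rintro rfl
    rw [Finset.sum_empty] at hXA
    have := h.hA1
    omega
  obtain ⟨x0, hx0⟩ := hXne
  have hx0m := hP2av x0 (hXP hx0)
  have hX2 : 2 ≤ X.card := by
    by_contra hcon
    have h1 := Finset.card_erase_add_one hx0
    have h2 : X.erase x0 = ∅ := by
      rw [← Finset.card_eq_zero]; omega
    have h3 := Finset.add_sum_erase X (av z) hx0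
    rw [h2, Finset.sum_empty] at h3
    omega
  have hcex := Finset.card_erase_add_one hx0
  have hsex := Finset.add_sum_erase X (av z) hx0
  have he0 := herase x0 hx0
  have h2le : (X.erase x0).card * 2 ≤ ∑ i ∈ X.erase x0, av z i :=
    two_mul_card_le _ (fun i hi => (hP2av i (hXP (Finset.mem_of_mem_erase hi))).2.1)
  have hsle : (X.erase x0).card * (s + 1) ≤ ∑ i ∈ X.erase x0, av z i := by
    rw [← smul_eq_mul, ← Finset.sum_const]
    exact Finset.sum_le_sum (fun i hi => hxs i (Finset.mem_of_mem_erase hi))
  have hol := h.ones_le' (by omega)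
  rcases Nat.lt_or_ge (Oe z i0 (-1)).card s with hsO | hsO
  · -- `s` larger than the number of `-1`
    exfalso
    have hcons : ∀ W ⊆ X, W.Nonempty → ∑ i ∈ W, av z i ≤ A →
        ∑ i ∈ W, av z i + k ≤ W.card + A := by
      intro W hW hWne hWA
      obtain ⟨w, hw⟩ := hWne
      have h1 := Finset.single_le_sum (f := av z) (fun i _ => Nat.zero_le _) hw
      have h2 := hxs w (hW hw)
      have hWP := hW.trans hXP
      have := h.cons 1 (Or.inl rfl) W (hi0P _ hWP) (by
        intro i hi
        have := hP2av i (hWP hi)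
        omega) (by rw [hsumP _ hWP]; omega) (by rw [hsumP _ hWP]; omega)
      rw [hsumP _ hWP] at this
      omega
    have h3 := hcons (X.erase x0) (Finset.erase_subset _ _)
      (Finset.card_pos.mp (by omega)) he0.le
    have hVk := h.Vk (by omega)
    have h4 := lemmaE (av z) X A (A - k) (fun i hi => (hP2av i (hXP hi)).2.1)
      (fun i hi => (hP2av i (hXP hi)).2.2.1.le) (by omega) (by
        intro W hW hWA
        rcases Finset.eq_empty_or_nonempty W with rfl | hne
        · simp
        · have := hcons W hW hne hWA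
          omega)
    omega
  · have hc := h.cons (-1) (Or.inr rfl) X (hi0P _ hXP) (by
        intro i hi
        have := hP2av i (hXP hi)
        omega) (by rw [hsumP _ hXP]; omega) (by rw [hsumP _ hXP]; omega)
    rw [hsumP _ hXP] at hc
    have hX2' : X.card = 2 := by
      by_contra hcon
      have hm : ∃ m, (X.erase x0).card = m + 2 := ⟨(X.erase x0).card - 2, by omega⟩
      obtain ⟨m, hm⟩ := hm
      rw [hm] at hsle h2le
      have hAk : A + t + 3 ≤ 2 * k ∨ A < k := by
        rcases Nat.lt_or_ge V k with h1 | h1
        · right; omega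
        · left; have := h.Vk h1; omega
      rcases Nat.eq_zero_or_pos s with hs0 | hs0
      · omega
      · obtain ⟨s', hs'⟩ : ∃ s', s = s' + 1 := ⟨s - 1, by omega⟩
        rw [hs'] at hsle
        have h5 : (m + 2) * (s' + 1 + 1) = m * s' + 2 * m + 2 * s' + 4 := by ring
        have h6 : 0 ≤ m * s' := Nat.zero_le _
        omega
    obtain ⟨x, y, hxy, hXxy⟩ := Finset.card_eq_two.mp hX2'
    have hxX : x ∈ X := by rw [hXxy]; exact Finset.mem_insert_self _ _
    have hyX : y ∈ X := by
      rw [hXxy]; exact Finset.mem_insert_of_mem (Finset.mem_singleton_self _)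
    have hx := hP2av x (hXP hxX)
    have hy := hP2av y (hXP hyX)
    have hks : k ≤ s + 2 := by
      rw [hX2'] at hc
      omega
    rw [hXxy, Finset.sum_pair hxy] at hs
    rcases le_total (av z y) (av z x) with hle | hle
    · exact h.gammaCore hall (by omega) x y hxy.symm (A - av z x) s (by omega) (by omega)
        (by omega) hks hsO
    · exact h.gammaCore hall (by omega) y x hxy (A - av z y) s (by omega) (by omega)
        (by omega) hks hsO

theorem Ctx2.all (h : Ctx2 z i0 k t A V) : Goal z k := by
  rcases Nat.lt_or_ge (Oe z i0 1).card A with hb | hb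
  swap
  · exact h.beta hb
  by_cases hall : ∀ i, z i < A
  · exact h.gammaB hb hall
  · push Not at hall
    obtain ⟨j, hj⟩ := hall
    obtain ⟨i1, hi1, hmin⟩ := Finset.exists_min_image
      (Finset.univ.filter (fun i => (A : ℤ) ≤ z i)) z ⟨j, by simpa using hj⟩
    apply h.gammaA hb i1 (by simpa using hi1)
    intro i hi
    exact hmin i (by simpa using hi)

end

end Pool.Agent.Helper14.ZeroSum
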