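import Mathlib
import Pool.Agent.Helper14.ZeroSum.GammaB

/-!
From the integer situation to real vectors.
-/

namespace Pool.Agent.Helper14.ZeroSum

open Finset

section
variable {κ : Type*} [Fintype κ] [DecidableEq κ]

theorem Ctx.goal {z : κ → ℤ} {i0 : κ} {k t A : ℕ} (h : Ctx z i0 k t A) (j1 : κ)
    (hj1 : av z j1 = 1) : Goal z k := by
  by_cases hp : 2 * k ≤ (Pos z).card + 1
  · exact h.manyPos hp
  push Not at hp
  obtain ⟨j, _, hj⟩ := Finset.exists_max_image Finset.univ (av z) ⟨i0, Finset.mem_univ _⟩
  set V := av z j with hV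
  have hk := h.hk
  by_cases hmu : (ones z).card ≤ V + t
  · rcases Nat.lt_or_ge V 2 with hV2 | hV2
    · -- all entries are `±1`
      exfalso
      have hall : ∀ i, av z i = 1 := by
        intro i
        have h1 := hj i (Finset.mem_univ _)
        have h2 := h.avpos i
        omega
      have hPne : (Pos z).Nonempty := by
        rw [Finset.nonempty_iff_ne_empty]
        intro h0
        have := h.balance
        rw [h0, Finset.sum_empty] at this
        have := h.hA1
        omega
      obtain ⟨i, hi⟩ := hPne
      have hi' := mem_Pos.mp hi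
      have h1 := hall i
      have h2 := hall i0
      have h3 := av_of_pos hi'
      rw [h.av0] at h2
      have hne : i0 ≠ i := by
        rintro rfl
        exact h.i0_notMem_Pos hi
      have := h.hC {i0, i} (Finset.mem_insert_self _ _) (by
        rw [Finset.sum_pair hne, h.hA]; omega)
      rw [Finset.card_pair hne] at this
      omega
    · exact h.fewOnes V j j1 rfl hV2 hj1 hmu
  push Not at hmu
  by_cases hkV : k ≤ V ∧ 2 * k ≤ (ones z).card + 1
  · exact h.manyOnes j hkV.1 hkV.2
  · have h2 : Ctx2 z i0 k t A V :=
      { toCtx := h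
        hV := fun i => hj i (Finset.mem_univ _)
        hmu := by omega
        hmu2 := by
          intro h3
          by_contra h4
          exact hkV ⟨h3, by omega⟩
        hp := by omega }
    exact h2.all

/-- passing to absolute values -/
theorem cnt_eq_zs (z : κ → ℝ) :
    cnt z Finset.univ {0} = zs (fun i => |z i|) Finset.univ 0
      (∑ i ∈ Finset.univ.filter (fun i => z i < 0), |z i|) := by
  classical
  set N : Finset κ := Finset.univ.filter (fun i => z i < 0) with hN
  have hNm : ∀ i, i ∈ N ↔ z i < 0 := by intro i; simp [hN]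
  have key : ∀ B : Finset κ, ∑ i ∈ symmDiff B N, |z i| = ∑ i ∈ B, z i + ∑ i ∈ N, |z i| := by
    intro B
    have h1 : symmDiff B N = (B \ N) ∪ (N \ B) := rfl
    have h2 : Disjoint (B \ N) (N \ B) := by
      rw [Finset.disjoint_left]
      intro i hi hi2
      exact (Finset.mem_sdiff.mp hi).2 (Finset.mem_sdiff.mp hi2).1
    rw [h1, Finset.sum_union h2]
    have h3 : ∑ i ∈ B \ N, |z i| = ∑ i ∈ B \ N, z i := by
      apply Finset.sum_congr rfl
      intro i hi
      have := (Finset.mem_sdiff.mp hi).2
      rw [hNm] at this
      exact abs_of_nonneg (not_lt.mp this)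
    have h4 : ∑ i ∈ N ∩ B, |z i| = - ∑ i ∈ N ∩ B, z i := by
      rw [← Finset.sum_neg_distrib]
      apply Finset.sum_congr rfl
      intro i hi
      have := (Finset.mem_inter.mp hi).1
      rw [hNm] at this
      exact abs_of_neg this
    have h5 : ∑ i ∈ N \ B, |z i| + ∑ i ∈ N ∩ B, |z i| = ∑ i ∈ N, |z i| := by
      rw [add_comm]; exact Finset.sum_inter_add_sum_sdiff N B _
    have h6 : ∑ i ∈ B \ N, z i + ∑ i ∈ N ∩ B, z i = ∑ i ∈ B, z i := by
      rw [Finset.inter_comm, add_comm]; exact Finset.sum_inter_add_sum_sdiff B N _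
    rw [h3]
    linarith
  unfold cnt zs
  apply Finset.card_nbij' (fun B => symmDiff B N) (fun B => symmDiff B N)
  · intro B hB
    simp only [Finset.coe_filter, Finset.mem_powerset, Finset.mem_singleton,
      Set.mem_ofPred_eq] at hB ⊢
    refine ⟨Finset.subset_univ _, ?_⟩
    rw [key, hB.2]
    ring
  · intro B hB
    simp only [Finset.coe_filter, Finset.mem_powerset, Finset.mem_singleton,
      Set.mem_ofPred_eq] at hB ⊢
    refine ⟨Finset.subset_univ _, ?_⟩
    have := key (symmDiff B N)
    rw [symmDiff_symmDiff_cancel_right] at this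
    linarith [hB.2]
  · intro B _
    exact symmDiff_symmDiff_cancel_right _ _
  · intro B _
    exact symmDiff_symmDiff_cancel_right _ _

/-- the case of at least `2k+2` entries -/
theorem large_case (z : κ → ℝ) (i0 : κ) (k : ℕ) (hz : ∀ i, z i ≠ 0) (hsum : ∑ i, z i = 0)
    (hneg : z i0 < 0) (hC : ∀ B : Finset κ, i0 ∈ B → ∑ i ∈ B, z i = 0 → k + 1 ≤ B.card)
    (hk : 2 ≤ k) (hn : 2 * k + 2 ≤ Fintype.card κ) :
    Fin' k (Fintype.card κ) (cnt z Finset.univ {0}) := by
  classical
  rw [cnt_eq_zs]
  set N : Finset κ := Finset.univ.filter (fun i => z i < 0) with hN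
  set a : κ → ℝ := fun i => |z i| with ha
  have hapos : ∀ i, 0 < a i := fun i => abs_pos.mpr (hz i)
  obtain ⟨j0, _, hj0⟩ := Finset.exists_min_image Finset.univ a ⟨i0, Finset.mem_univ _⟩
  set m := a j0 with hm
  have hmpos : 0 < m := hapos j0
  by_cases hint : ∀ i, ∃ c : ℕ, a i = c * m
  · -- integer case
    choose c hc using hint
    set w : κ → ℤ := fun i => if z i < 0 then -(c i : ℤ) else (c i : ℤ) with hw
    have hzw : ∀ i, z i = m * (w i : ℝ) := by
      intro i
      simp only [hw]
      split_ifs with h1
      · have h2 := hc i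
        simp only [ha] at h2
        rw [abs_of_neg h1] at h2
        push_cast
        linarith
      · have h2 := hc i
        simp only [ha] at h2
        rw [abs_of_nonneg (not_lt.mp h1)] at h2
        push_cast
        linarith
    have havc : ∀ i, av w i = c i := by
      intro i
      unfold av
      simp only [hw]
      split_ifs <;> omega
    have hsumw : ∀ B : Finset κ, ∑ i ∈ B, z i = m * ((∑ i ∈ B, w i : ℤ) : ℝ) := by
      intro B
      push_cast
      rw [Finset.mul_sum]
      exact Finset.sum_congr rfl (fun i _ => hzw i)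
    have hctx : Ctx w i0 k (Fintype.card κ - 2 * k - 1) (c i0) :=
      { hz := by
          intro i h0
          apply hz i
          rw [hzw i, h0]
          simp
        hsum := by
          have h1 := hsumw Finset.univ
          rw [hsum] at h1
          have h2 : ((∑ i, w i : ℤ) : ℝ) = 0 := by
            rcases mul_eq_zero.mp h1.symm with h3 | h3
            · exact absurd h3 hmpos.ne'
            · exact h3
          exact_mod_cast h2
        hA := by simp only [hw]; rw [if_pos hneg]
        hC := by
          intro B hB hB0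
          apply hC B hB
          rw [hsumw, hB0]
          simp
        hk := hk
        ht := by omega
        hcard := by omega }
    have hg := hctx.goal j0 (by
      rw [havc]
      have h1 := hc j0
      rw [← hm] at h1
      have h2 : ((c j0 : ℕ) : ℝ) = 1 := by
        have h3 : ((c j0 : ℕ) : ℝ) * m = 1 * m := by rw [one_mul]; exact h1.symm
        exact mul_right_cancel₀ hmpos.ne' h3
      exact_mod_cast h2)
    have hfin := hg 0 (∑ i ∈ N, av w i)
    have hzs : zs a Finset.univ 0 (∑ i ∈ N, |z i|) = zs (av w) Finset.univ 0 (∑ i ∈ N, av w i) := by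
      unfold zs
      congr 1
      apply Finset.filter_congr
      intro C _
      have h1 : ∀ B : Finset κ, ∑ i ∈ B, a i = ((∑ i ∈ B, av w i : ℕ) : ℝ) * m := by
        intro B
        push_cast
        rw [Finset.sum_mul]
        apply Finset.sum_congr rfl
        intro i _
        rw [havc]
        exact hc i
      have h2 : ∑ i ∈ N, |z i| = ∑ i ∈ N, a i := rfl
      rw [h2, h1, h1, zero_add, zero_add]
      constructor
      · intro h3
        have h4 := mul_right_cancel₀ hmpos.ne' h3
        exact_mod_cast h4
      · intro h3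
        rw [h3]
    rw [hzs]
    exact hfin
  · -- an entry which is not a multiple of the smallest one
    push Not at hint
    obtain ⟨i, hi⟩ := hint
    have hij : j0 ≠ i := by
      rintro rfl
      exact hi 1 (by push_cast; ring)
    set R : Finset κ := (Finset.univ.erase j0).erase i with hR
    have hRc : R.card + 2 = Fintype.card κ := by
      have h1 : i ∈ (Finset.univ : Finset κ).erase j0 :=
        Finset.mem_erase.mpr ⟨hij.symm, Finset.mem_univ _⟩
      have h2 := Finset.card_erase_add_one h1
      have h3 := Finset.card_erase_add_one (Finset.mem_univ j0)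
      rw [Finset.card_univ] at h3
      rw [← hR] at h2
      omega
    set Y1 := R.filter (fun x => m < a x) with hY1
    set Y2 := R.filter (fun x => ¬ m < a x) with hY2
    have hYc : Y1.card + Y2.card = R.card := Finset.card_filter_add_card_filter_not _
    have hY2m : ∀ x ∈ Y2, a x = m := by
      intro x hx
      have h1 := (Finset.mem_filter.mp hx).2
      have h2 := hj0 x (Finset.mem_univ _)
      exact le_antisymm (not_lt.mp h1) h2
    have hR1 : j0 ∉ R := fun h => (Finset.mem_erase.mp (Finset.mem_erase.mp h).2).1 rfl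
    have hR2 : i ∉ R := fun h => (Finset.mem_erase.mp h).1 rfl
    have := rule_T2 a Finset.univ Y1 Y2 j0 i k (fun x _ => hapos x) (Finset.mem_univ _)
      (Finset.mem_univ _) hij (Finset.subset_univ _) (Finset.subset_univ _)
      (Finset.disjoint_filter_filter_not _ _ _)
      (fun h => hR1 (Finset.mem_filter.mp h).1) (fun h => hR1 (Finset.mem_filter.mp h).1)
      (fun h => hR2 (Finset.mem_filter.mp h).1) (fun h => hR2 (Finset.mem_filter.mp h).1) (by
        intro D hD hDs
        rcases Finset.eq_empty_or_nonempty D with rfl | ⟨x, hx⟩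
        · rw [Finset.sum_empty] at hDs
          exact absurd hDs hmpos.ne
        · have h1 := Finset.single_le_sum (f := a) (fun i _ => (hapos i).le) hx
          have h2 := (Finset.mem_filter.mp (hD hx)).2
          rw [hDs] at h1
          exact absurd h1 (not_le.mpr h2)) (by
        intro D hD hDs
        rw [Finset.sum_congr rfl (fun x hx => hY2m x (hD hx)), Finset.sum_const,
          nsmul_eq_mul] at hDs
        exact hi D.card hDs.symm) (by omega) 0 (∑ i ∈ N, |z i|)
    rw [Finset.card_univ] at this
    exact fin_of_half (by omega) this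

/-- the case of `2k` or `2k+1` entries -/
theorem small_case (z : κ → ℝ) (i0 : κ) (k : ℕ) (hz : ∀ i, z i ≠ 0) (hsum : ∑ i, z i = 0)
    (hneg : z i0 < 0) (hC : ∀ B : Finset κ, i0 ∈ B → ∑ i ∈ B, z i = 0 → k + 1 ≤ B.card)
    (hk : 2 ≤ k) (hn : 2 * k ≤ Fintype.card κ) (hn2 : Fintype.card κ ≤ 2 * k + 1) :
    Fin' k (Fintype.card κ) (cnt z Finset.univ {0}) := by
  classical
  rw [cnt_eq_zs]
  set N : Finset κ := Finset.univ.filter (fun i => z i < 0) with hN
  have hNm : ∀ i, i ∈ N ↔ z i < 0 := by intro i; simp [hN]
  set a : κ → ℝ := fun i => |z i| with ha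
  have hapos : ∀ i, 0 < a i := fun i => abs_pos.mpr (hz i)
  set P : Finset κ := Finset.univ.filter (fun i => 0 < z i) with hP
  have hPm : ∀ i, i ∈ P ↔ 0 < z i := by intro i; simp [hP]
  have hi0P : i0 ∉ P := by rw [hPm]; linarith
  have hcol : ∀ D ⊆ P, ∑ i ∈ D, a i = a i0 → k ≤ D.card := by
    intro D hD hDs
    have hi0D : i0 ∉ D := fun hm => hi0P (hD hm)
    have h1 : ∑ i ∈ D, a i = ∑ i ∈ D, z i := by
      apply Finset.sum_congr rfl
      intro i hi
      exact abs_of_pos ((hPm i).mp (hD hi))
    have h2 : a i0 = - z i0 := abs_of_neg hneg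
    have := hC (insert i0 D) (Finset.mem_insert_self _ _) (by
      rw [Finset.sum_insert hi0D]; linarith)
    rw [Finset.card_insert_of_notMem hi0D] at this
    omega
  by_cases hp : 2 * k ≤ P.card + 1
  · obtain ⟨P', hP', hP'c⟩ := Finset.exists_subset_card_eq (show 2 * k - 1 ≤ P.card by omega)
    have := rule_far a Finset.univ P' ∅ i0 k (fun i _ => hapos i)
      (Finset.mem_univ _) (Finset.subset_univ _) (Finset.subset_univ _)
      (Finset.disjoint_empty_right _) (fun hmem => hi0P (hP' hmem))
      (Finset.notMem_empty _) (by rw [Finset.card_empty]; omega) 0 (∑ i ∈ N, |z i|)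
      (fun D hD => hcol D (hD.trans hP')) (by
        intro C _ _ _ D _ hDY
        rw [Finset.subset_empty.mp hDY, Finset.sum_empty]
        exact (hapos i0).ne)
    rwa [Finset.card_univ] at this
  push Not at hp
  set Q : Finset κ := Finset.univ.filter (fun i => z i < 0 ∧ i ≠ i0) with hQ
  have hQm : ∀ i, i ∈ Q ↔ z i < 0 ∧ i ≠ i0 := by intro i; simp [hQ]
  have hPQ : Disjoint P Q := by
    rw [Finset.disjoint_left]
    intro i hi hi'
    rw [hPm] at hi
    rw [hQm] at hi'
    linarith [hi'.1]
  have hcardPQ : P.card + Q.card + 1 = Fintype.card κ := by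
    have h1 : (Finset.univ : Finset κ) = insert i0 (P ∪ Q) := by
      ext i
      simp only [Finset.mem_univ, Finset.mem_insert, Finset.mem_union, true_iff]
      rw [hPm, hQm]
      by_cases hi : i = i0
      · left; exact hi
      · right
        rcases lt_or_gt_of_ne (hz i) with h1 | h1
        · right; exact ⟨h1, hi⟩
        · left; exact h1
    have h2 : i0 ∉ P ∪ Q := by
      rw [Finset.mem_union, hQm]
      rintro (h3 | h3)
      · exact hi0P h3
      · exact h3.2 rfl
    rw [← Finset.card_univ, h1, Finset.card_insert_of_notMem h2,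
      Finset.card_union_of_disjoint hPQ]
  obtain ⟨Y, hY, hYc⟩ := Finset.exists_subset_card_eq
    (show 2 * k - 1 - P.card ≤ Q.card by omega)
  have := rule_far a Finset.univ P Y i0 k (fun i _ => hapos i)
    (Finset.mem_univ _) (Finset.subset_univ _) (Finset.subset_univ _)
    (Finset.disjoint_of_subset_right hY hPQ) hi0P
    (fun hm => ((hQm i0).mp (hY hm)).2 rfl) (by omega) 0 (∑ i ∈ N, |z i|) hcol (by
      intro C _ hi0C hCs D hDC hDY hDs
      -- the zero-sum set `B` corresponding to `C`
      set B := symmDiff C N with hB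
      have key : ∀ B : Finset κ, ∑ i ∈ symmDiff B N, |z i| = ∑ i ∈ B, z i + ∑ i ∈ N, |z i| := by
        intro B
        have h1 : symmDiff B N = (B \ N) ∪ (N \ B) := rfl
        have h2 : Disjoint (B \ N) (N \ B) := by
          rw [Finset.disjoint_left]
          intro i hi hi2
          exact (Finset.mem_sdiff.mp hi).2 (Finset.mem_sdiff.mp hi2).1
        rw [h1, Finset.sum_union h2]
        have h3 : ∑ i ∈ B \ N, |z i| = ∑ i ∈ B \ N, z i := by
          apply Finset.sum_congr rfl
          intro i hi
          have := (Finset.mem_sdiff.mp hi).2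
          rw [hNm] at this
          exact abs_of_nonneg (not_lt.mp this)
        have h4 : ∑ i ∈ N ∩ B, |z i| = - ∑ i ∈ N ∩ B, z i := by
          rw [← Finset.sum_neg_distrib]
          apply Finset.sum_congr rfl
          intro i hi
          have := (Finset.mem_inter.mp hi).1
          rw [hNm] at this
          exact abs_of_neg this
        have h5 : ∑ i ∈ N \ B, |z i| + ∑ i ∈ N ∩ B, |z i| = ∑ i ∈ N, |z i| := by
          rw [add_comm]; exact Finset.sum_inter_add_sum_sdiff N B _
        have h6 : ∑ i ∈ B \ N, z i + ∑ i ∈ N ∩ B, z i = ∑ i ∈ B, z i := by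
          rw [Finset.inter_comm, add_comm]; exact Finset.sum_inter_add_sum_sdiff B N _
        rw [h3]
        linarith
      have hBs : ∑ i ∈ B, z i = 0 := by
        have h1 := key B
        rw [hB, symmDiff_symmDiff_cancel_right] at h1
        have h2 : ∑ i ∈ C, |z i| = ∑ i ∈ C, a i := rfl
        rw [zero_add] at hCs
        rw [h2, hCs] at h1
        linarith
      have hi0B : i0 ∈ B := by
        rw [hB, Finset.mem_symmDiff]
        right
        exact ⟨(hNm i0).mpr hneg, hi0C⟩
      have hDB : Disjoint D B := by
        rw [Finset.disjoint_left]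
        intro i hi hi'
        rw [hB, Finset.mem_symmDiff] at hi'
        have h1 := hDC hi
        have h2 : i ∈ N := (hNm i).mpr ((hQm i).mp (hY (hDY hi))).1
        rcases hi' with h3 | h3
        · exact h3.2 h2
        · exact h3.2 h1
      have hBc := hC B hi0B hBs
      -- the set `B'`
      have hDs' : ∑ i ∈ D, z i = z i0 := by
        have h1 : ∑ i ∈ D, a i = - ∑ i ∈ D, z i := by
          rw [← Finset.sum_neg_distrib]
          apply Finset.sum_congr rfl
          intro i hi
          exact abs_of_neg ((hQm i).mp (hY (hDY hi))).1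
        have h2 : a i0 = - z i0 := abs_of_neg hneg
        linarith
      have hdis : Disjoint (B.erase i0) D :=
        Finset.disjoint_of_subset_left (Finset.erase_subset _ _) hDB.symm
      have hi0D : i0 ∉ D := fun hm => ((hQm i0).mp (hY (hDY hm))).2 rfl
      have hB's : ∑ i ∈ (B.erase i0) ∪ D, z i = 0 := by
        rw [Finset.sum_union hdis, hDs']
        have := Finset.add_sum_erase B z hi0B
        linarith
      have hi0B' : i0 ∈ ((B.erase i0) ∪ D)ᶜ := by
        rw [Finset.mem_compl, Finset.mem_union]
        rintro (h1 | h1)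
        · exact (Finset.mem_erase.mp h1).1 rfl
        · exact hi0D h1
      have hcomp : ∑ i ∈ ((B.erase i0) ∪ D)ᶜ, z i = 0 := by
        have := Finset.sum_add_sum_compl ((B.erase i0) ∪ D) z
        linarith
      have h7 := hC _ hi0B' hcomp
      rw [Finset.card_compl, Finset.card_union_of_disjoint hdis] at h7
      have h8 := Finset.card_erase_add_one hi0B
      have hDne : 1 ≤ D.card := by
        rw [Nat.one_le_iff_ne_zero]
        intro h0
        rw [Finset.card_eq_zero] at h0
        rw [h0, Finset.sum_empty] at hDs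
        exact (hapos i0).ne hDs
      omega)
  rwa [Finset.card_univ] at this

theorem Mprime (z : κ → ℝ) (i0 : κ) (k : ℕ) (hz : ∀ i, z i ≠ 0) (hsum : ∑ i, z i = 0)
    (hC : ∀ B : Finset κ, i0 ∈ B → ∑ i ∈ B, z i = 0 → k + 1 ≤ B.card)
    (hk : 2 ≤ k) (hn : 2 * k ≤ Fintype.card κ) :
    Fin' k (Fintype.card κ) (cnt z Finset.univ {0}) := by
  classical
  have main : ∀ z : κ → ℝ, (∀ i, z i ≠ 0) → ∑ i, z i = 0 → z i0 < 0 →
      (∀ B : Finset κ, i0 ∈ B → ∑ i ∈ B, z i = 0 → k + 1 ≤ B.card) →
      Fin' k (Fintype.card κ) (cnt z Finset.univ {0}) := by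
    intro z hz hsum hneg hC
    rcases Nat.lt_or_ge (Fintype.card κ) (2 * k + 2) with h | h
    · exact small_case z i0 k hz hsum hneg hC hk hn (by omega)
    · exact large_case z i0 k hz hsum hneg hC hk h
  rcases lt_or_gt_of_ne (hz i0) with h | h
  · exact main z hz hsum h hC
  · have h1 := main (fun i => - z i) (fun i => neg_ne_zero.mpr (hz i))
      (by rw [Finset.sum_neg_distrib, hsum, neg_zero]) (by linarith)
      (fun B hB hB0 => hC B hB (by rw [Finset.sum_neg_distrib] at hB0; linarith))
    have h2 : cnt (fun i => - z i) Finset.univ {0} = cnt z Finset.univ {0} := by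
      unfold cnt
      congr 1
      apply Finset.filter_congr
      intro T _
      rw [Finset.mem_singleton, Finset.mem_singleton, Finset.sum_neg_distrib, neg_eq_zero]
    rw [h2] at h1
    exact h1

end

end Pool.Agent.Helper14.ZeroSum
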