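import Mathlib
import Pool.Agent.Helper14.ZeroSum.Count

/-!
The two cases of the upper bound.
-/

namespace Pool.Agent.Helper14.ZeroSum

open Finset

variable {ι : Type*} [DecidableEq ι]

theorem middle_add_le (m t : ℕ) : S (m + t) 1 ≤ 2 ^ t * S m 1 := by
  induction t with
  | zero => simp
  | succ t ih =>
    have h1 : S (m + (t + 1)) 1 = S (m + t) 2 + S (m + t) 0 := S_succ_succ (m + t) 0
    have h2 := S_concave (m + t) 0
    rw [pow_succ]
    simp only [Nat.zero_add] at h2
    nlinarith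

/-- positive/negative parts of a family of nonzero reals -/
theorem filter_pos_neg (x : ι → ℝ) (D : Finset ι) (hx : ∀ i ∈ D, x i ≠ 0) :
    D.filter (fun i => 0 < x i) ∪ D.filter (fun i => x i < 0) = D := by
  ext i
  simp only [Finset.mem_union, Finset.mem_filter]
  constructor
  · rintro (h | h) <;> exact h.1
  · intro h
    rcases lt_or_gt_of_ne (hx i h) with h1 | h1
    · right; exact ⟨h, h1⟩
    · left; exact ⟨h, h1⟩

theorem irred_of (x : ι → ℝ) (D : Finset ι) (hx : ∀ i ∈ D, x i ≠ 0)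
    (hirr : ∀ T ⊆ D, ∑ i ∈ T, x i = 0 → T = ∅ ∨ T = D) :
    Irred x (D.filter (fun i => 0 < x i)) (D.filter (fun i => x i < 0)) where
  disj := by
    rw [Finset.disjoint_left]
    intro i h1 h2
    rw [Finset.mem_filter] at h1 h2
    linarith [h1.2, h2.2]
  pos := fun i hi => (Finset.mem_filter.mp hi).2
  neg := fun i hi => (Finset.mem_filter.mp hi).2
  irr := by
    rw [filter_pos_neg x D hx]
    exact hirr

omit [DecidableEq ι] in
theorem parts_nonempty (x : ι → ℝ) (D : Finset ι) (hx : ∀ i ∈ D, x i ≠ 0) (hD : D.Nonempty)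
    (hsum : ∑ i ∈ D, x i = 0) :
    (D.filter (fun i => 0 < x i)).Nonempty ∧ (D.filter (fun i => x i < 0)).Nonempty := by
  constructor
  · by_contra h
    rw [Finset.not_nonempty_iff_eq_empty, Finset.filter_eq_empty_iff] at h
    have h1 : ∀ i ∈ D, x i ≤ 0 := fun i hi => not_lt.mp (h hi)
    obtain ⟨i, hi⟩ := hD
    exact hx i hi ((Finset.sum_eq_zero_iff_of_nonpos h1).mp hsum i hi)
  · by_contra h
    rw [Finset.not_nonempty_iff_eq_empty, Finset.filter_eq_empty_iff] at h
    have h1 : ∀ i ∈ D, 0 ≤ x i := fun i hi => not_lt.mp (h hi)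
    obtain ⟨i, hi⟩ := hD
    exact hx i hi ((Finset.sum_eq_zero_iff_of_nonneg h1).mp hsum i hi)

/-- Between a small and a large zero-sum set there is an irreducible zero-sum set of size at
least `c + 2`. -/
theorem exists_irreducible (x : ι → ℝ) (I : Finset ι) (c r : ℕ)
    (hadm : ∀ B ⊆ I, ∑ i ∈ B, x i = 0 → B.card + c < r ∨ r < B.card)
    (B₀ : Finset ι) (hB₀ : B₀ ⊆ I) (hs₀ : ∑ i ∈ B₀, x i = 0) (hc₀ : r < B₀.card) :
    ∃ D ⊆ I, ∑ i ∈ D, x i = 0 ∧ c + 2 ≤ D.card ∧
      ∀ T ⊆ D, ∑ i ∈ T, x i = 0 → T = ∅ ∨ T = D := by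
  classical
  set F : Finset (Finset ι × Finset ι) := (I.powerset ×ˢ I.powerset).filter
    (fun p => p.1 ⊆ p.2 ∧ ∑ i ∈ p.1, x i = 0 ∧ ∑ i ∈ p.2, x i = 0 ∧ p.1.card + c < r ∧
      r < p.2.card) with hF
  have hFmem : ∀ p, p ∈ F ↔ (p.1 ⊆ I ∧ p.2 ⊆ I) ∧ p.1 ⊆ p.2 ∧ ∑ i ∈ p.1, x i = 0 ∧
      ∑ i ∈ p.2, x i = 0 ∧ p.1.card + c < r ∧ r < p.2.card := by
    intro p
    rw [hF, Finset.mem_filter, Finset.mem_product, Finset.mem_powerset, Finset.mem_powerset]
  have hcr : (∅ : Finset ι).card + c < r := by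
    rcases hadm ∅ (Finset.empty_subset _) (by simp) with h | h
    · exact h
    · simp at h
  have hne : F.Nonempty := by
    refine ⟨(∅, B₀), ?_⟩
    rw [hFmem]
    exact ⟨⟨Finset.empty_subset _, hB₀⟩, Finset.empty_subset _, by simp, hs₀, hcr, hc₀⟩
  obtain ⟨⟨C, B⟩, hmem, hmin⟩ := Finset.exists_min_image F (fun p => (p.2 \ p.1).card) hne
  rw [hFmem] at hmem
  obtain ⟨⟨hCI, hBI⟩, hCB, hsC, hsB, hcC, hcB⟩ := hmem
  simp only at hCI hBI hCB hsC hsB hcC hcB hmin
  have hsD : ∑ i ∈ B \ C, x i = 0 := by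
    have := Finset.sum_sdiff (f := x) hCB
    linarith
  have hDcard : (B \ C).card = B.card - C.card := Finset.card_sdiff_of_subset hCB
  refine ⟨B \ C, Finset.sdiff_subset.trans hBI, hsD, by omega, ?_⟩
  intro T hT hsT
  by_contra hcon
  push Not at hcon
  obtain ⟨hT0, hTD⟩ := hcon
  have hdis : Disjoint C T := by
    rw [Finset.disjoint_left]
    intro i hi hiT
    exact (Finset.mem_sdiff.mp (hT hiT)).2 hi
  have hTB : T ⊆ B := hT.trans Finset.sdiff_subset
  have hCT : C ∪ T ⊆ B := Finset.union_subset hCB hTB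
  have hsCT : ∑ i ∈ C ∪ T, x i = 0 := by
    rw [Finset.sum_union hdis, hsC, hsT, add_zero]
  have hcCT : (C ∪ T).card = C.card + T.card := Finset.card_union_of_disjoint hdis
  have hTpos : 0 < T.card := Finset.card_pos.mpr hT0
  have hTlt : T.card < (B \ C).card :=
    Finset.card_lt_card (Finset.ssubset_iff_subset_ne.mpr ⟨hT, hTD⟩)
  rcases hadm (C ∪ T) (hCT.trans hBI) hsCT with h | h
  · have := hmin (C ∪ T, B) (by
      rw [hFmem]
      exact ⟨⟨hCT.trans hBI, hBI⟩, hCT, hsCT, hsB, h, hcB⟩)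
    simp only at this
    rw [Finset.card_sdiff_of_subset hCT] at this
    omega
  · have := hmin (C, C ∪ T) (by
      rw [hFmem]
      exact ⟨⟨hCI, hCT.trans hBI⟩, Finset.subset_union_left, hsC, hsCT, hcC, h⟩)
    simp only at this
    rw [Finset.card_sdiff_of_subset Finset.subset_union_left] at this
    omega

theorem case_large (x : ι → ℝ) (I : Finset ι) (c r : ℕ) (hx : ∀ i ∈ I, x i ≠ 0)
    (hadm : ∀ B ⊆ I, ∑ i ∈ B, x i = 0 → B.card + c < r ∨ r < B.card)
    (B₀ : Finset ι) (hB₀ : B₀ ⊆ I) (hs₀ : ∑ i ∈ B₀, x i = 0) (hc₀ : r < B₀.card) :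
    2 ^ c * cnt x I {0} ≤ (I.card + c).choose ((I.card + c) / 2) := by
  classical
  obtain ⟨D, hDI, hsD, hcD, hirr⟩ := exists_irreducible x I c r hadm B₀ hB₀ hs₀ hc₀
  have hxD : ∀ i ∈ D, x i ≠ 0 := fun i hi => hx i (hDI hi)
  have hDne : D.Nonempty := by rw [← Finset.card_pos]; omega
  have hirred := irred_of x D hxD hirr
  obtain ⟨hPne, hQne⟩ := parts_nonempty x D hxD hDne hsD
  have hPQ := filter_pos_neg x D hxD
  set P := D.filter (fun i => 0 < x i) with hP
  set Q := D.filter (fun i => x i < 0) with hQ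
  obtain ⟨α, hα⟩ : ∃ α, P.card = α + 1 := ⟨P.card - 1, by
    have := Finset.card_pos.mpr hPne; omega⟩
  obtain ⟨β, hβ⟩ : ∃ β, Q.card = β + 1 := ⟨Q.card - 1, by
    have := Finset.card_pos.mpr hQne; omega⟩
  have hDcard : D.card = α + β + 2 := by
    rw [← hPQ, Finset.card_union_of_disjoint hirred.disj, hα, hβ]
    ring
  have hbase : ∀ Λ, 2 ^ (α + β) * cnt x D Λ ≤ S (2 * (α + β) + 2) Λ.card := by
    intro Λ
    have := hirred.bound (by rw [hPQ]; exact hsD) α β hα hβ Λ
    rwa [hPQ] at this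
  have hk := kleitman x D (2 ^ (α + β)) (2 * (α + β) + 2) hbase (I \ D) Finset.disjoint_sdiff
    (fun e he => hx e (Finset.mem_sdiff.mp he).1) {0}
  rw [Finset.union_sdiff_of_subset hDI, Finset.card_singleton,
    Finset.card_sdiff_of_subset hDI, hDcard] at hk
  have hIc : α + β + 2 ≤ I.card := by rw [← hDcard]; exact Finset.card_le_card hDI
  obtain ⟨t, ht⟩ : ∃ t, α + β = c + t := ⟨α + β - c, by omega⟩
  have e1 : 2 * (α + β) + 2 + (I.card - (α + β + 2)) = (I.card + c) + t := by omega
  rw [e1] at hk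
  have h1 := hk.trans (middle_add_le (I.card + c) t)
  rw [S_one, ht, pow_add] at h1
  have hpos : 0 < 2 ^ t := by positivity
  have h2 : 2 ^ t * (2 ^ c * cnt x I {0}) ≤
      2 ^ t * ((I.card + c).choose ((I.card + c) / 2)) := by
    calc 2 ^ t * (2 ^ c * cnt x I {0}) = 2 ^ c * 2 ^ t * cnt x I {0} := by ring
      _ ≤ _ := h1
  exact Nat.le_of_mul_le_mul_left h2 hpos

/-- extend a vector by one more entry `-s` -/
def ext (x : ι → ℝ) (s : ℝ) : Option ι → ℝ
  | none => -s
  | some i => x i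

theorem cnt_map {κ : Type*} [DecidableEq κ] (f : ι ↪ κ) (y : κ → ℝ) (I : Finset ι)
    (Λ : Finset ℝ) : cnt y (I.map f) Λ = cnt (fun i => y (f i)) I Λ := by
  classical
  induction I using Finset.induction_on generalizing Λ with
  | empty =>
    simp only [cnt, Finset.map_empty, Finset.powerset_empty, Finset.card_filter,
      Finset.sum_singleton, Finset.sum_empty]
    split_ifs <;> rfl
  | insert e I he ih =>
    rw [Finset.map_insert, cnt_insert y _ _ (by simpa using he), cnt_insert _ _ _ he, ih, ih]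

theorem case_small (x : ι → ℝ) (I : Finset ι) (c r : ℕ) (hx : ∀ i ∈ I, x i ≠ 0)
    (hadm : ∀ B ⊆ I, ∑ i ∈ B, x i = 0 → B.card + c < r) (hr : r + 1 ≤ I.card + c) :
    ((2 ^ c * cnt x I {0} : ℕ) : ℝ) ≤
      2 ^ (I.card + c) * (1 / 2 * lam ((I.card + c - r + 1) / 2)) := by
  classical
  -- a largest zero-sum set
  set F := I.powerset.filter (fun B => ∑ i ∈ B, x i = 0) with hF
  have hne : F.Nonempty := ⟨∅, by simp [hF]⟩
  obtain ⟨E, hE, hmax⟩ := Finset.exists_max_image F (fun B => B.card) hne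
  rw [hF, Finset.mem_filter, Finset.mem_powerset] at hE
  obtain ⟨hEI, hsE⟩ := hE
  have hEc := hadm E hEI hsE
  set D := I \ E with hD
  have hDc : D.card = I.card - E.card := Finset.card_sdiff_of_subset hEI
  have hEle : E.card ≤ I.card := Finset.card_le_card hEI
  have hDI : D ⊆ I := Finset.sdiff_subset
  have hfree : ∀ T ⊆ D, ∑ i ∈ T, x i = 0 → T = ∅ := by
    intro T hT hsT
    by_contra hT0
    have hdis : Disjoint E T := by
      rw [Finset.disjoint_left]
      intro i hi hiT
      exact (Finset.mem_sdiff.mp (hT hiT)).2 hi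
    have := hmax (E ∪ T) (by
      rw [hF, Finset.mem_filter, Finset.mem_powerset]
      refine ⟨Finset.union_subset hEI (hT.trans hDI), ?_⟩
      rw [Finset.sum_union hdis, hsE, hsT, add_zero])
    rw [Finset.card_union_of_disjoint hdis] at this
    have h2 : 0 < T.card := Finset.card_pos.mpr (Finset.nonempty_iff_ne_empty.mpr hT0)
    omega
  set s := ∑ i ∈ D, x i with hs
  have hs0 : s ≠ 0 := by
    intro h
    have := hfree D (Finset.Subset.refl _) h
    rw [this] at hDc
    simp at hDc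
    omega
  set y := ext x s with hy
  set R : Finset (Option ι) := insert none (D.map Function.Embedding.some) with hR
  have hnone : ∀ T : Finset ι, (none : Option ι) ∉ T.map Function.Embedding.some := by
    intro T; simp
  have hsumsome : ∀ T : Finset ι, ∑ o ∈ T.map Function.Embedding.some, y o = ∑ i ∈ T, x i := by
    intro T
    rw [Finset.sum_map]
    rfl
  have hynone : y none = -s := rfl
  have hyne : ∀ o ∈ R, y o ≠ 0 := by
    intro o ho
    rw [hR, Finset.mem_insert, Finset.mem_map] at ho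
    rcases ho with rfl | ⟨i, hi, rfl⟩
    · rw [hynone]; simpa using hs0
    · exact hx i (hDI hi)
  have hRsum : ∑ o ∈ R, y o = 0 := by
    rw [hR, Finset.sum_insert (hnone D), hsumsome, hynone, ← hs]
    ring
  have hRirr : ∀ T ⊆ R, ∑ o ∈ T, y o = 0 → T = ∅ ∨ T = R := by
    intro T hT hsT
    set T₀ := D.filter (fun i => some i ∈ T) with hT₀
    have hT₀D : T₀ ⊆ D := Finset.filter_subset _ _
    have herase : T.erase none = T₀.map Function.Embedding.some := by
      ext o
      rw [Finset.mem_erase, Finset.mem_map]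
      constructor
      · rintro ⟨ho, hoT⟩
        have := hT hoT
        rw [hR, Finset.mem_insert, Finset.mem_map] at this
        rcases this with h | ⟨i, hi, rfl⟩
        · exact absurd h ho
        · exact ⟨i, by rw [hT₀, Finset.mem_filter]; exact ⟨hi, hoT⟩, rfl⟩
      · rintro ⟨i, hi, rfl⟩
        rw [hT₀, Finset.mem_filter] at hi
        exact ⟨by simp, hi.2⟩
    by_cases hn : none ∈ T
    · right
      have h1 := Finset.add_sum_erase T y hn
      rw [herase, hsumsome, hsT, hynone] at h1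
      have h2 := Finset.sum_sdiff (f := x) hT₀D
      have h3 : ∑ i ∈ D \ T₀, x i = 0 := by linarith
      have h4 := hfree (D \ T₀) Finset.sdiff_subset h3
      rw [Finset.sdiff_eq_empty_iff_subset] at h4
      have h5 : T₀ = D := Finset.Subset.antisymm hT₀D h4
      rw [← Finset.insert_erase hn, herase, h5, hR]
    · left
      rw [Finset.erase_eq_of_notMem hn] at herase
      rw [herase, hsumsome] at hsT
      have := hfree T₀ hT₀D hsT
      rw [herase, this]
      simp
  have hRne : R.Nonempty := ⟨none, Finset.mem_insert_self _ _⟩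
  have hirred := irred_of y R hyne hRirr
  obtain ⟨hPne, hQne⟩ := parts_nonempty y R hyne hRne hRsum
  have hPQ := filter_pos_neg y R hyne
  set P := R.filter (fun o => 0 < y o) with hP
  set Q := R.filter (fun o => y o < 0) with hQ
  have hRcard : P.card + Q.card = D.card + 1 := by
    rw [← Finset.card_union_of_disjoint hirred.disj, hPQ, hR,
      Finset.card_insert_of_notMem (hnone D), Finset.card_map]
  have hsingle : ∀ v, cnt y R {v} ≤ P.card.choose (P.card / 2) * Q.card.choose (Q.card / 2) := by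
    intro v
    have := hirred.single (by rw [hPQ]; exact hRsum) hPne hQne (by omega) v
    rwa [hPQ] at this
  -- the whole family with the additional element
  set E' := E.map Function.Embedding.some with hE'
  have hE'R : Disjoint E' R := by
    rw [Finset.disjoint_left]
    intro o ho hoR
    rw [hE', Finset.mem_map] at ho
    obtain ⟨i, hi, rfl⟩ := ho
    rw [hR, Finset.mem_insert, Finset.mem_map] at hoR
    rcases hoR with h | ⟨j, hj, hji⟩
    · exact absurd h (by simp)
    · have : j = i := by simpa using hji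
      rw [this] at hj
      exact (Finset.mem_sdiff.mp hj).2 hi
  have hunion : E' ∪ R = insert none (I.map Function.Embedding.some) := by
    rw [hR, hE', Finset.union_insert, ← Finset.map_union, hD,
      Finset.union_sdiff_of_subset hEI]
  have hmain := cnt_union_le y E' R hE'R _ hsingle 0
  rw [hunion, cnt_insert y _ none (hnone I), hE', Finset.card_map] at hmain
  have hfun : (fun i => y (Function.Embedding.some i)) = x := rfl
  have himg : ({0} : Finset ℝ).image (fun v => v - y none) = {s} := by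
    rw [Finset.image_singleton, hynone]
    simp
  have hsI : ∑ i ∈ I, x i = s := by
    have := Finset.sum_sdiff (f := x) hEI
    rw [hsE] at this
    rw [hs, hD]
    linarith
  rw [himg, cnt_map, cnt_map, hfun, cnt_compl x I s, hsI, sub_self] at hmain
  -- numerical part
  have hPpos := Finset.card_pos.mpr hPne
  have hQpos := Finset.card_pos.mpr hQne
  obtain ⟨α, hα⟩ : ∃ α, (P.card + 1) / 2 = α + 1 := ⟨(P.card + 1) / 2 - 1, by omega⟩
  obtain ⟨β, hβ⟩ : ∃ β, (Q.card + 1) / 2 = β + 1 := ⟨(Q.card + 1) / 2 - 1, by omega⟩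
  have h1 : (P.card.choose (P.card / 2) : ℝ) = 2 ^ P.card * lam (α + 1) := by
    rw [middle_eq_lam, hα]
  have h2 : (Q.card.choose (Q.card / 2) : ℝ) = 2 ^ Q.card * lam (β + 1) := by
    rw [middle_eq_lam, hβ]
  have h3 := lam_mul_le α β
  have h4 : lam (α + β + 1) ≤ lam ((I.card + c - r + 1) / 2) := lam_antitone (by omega)
  have h5 : (2 : ℝ) * cnt x I {0} ≤ 2 ^ E.card *
      ((2 ^ P.card * lam (α + 1)) * (2 ^ Q.card * lam (β + 1))) := by
    rw [← h1, ← h2]
    have : ((cnt x I {0} + cnt x I {0} : ℕ) : ℝ) ≤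
      ((2 ^ E.card * (P.card.choose (P.card / 2) * Q.card.choose (Q.card / 2)) : ℕ) : ℝ) := by
      exact_mod_cast hmain
    push_cast at this
    linarith
  have h6 : (2 : ℝ) ^ E.card * ((2 ^ P.card * lam (α + 1)) * (2 ^ Q.card * lam (β + 1))) =
      2 ^ (I.card + 1) * (lam (α + 1) * lam (β + 1)) := by
    have : I.card + 1 = E.card + P.card + Q.card := by omega
    rw [this, pow_add, pow_add]
    ring
  rw [h6] at h5
  have h7 : (2 : ℝ) ^ (I.card + 1) * (lam (α + 1) * lam (β + 1)) ≤
      2 ^ (I.card + 1) * (1 / 2 * lam ((I.card + c - r + 1) / 2)) := by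
    apply mul_le_mul_of_nonneg_left _ (by positivity)
    linarith
  have h8 : (cnt x I {0} : ℝ) ≤ 2 ^ I.card * (1 / 2 * lam ((I.card + c - r + 1) / 2)) := by
    rw [pow_succ] at h5 h7
    linarith
  push_cast
  rw [pow_add]
  have h9 : (0 : ℝ) < 2 ^ c := by positivity
  nlinarith [mul_le_mul_of_nonneg_left h8 h9.le]

end Pool.Agent.Helper14.ZeroSum
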