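import Mathlib
import Pool.Agent.Helper14.ZeroSum.Assemble
import Pool.Agent.Helper14.ZeroSum.Cases

/-!
The main bound: if every zero-sum subset of `I` misses at least `k` elements, then the number of
zero-sum subsets is at most `2^|I| (1 + C(2k-1,k)) / 4^k`.
-/

namespace Pool.Agent.Helper14.ZeroSum

open Finset

section
variable {ι : Type*} [DecidableEq ι]

theorem centralBinom_lower (k : ℕ) (hk : 1 ≤ k) : 3 * k ≤ Nat.centralBinom k + 1 := by
  induction k, hk using Nat.le_induction with
  | base => simp [Nat.centralBinom, Nat.choose]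
  | succ k hk ih =>
    have h1 := Nat.succ_mul_centralBinom_succ k
    rcases Nat.lt_or_ge k 2 with h2 | h2
    · have : k = 1 := by omega
      subst this
      decide
    · -- `centralBinom (k+1) ≥ 3 * centralBinom k`
      have h3 : 3 * Nat.centralBinom k ≤ Nat.centralBinom (k + 1) := by
        have h4 : (k + 1) * (3 * Nat.centralBinom k) ≤ (k + 1) * Nat.centralBinom (k + 1) := by
          rw [h1]
          have h5 : (k + 1) * 3 ≤ 2 * (2 * k + 1) := by omega
          calc (k + 1) * (3 * Nat.centralBinom k) = ((k + 1) * 3) * Nat.centralBinom k := by ring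
            _ ≤ 2 * (2 * k + 1) * Nat.centralBinom k := Nat.mul_le_mul_right _ h5
        exact Nat.le_of_mul_le_mul_left h4 (by omega)
      omega

/-- the numerical induction step -/
theorem num_step (k : ℕ) (hk : 1 ≤ k) :
    4 * k * (1 + (2 * k - 1).choose k) ≤ (k + 1) * (1 + (2 * (k + 1) - 1).choose (k + 1)) := by
  obtain ⟨m, rfl⟩ : ∃ m, k = m + 1 := ⟨k - 1, by omega⟩
  have e1 : Nat.centralBinom (m + 1) = 2 * (2 * (m + 1) - 1).choose (m + 1) := by
    have h3 : (2 * m + 1).choose (m + 1) = (2 * m + 1).choose m := Nat.choose_symm_half m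
    rw [Nat.centralBinom_eq_two_mul_choose, show 2 * (m + 1) = (2 * m + 1) + 1 by ring,
      Nat.choose_succ_succ, show 2 * m + 1 + 1 - 1 = 2 * m + 1 by omega, h3]
    ring
  have e2 : Nat.centralBinom (m + 1 + 1) =
      2 * (2 * (m + 1 + 1) - 1).choose (m + 1 + 1) := by
    have h3 : (2 * (m + 1) + 1).choose (m + 1 + 1) = (2 * (m + 1) + 1).choose (m + 1) :=
      Nat.choose_symm_half (m + 1)
    rw [Nat.centralBinom_eq_two_mul_choose, show 2 * (m + 1 + 1) = (2 * (m + 1) + 1) + 1 by ring,
      Nat.choose_succ_succ, show 2 * (m + 1) + 1 + 1 - 1 = 2 * (m + 1) + 1 by omega, h3]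
    ring
  have h1 := Nat.succ_mul_centralBinom_succ (m + 1)
  have h2 := centralBinom_lower (m + 1) (by omega)
  rw [e1, e2] at h1
  rw [e1] at h2
  set C := (2 * (m + 1) - 1).choose (m + 1) with hC
  set D := (2 * (m + 1 + 1) - 1).choose (m + 1 + 1) with hD
  -- (m+2) * (2 D) = 2 (2(m+1)+1) * (2 C)
  have h3 : (m + 1 + 1) * D = 2 * (2 * (m + 1) + 1) * C := by
    have : 2 * ((m + 1 + 1) * D) = 2 * (2 * (2 * (m + 1) + 1) * C) := by
      calc 2 * ((m + 1 + 1) * D) = (m + 1 + 1) * (2 * D) := by ring
        _ = 2 * (2 * (m + 1) + 1) * (2 * C) := h1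
        _ = _ := by ring
    exact Nat.eq_of_mul_eq_mul_left (by norm_num) this
  have h4 : (m + 1 + 1) * (1 + D) = (m + 1 + 1) + 2 * (2 * (m + 1) + 1) * C := by
    rw [mul_add, mul_one, h3]
  rw [h4]
  have h5 : 4 * (m + 1) * (1 + C) = 4 * (m + 1) + 4 * (m + 1) * C := by ring
  have h6 : 2 * (2 * (m + 1) + 1) * C = 4 * (m + 1) * C + 2 * C := by ring
  rw [h5, h6]
  omega

theorem cnt_le_half (y : ι → ℝ) (I : Finset ι) (hy : ∀ i ∈ I, y i ≠ 0) (hI : 1 ≤ I.card) :
    2 * cnt y I {0} ≤ 2 ^ I.card := by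
  have h1 := littlewood_offord y I hy {0}
  rw [Finset.card_singleton] at h1
  obtain ⟨m, hm⟩ : ∃ m, I.card = m + 1 := ⟨I.card - 1, by omega⟩
  rw [hm, S_succ_succ, S_zero_right] at h1
  have h2 : S m (0 + 2) ≤ 2 ^ m := by
    rw [← S_full m (m + 2) (by omega)]
    exact S_mono m (by omega)
  rw [hm, pow_succ]
  omega

/-- the extended vector -/
noncomputable def extv (y : ι → ℝ) (I : Finset ι) : Option I → ℝ
  | none => - ∑ i ∈ I, y i
  | some i => y i

theorem case_many (y : ι → ℝ) (I : Finset ι) (k : ℕ) (hk : 2 ≤ k) (hy : ∀ i ∈ I, y i ≠ 0)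
    (hadm : ∀ B ⊆ I, ∑ i ∈ B, y i = 0 → B.card + k ≤ I.card) (hn : 2 * k ≤ I.card + 1) :
    4 ^ k * cnt y I {0} ≤ 2 ^ I.card * (1 + (2 * k - 1).choose k) := by
  classical
  set z := extv y I with hz
  have hnone : z none = - ∑ i ∈ I, y i := rfl
  have hsome : ∀ i : I, z (some i) = y i := fun _ => rfl
  set emb : I ↪ Option I := Function.Embedding.some with hemb
  have huniv : (Finset.univ : Finset (Option I)) = insert none (Finset.univ.map emb) := by
    ext o
    cases o with
    | none => simp
    | some i => simp [hemb]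
  have hnn : (none : Option I) ∉ (Finset.univ : Finset I).map emb := by simp [hemb]
  have hmapI : (Finset.univ : Finset I).map (Function.Embedding.subtype (· ∈ I)) = I := by
    rw [Finset.univ_eq_attach]
    exact Finset.attach_map_val
  have hsumI : ∑ i : I, y i = ∑ i ∈ I, y i := by
    conv_rhs => rw [← hmapI]
    rw [Finset.sum_map]
    rfl
  have hcardI : Fintype.card (Option I) = I.card + 1 := by
    rw [Fintype.card_option, Fintype.card_coe]
  have hI0 : ∑ i ∈ I, y i ≠ 0 := by
    intro h0
    have := hadm I (Finset.Subset.refl _) h0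
    omega
  have hzne : ∀ o, z o ≠ 0 := by
    intro o
    cases o with
    | none => rw [hnone]; exact neg_ne_zero.mpr hI0
    | some i => rw [hsome]; exact hy i i.2
  have hzsum : ∑ o, z o = 0 := by
    rw [huniv, Finset.sum_insert hnn, Finset.sum_map, hnone]
    have : ∑ i : I, z (emb i) = ∑ i : I, y i := rfl
    rw [this, hsumI]
    ring
  have hC : ∀ B : Finset (Option I), none ∈ B → ∑ o ∈ B, z o = 0 → k + 1 ≤ B.card := by
    intro B hB hB0
    -- the complement
    have hcomp : ∑ o ∈ Bᶜ, z o = 0 := by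
      have := Finset.sum_add_sum_compl B z
      linarith
    have hnB : none ∉ Bᶜ := by rw [Finset.mem_compl]; exact fun h => h hB
    set T : Finset I := Finset.eraseNone Bᶜ with hT
    have hTmap : T.map emb = Bᶜ := by
      rw [hT, hemb, Finset.map_some_eraseNone, Finset.erase_eq_of_notMem hnB]
    set T' : Finset ι := T.map (Function.Embedding.subtype (· ∈ I)) with hT'
    have hT'I : T' ⊆ I := by
      intro i hi
      rw [hT', Finset.mem_map] at hi
      obtain ⟨j, _, rfl⟩ := hi
      exact j.2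
    have hsumT : ∑ i ∈ T', y i = 0 := by
      rw [hT', Finset.sum_map, ← hcomp, ← hTmap, Finset.sum_map]
      rfl
    have h1 := hadm T' hT'I hsumT
    rw [hT', Finset.card_map] at h1
    have h2 : Bᶜ.card = T.card := by rw [← hTmap, Finset.card_map]
    rw [Finset.card_compl, hcardI] at h2
    have h3 : B.card ≤ I.card + 1 := by rw [← hcardI]; exact Finset.card_le_univ B
    omega
  have hmain := Mprime z none k hzne hzsum hC hk (by rw [hcardI]; exact hn)
  unfold Fin' at hmain
  -- compute the count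
  have hcnt : cnt z Finset.univ {0} = 2 * cnt y I {0} := by
    rw [huniv, cnt_insert z _ none hnn, cnt_map, cnt_map]
    have e1 : ∀ Λ : Finset ℝ, cnt (fun i => z (emb i)) (Finset.univ : Finset I) Λ = cnt y I Λ := by
      intro Λ
      conv_rhs => rw [← hmapI]
      rw [cnt_map]
      rfl
    rw [e1, e1, Finset.image_singleton, hnone, sub_neg_eq_add, zero_add, ← sub_zero (∑ i ∈ I, y i),
      ← cnt_compl y I 0]
    ring
  rw [hcnt, hcardI, pow_succ] at hmain
  have h2 : 2 * (4 ^ k * cnt y I {0}) ≤ 2 * (2 ^ I.card * (1 + (2 * k - 1).choose k)) := by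
    calc 2 * (4 ^ k * cnt y I {0}) = 4 ^ k * (2 * cnt y I {0}) := by ring
      _ ≤ _ := hmain
      _ = _ := by ring
  exact Nat.le_of_mul_le_mul_left h2 (by norm_num)

theorem main_bound (k : ℕ) (hk : 1 ≤ k) : ∀ (y : ι → ℝ) (I : Finset ι), (∀ i ∈ I, y i ≠ 0) →
    (∀ B ⊆ I, ∑ i ∈ B, y i = 0 → B.card + k ≤ I.card) →
    4 ^ k * cnt y I {0} ≤ 2 ^ I.card * (1 + (2 * k - 1).choose k) := by
  induction k, hk using Nat.le_induction with
  | base =>
    intro y I hy hadm
    have h1 := hadm ∅ (Finset.empty_subset _) (by simp)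
    have := cnt_le_half y I hy (by simpa using h1)
    simp only [mul_one]
    norm_num
    omega
  | succ k hk ih =>
    intro y I hy hadm
    rcases Nat.lt_or_ge (I.card + 1) (2 * (k + 1)) with hlt | hge
    swap
    · exact case_many y I (k + 1) (by omega) hy hadm hge
    -- averaging
    have h0 : k + 1 ≤ I.card := by
      have := hadm ∅ (Finset.empty_subset _) (by simp)
      simpa using this
    have hstep : ∀ i ∈ I, 4 ^ k * cnt y (I.erase i) {0} ≤
        2 ^ (I.card - 1) * (1 + (2 * k - 1).choose k) := by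
      intro i hi
      have := ih y (I.erase i) (fun j hj => hy j (Finset.mem_of_mem_erase hj)) (by
        intro B hB hB0
        have h1 := hadm B (hB.trans (Finset.erase_subset _ _)) hB0
        rw [Finset.card_erase_of_mem hi]
        omega)
      rwa [Finset.card_erase_of_mem hi] at this
    have hdc : (k + 1) * cnt y I {0} ≤ ∑ i ∈ I, cnt y (I.erase i) {0} := by
      unfold cnt
      set Zs := I.powerset.filter (fun T => ∑ i ∈ T, y i ∈ ({0} : Finset ℝ)) with hZs
      have e1 : ∀ i ∈ I, ((I.erase i).powerset.filter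
          (fun T => ∑ i ∈ T, y i ∈ ({0} : Finset ℝ))).card =
          (Zs.filter (fun T => i ∉ T)).card := by
        intro i _
        congr 1
        ext T
        rw [Finset.mem_filter, Finset.mem_filter, hZs, Finset.mem_filter, Finset.mem_powerset,
          Finset.mem_powerset]
        constructor
        · rintro ⟨h1, h2⟩
          refine ⟨⟨h1.trans (Finset.erase_subset _ _), h2⟩, fun hmem => ?_⟩
          exact (Finset.mem_erase.mp (h1 hmem)).1 rfl
        · rintro ⟨⟨h1, h2⟩, h3⟩
          refine ⟨fun x hx => Finset.mem_erase.mpr ⟨?_, h1 hx⟩, h2⟩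
          rintro rfl
          exact h3 hx
      rw [Finset.sum_congr rfl e1]
      simp only [Finset.card_filter (fun T => _ ∉ T)]
      rw [Finset.sum_comm]
      calc (k + 1) * Zs.card = ∑ _T ∈ Zs, (k + 1) := by
            rw [Finset.sum_const, smul_eq_mul, mul_comm]
        _ ≤ ∑ T ∈ Zs, ∑ i ∈ I, (if i ∉ T then 1 else 0) := by
            apply Finset.sum_le_sum
            intro T hT
            rw [hZs, Finset.mem_filter, Finset.mem_powerset, Finset.mem_singleton] at hT
            have h1 := hadm T hT.1 hT.2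
            rw [← Finset.card_filter]
            have h2 : I.filter (fun i => i ∉ T) = I \ T := by
              ext i; simp
            rw [h2, Finset.card_sdiff_of_subset hT.1]
            omega
    have h1 : 4 ^ k * ((k + 1) * cnt y I {0}) ≤
        I.card * (2 ^ (I.card - 1) * (1 + (2 * k - 1).choose k)) := by
      calc 4 ^ k * ((k + 1) * cnt y I {0}) ≤ 4 ^ k * ∑ i ∈ I, cnt y (I.erase i) {0} :=
            Nat.mul_le_mul_left _ hdc
        _ = ∑ i ∈ I, 4 ^ k * cnt y (I.erase i) {0} := Finset.mul_sum _ _ _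
        _ ≤ ∑ _i ∈ I, 2 ^ (I.card - 1) * (1 + (2 * k - 1).choose k) := Finset.sum_le_sum hstep
        _ = _ := by rw [Finset.sum_const, smul_eq_mul]
    have hpow : 2 ^ I.card = 2 * 2 ^ (I.card - 1) := by
      obtain ⟨m, hm⟩ : ∃ m, I.card = m + 1 := ⟨I.card - 1, by omega⟩
      rw [hm, pow_succ, Nat.add_sub_cancel]
      ring
    have h2 := num_step k hk
    have h3 : (k + 1) * (4 ^ (k + 1) * cnt y I {0}) ≤
        (k + 1) * (2 ^ I.card * (1 + (2 * (k + 1) - 1).choose (k + 1))) := by
      calc (k + 1) * (4 ^ (k + 1) * cnt y I {0}) = 4 * (4 ^ k * ((k + 1) * cnt y I {0})) := by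
            rw [pow_succ]; ring
        _ ≤ 4 * (I.card * (2 ^ (I.card - 1) * (1 + (2 * k - 1).choose k))) :=
            Nat.mul_le_mul_left _ h1
        _ ≤ 4 * ((2 * k) * (2 ^ (I.card - 1) * (1 + (2 * k - 1).choose k))) := by
            apply Nat.mul_le_mul_left
            apply Nat.mul_le_mul_right
            omega
        _ = 2 ^ I.card * (4 * k * (1 + (2 * k - 1).choose k)) := by rw [hpow]; ring
        _ ≤ 2 ^ I.card * ((k + 1) * (1 + (2 * (k + 1) - 1).choose (k + 1))) :=
            Nat.mul_le_mul_left _ h2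
        _ = _ := by ring
    exact Nat.le_of_mul_le_mul_left h3 (by omega)

end

end Pool.Agent.Helper14.ZeroSum
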